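import Mathlib

/-!
MP_8c5d11_gt, part L (continua of finite length), file L1: a connected set is at least as long as the
distance of two of its points, and a connected set has length at least `t` in a ball of radius `t` that
it leaves.
-/

open MeasureTheory Metric Set
open scoped ENNReal NNReal

namespace Pool.Agent.W_8c5d11_h22

variable {X : Type*} [MetricSpace X] [MeasurableSpace X] [BorelSpace X]

/-- A preconnected set `K` containing `a` and `b` has one-dimensional Hausdorff measure at least
`edist a b`.  PROOF: the function `f z = dist a z` is 1-Lipschitz, so `μH[1] (f '' K) ≤ μH[1] K`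
(`LipschitzOnWith.hausdorffMeasure_image_le`, or `LipschitzWith.hausdorffMeasure_image_le`); `f '' K` is
preconnected (continuous image) and contains `0 = f a` and `dist a b = f b`, hence contains
`Icc 0 (dist a b)`; and `μH[1]` on the reals is Lebesgue measure (`MeasureTheory.hausdorffMeasure_real`),
`Real.volume_Icc`. -/
theorem edist_le_length {K : Set X} (hK : IsPreconnected K) {a b : X} (ha : a ∈ K) (hb : b ∈ K) :
    edist a b ≤ μH[1] K := by
  have hf : LipschitzWith 1 (fun z => dist a z) := LipschitzWith.dist_right a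
  have h1 : μH[1] ((fun z => dist a z) '' K) ≤ μH[1] K := by
    have h := hf.hausdorffMeasure_image_le (d := 1) zero_le_one K
    simpa using h
  have h2 : Icc 0 (dist a b) ⊆ (fun z => dist a z) '' K :=
    (hK.image _ hf.continuous.continuousOn).ordConnected.out ⟨a, ha, dist_self a⟩ ⟨b, hb, rfl⟩
  calc edist a b = volume (Icc 0 (dist a b)) := by rw [Real.volume_Icc, sub_zero, edist_dist]
    _ = μH[1] (Icc 0 (dist a b)) := by rw [hausdorffMeasure_real]
    _ ≤ μH[1] ((fun z => dist a z) '' K) := measure_mono h2
    _ ≤ μH[1] K := h1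

/-- PROOF: as above with `f z = dist x z`, which maps `S ∩ ball x t` onto a set containing `Ico 0 t`:
`f '' S` contains `Icc 0 (dist x y)`, so each `s` with `0 ≤ s < t` is `f z` for some `z` in `S`, and
`dist x z = s < t` puts `z` into the ball (mind `dist_comm`).  For `t ≤ 0` the claim is trivial. -/
theorem half_ball {S : Set X} (hS : IsPreconnected S) {x y : X} (hx : x ∈ S) (hy : y ∈ S) {t : ℝ}
    (ht : t ≤ dist x y) : ENNReal.ofReal t ≤ μH[1] (S ∩ ball x t) := by
  have hf : LipschitzWith 1 (fun z => dist x z) := LipschitzWith.dist_right x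
  have h1 : μH[1] ((fun z => dist x z) '' (S ∩ ball x t)) ≤ μH[1] (S ∩ ball x t) := by
    have h := hf.hausdorffMeasure_image_le (d := 1) zero_le_one (S ∩ ball x t)
    simpa using h
  have h2 : Icc 0 (dist x y) ⊆ (fun z => dist x z) '' S :=
    (hS.image _ hf.continuous.continuousOn).ordConnected.out ⟨x, hx, dist_self x⟩ ⟨y, hy, rfl⟩
  have h3 : Ico 0 t ⊆ (fun z => dist x z) '' (S ∩ ball x t) := by
    intro s hs
    obtain ⟨z, hz, hzs⟩ := h2 ⟨hs.1, hs.2.le.trans ht⟩
    refine ⟨z, ⟨hz, ?_⟩, hzs⟩
    rw [mem_ball, dist_comm]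
    exact (show dist x z = s from hzs).trans_lt hs.2
  calc ENNReal.ofReal t = volume (Ico 0 t) := by rw [Real.volume_Ico, sub_zero]
    _ = μH[1] (Ico 0 t) := by rw [hausdorffMeasure_real]
    _ ≤ μH[1] ((fun z => dist x z) '' (S ∩ ball x t)) := measure_mono h3
    _ ≤ μH[1] (S ∩ ball x t) := h1

end Pool.Agent.W_8c5d11_h22
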