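import Pool.Agent.W_8c5d11_h22.L10

/-!
MP_8c5d11_gt, part L, file L10b: the local tube inequality for open and for Borel sets.
-/

open MeasureTheory Metric Set Filter
open scoped ENNReal NNReal Topology

namespace Pool.Agent.W_8c5d11_h22

/-- Open sets.  PROOF: if `μH[1] S = ⊤` first assume it is finite (hypothesis).  The sets
`W n = {x | x ∈ cthickening ρ S ∧ closedBall x (ρ + 3/(n+1)) ⊆ A}` increase to the set in question (for a
compact `closedBall x ρ` inside the open set `A` there is `δ` with `closedBall x (ρ + δ) ⊆ A`: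
`IsCompact.exists_cthickening_subset_open` and `closedBall x (ρ + δ) ⊆ cthickening δ (closedBall x ρ)`).
For fixed `n` let `η ≤ 1/(n+1)` tend to `0` in `tube_local_aux` to get the bound
`ofReal (2ρ) μH[1](S ∩ A) + ofReal (π ρ²)` for `W n`, then `Monotone.measure_iUnion`. -/
theorem tube_local_open {S : Set ℂ} (hc : IsCompact S) (hS : IsConnected S) (hfin : μH[1] S ≠ ⊤)
    {A : Set ℂ} (hA : IsOpen A) {ρ : ℝ} (hρ : 0 < ρ) :
    volume {x : ℂ | x ∈ cthickening ρ S ∧ closedBall x ρ ⊆ A} ≤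
      ENNReal.ofReal (2 * ρ) * μH[1] (S ∩ A) + ENNReal.ofReal (Real.pi * ρ ^ 2) := by
  have hSA : μH[1] (S ∩ A) ≠ ⊤ := ne_top_of_le_ne_top hfin (measure_mono inter_subset_left)
  have hη : Tendsto (fun k : ℕ => 1 / ((k : ℝ) + 1)) atTop (𝓝 0) :=
    tendsto_one_div_add_atTop_nhds_zero_nat
  have hlim : Tendsto (fun k : ℕ => ENNReal.ofReal (2 * (ρ + 2 * (1 / ((k : ℝ) + 1)))) *
      (μH[1] (S ∩ A) + ENNReal.ofReal (1 / ((k : ℝ) + 1))) +
        ENNReal.ofReal (Real.pi * (ρ + 2 * (1 / ((k : ℝ) + 1))) ^ 2)) atTop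
      (𝓝 (ENNReal.ofReal (2 * ρ) * μH[1] (S ∩ A) + ENNReal.ofReal (Real.pi * ρ ^ 2))) := by
    have h1 : Tendsto (fun k : ℕ => ρ + 2 * (1 / ((k : ℝ) + 1))) atTop (𝓝 ρ) := by
      have := (hη.const_mul 2).const_add ρ
      simpa using this
    have h2 : Tendsto (fun k : ℕ => ENNReal.ofReal (2 * (ρ + 2 * (1 / ((k : ℝ) + 1))))) atTop
        (𝓝 (ENNReal.ofReal (2 * ρ))) := ENNReal.tendsto_ofReal (h1.const_mul 2)
    have h3 : Tendsto (fun k : ℕ => ENNReal.ofReal (Real.pi * (ρ + 2 * (1 / ((k : ℝ) + 1))) ^ 2))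
        atTop (𝓝 (ENNReal.ofReal (Real.pi * ρ ^ 2))) :=
      ENNReal.tendsto_ofReal ((h1.pow 2).const_mul _)
    have h4 : Tendsto (fun k : ℕ => μH[1] (S ∩ A) + ENNReal.ofReal (1 / ((k : ℝ) + 1))) atTop
        (𝓝 (μH[1] (S ∩ A))) := by
      have h5 := (ENNReal.tendsto_ofReal hη).const_add (μH[1] (S ∩ A))
      rwa [ENNReal.ofReal_zero, add_zero] at h5
    exact (ENNReal.Tendsto.mul h2 (Or.inr hSA) h4 (Or.inr ENNReal.ofReal_ne_top)).add h3
  have hW : ∀ n : ℕ, volume {x : ℂ | x ∈ cthickening ρ S ∧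
      closedBall x (ρ + 3 * (1 / ((n : ℝ) + 1))) ⊆ A} ≤
      ENNReal.ofReal (2 * ρ) * μH[1] (S ∩ A) + ENNReal.ofReal (Real.pi * ρ ^ 2) := by
    intro n
    refine ge_of_tendsto hlim ?_
    filter_upwards [eventually_ge_atTop n] with k hk
    have hk' : 1 / ((k : ℝ) + 1) ≤ 1 / ((n : ℝ) + 1) := by
      have : (n : ℝ) ≤ k := Nat.cast_le.2 hk
      exact one_div_le_one_div_of_le (by positivity) (by linarith)
    refine le_trans (measure_mono ?_)
      (tube_local_aux hc hS hfin hA.measurableSet hρ (η := 1 / ((k : ℝ) + 1)) (by positivity))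
    rintro x ⟨hx1, hx2⟩
    exact ⟨hx1, (closedBall_subset_closedBall (by linarith)).trans hx2⟩
  have hmono : Monotone fun n : ℕ => {x : ℂ | x ∈ cthickening ρ S ∧
      closedBall x (ρ + 3 * (1 / ((n : ℝ) + 1))) ⊆ A} := by
    intro n k hnk x hx
    have hk' : 1 / ((k : ℝ) + 1) ≤ 1 / ((n : ℝ) + 1) := by
      have : (n : ℝ) ≤ k := Nat.cast_le.2 hnk
      exact one_div_le_one_div_of_le (by positivity) (by linarith)
    exact ⟨hx.1, (closedBall_subset_closedBall (by linarith)).trans hx.2⟩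
  have hsub : {x : ℂ | x ∈ cthickening ρ S ∧ closedBall x ρ ⊆ A} ⊆
      ⋃ n : ℕ, {x : ℂ | x ∈ cthickening ρ S ∧
        closedBall x (ρ + 3 * (1 / ((n : ℝ) + 1))) ⊆ A} := by
    rintro x ⟨hx1, hx2⟩
    obtain ⟨δ, hδ, hδA⟩ := (isCompact_closedBall x ρ).exists_cthickening_subset_open hA hx2
    rw [cthickening_closedBall hδ.le hρ.le] at hδA
    obtain ⟨n, hn⟩ := exists_nat_one_div_lt (show (0 : ℝ) < δ / 3 by positivity)
    refine mem_iUnion.2 ⟨n, hx1, (closedBall_subset_closedBall ?_).trans hδA⟩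
    linarith
  refine (measure_mono hsub).trans ?_
  rw [hmono.measure_iUnion]
  exact iSup_le hW

/-- Borel sets.  PROOF: the measure `(μH[1]).restrict S` is finite, hence outer regular, so for every
`ε > 0` there is an open `A ⊇ D` with `μH[1] (S ∩ A) ≤ μH[1] (S ∩ D) + ε` (`Set.exists_isOpen_lt_add` or
`Set.exists_isOpen_le_add`); apply `tube_local_open` and let `ε → 0`. -/
theorem tube_local {S : Set ℂ} (hc : IsCompact S) (hS : IsConnected S) (hfin : μH[1] S ≠ ⊤)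
    {D : Set ℂ} (hD : MeasurableSet D) {ρ : ℝ} (hρ : 0 < ρ) :
    volume {x : ℂ | x ∈ cthickening ρ S ∧ closedBall x ρ ⊆ D} ≤
      ENNReal.ofReal (2 * ρ) * μH[1] (S ∩ D) + ENNReal.ofReal (Real.pi * ρ ^ 2) := by
  have hfinm : IsFiniteMeasure ((μH[1] : Measure ℂ).restrict S) :=
    ⟨by rw [Measure.restrict_apply_univ]; exact lt_top_iff_ne_top.2 hfin⟩
  have hρ0 : ENNReal.ofReal (2 * ρ) ≠ 0 := by
    rw [ne_eq, ENNReal.ofReal_eq_zero, not_le]
    positivity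
  refine ENNReal.le_of_forall_pos_le_add fun ε hε _ => ?_
  have hε' : (ε : ℝ≥0∞) / ENNReal.ofReal (2 * ρ) ≠ 0 :=
    ENNReal.div_ne_zero.2 ⟨by exact_mod_cast hε.ne', ENNReal.ofReal_ne_top⟩
  obtain ⟨A, hDA, hA, hle⟩ := Set.exists_isOpen_le_add D ((μH[1] : Measure ℂ).restrict S) hε'
  rw [Measure.restrict_apply hA.measurableSet, Measure.restrict_apply hD, inter_comm A,
    inter_comm D] at hle
  have h1 : volume {x : ℂ | x ∈ cthickening ρ S ∧ closedBall x ρ ⊆ D} ≤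
      volume {x : ℂ | x ∈ cthickening ρ S ∧ closedBall x ρ ⊆ A} :=
    measure_mono fun x hx => ⟨hx.1, hx.2.trans hDA⟩
  refine h1.trans ((tube_local_open hc hS hfin hA hρ).trans ?_)
  calc ENNReal.ofReal (2 * ρ) * μH[1] (S ∩ A) + ENNReal.ofReal (Real.pi * ρ ^ 2)
      ≤ ENNReal.ofReal (2 * ρ) * (μH[1] (S ∩ D) + ε / ENNReal.ofReal (2 * ρ)) +
        ENNReal.ofReal (Real.pi * ρ ^ 2) := by gcongr
    _ = ENNReal.ofReal (2 * ρ) * μH[1] (S ∩ D) + ENNReal.ofReal (Real.pi * ρ ^ 2) + ε := by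
        rw [mul_add, ENNReal.mul_div_cancel hρ0 ENNReal.ofReal_ne_top]
        ring

end Pool.Agent.W_8c5d11_h22
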