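import Mathlib

/-!
MP_8c5d11_gt, part U, file U10: grids.
-/

open MeasureTheory Metric Set
open scoped ENNReal NNReal

namespace Pool.Agent.W_8c5d11_h22

/-- PROOF: `G = [z0 - L, z0 + L] ∪ ⋃_{n ≤ 2L} [z0 - L + n - i L, z0 - L + n + i L]` (a comb of `2 L + 1`
vertical segments of length `2 L` and one horizontal segment of length `2 L`); every point with
`‖y - z0‖ ≤ L` is within `1` of a vertical segment (its real part is within `1` of some `z0.re - L + n`);
total length `2 L + (2 L + 1) 2 L`, `hausdorffMeasure_segment`.  Connected: all segments meet the horizontal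
one. -/
theorem exists_grid (z0 : ℂ) (L : ℕ) :
    ∃ G : Set ℂ, IsCompact G ∧ IsConnected G ∧ (∀ y : ℂ, ‖y - z0‖ ≤ L → ∃ z ∈ G, dist y z ≤ 1) ∧
      (∀ x : ℝ, |x| ≤ L → z0 + (x : ℂ) ∈ G) ∧ μH[1] G ≤ ENNReal.ofReal (4 * L ^ 2 + 4 * L) := by
  classical
  obtain ⟨H, hH⟩ : ∃ H : Set ℂ, H = segment ℝ (z0 - (L : ℂ)) (z0 + (L : ℂ)) := ⟨_, rfl⟩
  obtain ⟨V, hV⟩ : ∃ V : ℕ → Set ℂ, V = fun n : ℕ => segment ℝ
    (z0 - (L : ℂ) + (n : ℂ) - (L : ℂ) * Complex.I) (z0 - (L : ℂ) + (n : ℂ) + (L : ℂ) * Complex.I) :=
    ⟨_, rfl⟩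
  have hsegc : ∀ x y : ℂ, IsCompact (segment ℝ x y) := by
    intro x y
    rw [segment_eq_image]
    exact isCompact_Icc.image (by fun_prop)
  have hsegn : ∀ x y : ℂ, IsConnected (segment ℝ x y) := fun x y =>
    (convex_segment x y).isConnected ⟨x, left_mem_segment ℝ x y⟩
  have hL0 : (0 : ℝ) ≤ L := Nat.cast_nonneg L
  have hHmem : ∀ x : ℝ, |x| ≤ L → z0 + (x : ℂ) ∈ H := by
    intro x hx
    rw [abs_le] at hx
    rw [hH]
    by_cases hL : (L : ℝ) = 0
    · have hx0 : x = 0 := by
        rw [hL] at hx; linarith [hx.1, hx.2]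
      have hLc : (L : ℂ) = 0 := by exact_mod_cast hL
      rw [hx0, hLc]
      simp
    · have hLp : 0 < (L : ℝ) := lt_of_le_of_ne hL0 (Ne.symm hL)
      refine ⟨(L - x) / (2 * L), (L + x) / (2 * L), div_nonneg (by linarith) (by linarith),
        div_nonneg (by linarith) (by linarith), ?_, ?_⟩
      · field_simp
        ring
      · have hLc : (L : ℂ) ≠ 0 := by exact_mod_cast hLp.ne'
        simp only [Complex.real_smul]
        push_cast
        field_simp
        ring
  have hVmem : ∀ (n : ℕ) (y : ℝ), |y| ≤ L → z0 - (L : ℂ) + (n : ℂ) + (y : ℂ) * Complex.I ∈ V n := by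
    intro n x hx
    rw [abs_le] at hx
    rw [hV]
    by_cases hL : (L : ℝ) = 0
    · have hx0 : x = 0 := by
        rw [hL] at hx; linarith [hx.1, hx.2]
      have hLc : (L : ℂ) = 0 := by exact_mod_cast hL
      rw [hx0, hLc]
      simp
    · have hLp : 0 < (L : ℝ) := lt_of_le_of_ne hL0 (Ne.symm hL)
      refine ⟨(L - x) / (2 * L), (L + x) / (2 * L), div_nonneg (by linarith) (by linarith),
        div_nonneg (by linarith) (by linarith), ?_, ?_⟩
      · field_simp
        ring
      · have hLc : (L : ℂ) ≠ 0 := by exact_mod_cast hLp.ne'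
        simp only [Complex.real_smul]
        push_cast
        field_simp
        ring
  refine ⟨H ∪ ⋃ n ∈ Finset.range (2 * L + 1), V n, ?_, ?_, ?_, ?_, ?_⟩
  · refine IsCompact.union (by rw [hH]; exact hsegc _ _) ?_
    exact (Finset.range (2 * L + 1)).isCompact_biUnion fun n _ => by rw [hV]; exact hsegc _ _
  · have key : ∀ s : Finset ℕ, s ⊆ Finset.range (2 * L + 1) → IsConnected (H ∪ ⋃ n ∈ s, V n) := by
      intro s
      induction s using Finset.induction_on with
      | empty => intro _; simpa [hH] using hsegn _ _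
      | insert a s ha ih =>
        intro hs
        have ih' := ih (fun x hx => hs (Finset.mem_insert_of_mem hx))
        have e : H ∪ ⋃ k ∈ insert a s, V k = (H ∪ ⋃ k ∈ s, V k) ∪ V a := by
          rw [Finset.set_biUnion_insert, union_comm (V a), union_assoc]
        rw [e]
        refine IsConnected.union ?_ ih' (by rw [hV]; exact hsegn _ _)
        refine ⟨z0 - (L : ℂ) + (a : ℂ), Or.inl ?_, ?_⟩
        · have haL := Finset.mem_range.1 (hs (Finset.mem_insert_self a s))
          have haL' : (a : ℝ) ≤ 2 * L := by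
            have : a ≤ 2 * L := by omega
            exact_mod_cast this
          have := hHmem ((a : ℝ) - L) (by
            rw [abs_le]
            have : (0 : ℝ) ≤ a := Nat.cast_nonneg a
            constructor <;> linarith)
          have e : z0 + (((a : ℝ) - L : ℝ) : ℂ) = z0 - (L : ℂ) + (a : ℂ) := by push_cast; ring
          rwa [e] at this
        · have := hVmem a 0 (by rw [abs_zero]; exact hL0)
          simpa using this
    exact key _ subset_rfl
  · intro y hy
    have hre : |(y - z0).re| ≤ L := (Complex.abs_re_le_norm _).trans hy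
    have him : |(y - z0).im| ≤ L := (Complex.abs_im_le_norm _).trans hy
    rw [abs_le] at hre
    obtain ⟨n, hn⟩ : ∃ n, n = ⌊(y - z0).re + L⌋₊ := ⟨_, rfl⟩
    have hnn : 0 ≤ (y - z0).re + L := by linarith
    have h1 := Nat.floor_le hnn
    have h2 := Nat.lt_floor_add_one ((y - z0).re + L)
    rw [← hn] at h1 h2
    have hnL : n < 2 * L + 1 := by
      have : (n : ℝ) ≤ 2 * L := by linarith
      have : n ≤ 2 * L := by exact_mod_cast this
      omega
    refine ⟨z0 - (L : ℂ) + (n : ℂ) + ((y - z0).im : ℂ) * Complex.I, Or.inr ?_, ?_⟩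
    · simp only [mem_iUnion]
      exact ⟨n, Finset.mem_range.2 hnL, hVmem n _ him⟩
    · rw [dist_eq_norm]
      have e : y - (z0 - (L : ℂ) + (n : ℂ) + ((y - z0).im : ℂ) * Complex.I) =
          (((y - z0).re + L - n : ℝ) : ℂ) := by
        apply Complex.ext
        · simp; ring
        · simp
      rw [e, Complex.norm_real, Real.norm_eq_abs, abs_le]
      constructor <;> linarith
  · intro x hx
    exact Or.inl (hHmem x hx)
  · have hHl : μH[1] H = ENNReal.ofReal (2 * L) := by
      rw [hH, hausdorffMeasure_segment, edist_dist, dist_eq_norm]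
      congr 1
      have e : z0 - (L : ℂ) - (z0 + (L : ℂ)) = -((2 * L : ℝ) : ℂ) := by push_cast; ring
      rw [e, norm_neg, Complex.norm_real, Real.norm_of_nonneg (by positivity)]
    have hVl : ∀ n, μH[1] (V n) = ENNReal.ofReal (2 * L) := by
      intro n
      rw [hV, hausdorffMeasure_segment, edist_dist, dist_eq_norm]
      congr 1
      have e : z0 - (L : ℂ) + (n : ℂ) - (L : ℂ) * Complex.I -
          (z0 - (L : ℂ) + (n : ℂ) + (L : ℂ) * Complex.I) = -((2 * L : ℝ) : ℂ) * Complex.I := by
        push_cast; ring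
      rw [e, norm_mul, norm_neg, Complex.norm_real, Real.norm_of_nonneg (by positivity),
        Complex.norm_I, mul_one]
    refine (measure_union_le _ _).trans ?_
    refine (add_le_add hHl.le (measure_biUnion_finset_le _ _)).trans ?_
    rw [Finset.sum_congr rfl fun n _ => hVl n, Finset.sum_const, Finset.card_range,
      nsmul_eq_mul, ← ENNReal.ofReal_natCast, ← ENNReal.ofReal_mul (by positivity),
      ← ENNReal.ofReal_add (by positivity) (by positivity)]
    apply ENNReal.ofReal_le_ofReal
    push_cast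
    nlinarith

end Pool.Agent.W_8c5d11_h22
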