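import Pool.Agent.W_8c5d11_h22.U1b

/-!
MP_8c5d11_gt, part U, file U8: compactness and connectedness of the construction.
-/

open MeasureTheory Metric Set

namespace Pool.Agent.W_8c5d11_h22

variable {M : ℕ} {c : ℝ}

/-- The whole set, with the two grids `G0` (around `0`) and `Gb` (around `b`). -/
def sig (M : ℕ) (c : ℝ) (G0 Gb : Set ℂ) : Set ℂ :=
  G0 ∪ Gb ∪ outer M c ∪ (⋃ k ∈ Finset.Ico 50 (M - 1), arcA M c k) ∪
    ⋃ k ∈ Finset.Ico 50 (M - 50), (arcB M c k ∪ segment ℝ (pA M c k) (vv M c k) ∪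
      segment ℝ (pB M c k) (vv M c k))

/-- adding finitely many connected sets which all meet a connected set -/
theorem U8_union_meet {ι : Type*} (s : Finset ι) {C : Set ℂ} (hC : IsConnected C) (F : ι → Set ℂ)
    (hF : ∀ k ∈ s, IsConnected (F k)) (hm : ∀ k ∈ s, (C ∩ F k).Nonempty) :
    IsConnected (C ∪ ⋃ k ∈ s, F k) := by
  classical
  induction s using Finset.induction_on with
  | empty => simpa using hC
  | insert a s ha ih =>
    have ih' := ih (fun k hk => hF k (Finset.mem_insert_of_mem hk))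
      (fun k hk => hm k (Finset.mem_insert_of_mem hk))
    have e : C ∪ ⋃ k ∈ insert a s, F k = (C ∪ ⋃ k ∈ s, F k) ∪ F a := by
      rw [Finset.set_biUnion_insert, union_comm (F a), union_assoc]
    rw [e]
    refine IsConnected.union ?_ ih' (hF a (Finset.mem_insert_self _ _))
    obtain ⟨x, hx1, hx2⟩ := hm a (Finset.mem_insert_self _ _)
    exact ⟨x, Or.inl hx1, hx2⟩

theorem isCompact_arcA (k : ℕ) : IsCompact (arcA M c k) := by
  unfold arcA
  exact isCompact_Icc.image (by fun_prop)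

theorem isConnected_arcA (k : ℕ) : IsConnected (arcA M c k) := by
  unfold arcA
  have h1 : th M c k ≤ 2 * Real.pi := by
    have := th_le_pi (M := M) (c := c) k
    have := Real.pi_pos
    linarith
  refine (isConnected_Icc h1).image _ ?_
  fun_prop

theorem isCompact_arcB (k : ℕ) : IsCompact (arcB M c k) := by
  unfold arcB
  exact isCompact_Icc.image (by fun_prop)

theorem isConnected_arcB (k : ℕ) : IsConnected (arcB M c k) := by
  unfold arcB
  have h1 : 0 ≤ ps M c k := Real.arccos_nonneg _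
  refine (isConnected_Icc h1).image _ ?_
  fun_prop

theorem rho_mem_arcA (k : ℕ) : ((rho c (k + 1) : ℝ) : ℂ) ∈ arcA M c k := by
  refine ⟨2 * Real.pi, ⟨?_, le_rfl⟩, ?_⟩
  · have := th_le_pi (M := M) (c := c) k
    have := Real.pi_pos
    linarith
  · simp only
    rw [show ((2 * Real.pi : ℝ) : ℂ) * Complex.I = 2 * Real.pi * Complex.I by push_cast; ring,
      Complex.exp_two_pi_mul_I, mul_one]

/-- PROOF: `pt k = (rho k + 1) exp (i th k)` by `cos_th`, `sin_th`; `rho (k+1) - 1 = rho k + 1`. -/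
theorem pA_mem_arcA (h : Par M c) {k : ℕ} (hk : k ≤ M) : pA M c k ∈ arcA M c k := by
  have hpos : 0 < rho c k + 1 := by linarith [U1_rho_nonneg h k]
  have hrs : rho c (k + 1) = rho c k + 2 := by unfold rho; push_cast; ring
  refine ⟨th M c k, ⟨le_rfl, ?_⟩, ?_⟩
  · have := th_le_pi (M := M) (c := c) k
    have := Real.pi_pos
    linarith
  · simp only
    unfold pA
    rw [hrs, show rho c k + 2 - 1 = rho c k + 1 by ring]
    have e : pt M c k = ((rho c k + 1 : ℝ) : ℂ) * Complex.exp (th M c k * Complex.I) := by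
      apply Complex.ext
      · rw [Complex.re_ofReal_mul, Complex.exp_ofReal_mul_I_re, cos_th h hk]
        simp only [pt]
        field_simp
      · rw [Complex.im_ofReal_mul, Complex.exp_ofReal_mul_I_im, sin_th h hk]
        simp only [pt]
        field_simp
    rw [e, ← mul_assoc, ← Complex.ofReal_mul, div_mul_cancel₀ _ hpos.ne']

theorem rho_mem_arcB (k : ℕ) : ((rho c k : ℝ) : ℂ) ∈ arcB M c k := by
  refine ⟨0, ⟨le_rfl, Real.arccos_nonneg _⟩, ?_⟩
  simp only [Complex.ofReal_zero, neg_zero, zero_mul, Complex.exp_zero, mul_one]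
  rw [← Complex.ofReal_sub]
  congr 1
  unfold beta
  ring

/-- PROOF: `pt k - b = - (beta k + 1) exp (- i ps k)` by `cos_ps`, `sin_ps`. -/
theorem pB_mem_arcB (h : Par M c) {k : ℕ} (hk : k ≤ M) : pB M c k ∈ arcB M c k := by
  have hpos : 0 < beta M c k + 1 := by linarith [U1_beta_nonneg h hk]
  refine ⟨ps M c k, ⟨Real.arccos_nonneg _, le_rfl⟩, ?_⟩
  simp only
  unfold pB
  have e : pt M c k - (bb M c : ℂ) =
      -(((beta M c k + 1 : ℝ) : ℂ) * Complex.exp (-(ps M c k) * Complex.I)) := by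
    have e1 : Complex.exp (-(ps M c k : ℂ) * Complex.I) =
        Complex.exp (((-(ps M c k) : ℝ) : ℂ) * Complex.I) := by push_cast; rfl
    rw [e1]
    apply Complex.ext
    · rw [Complex.neg_re, Complex.re_ofReal_mul, Complex.exp_ofReal_mul_I_re, Real.cos_neg,
        cos_ps h hk]
      simp only [pt, Complex.sub_re, Complex.ofReal_re]
      field_simp
      ring
    · rw [Complex.neg_im, Complex.im_ofReal_mul, Complex.exp_ofReal_mul_I_im, Real.sin_neg,
        sin_ps h hk]
      simp only [pt, Complex.sub_im, Complex.ofReal_im]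
      field_simp
      ring
  rw [e, mul_neg, ← mul_assoc, ← Complex.ofReal_mul, div_mul_cancel₀ _ hpos.ne']
  ring

theorem isCompact_sig {G0 Gb : Set ℂ} (h0 : IsCompact G0) (hb : IsCompact Gb) :
    IsCompact (sig M c G0 Gb) := by
  have hseg : ∀ x y : ℂ, IsCompact (segment ℝ x y) := by
    intro x y
    rw [segment_eq_image]
    exact isCompact_Icc.image (by fun_prop)
  unfold sig
  refine IsCompact.union (IsCompact.union (IsCompact.union (IsCompact.union h0 hb) ?_) ?_) ?_
  · exact isCompact_sphere _ _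
  · exact (Finset.Ico 50 (M - 1)).isCompact_biUnion fun k _ => isCompact_arcA k
  · exact (Finset.Ico 50 (M - 50)).isCompact_biUnion fun k _ =>
      ((isCompact_arcB k).union (hseg _ _)).union (hseg _ _)

/-- PROOF: the piece `Q k = arcB k ∪ [pB k, vv k] ∪ [pA k, vv k] ∪ arcA k` (`50 ≤ k < M - 50`) is
connected and contains `rho k` and `rho (k+1)`; the union of these pieces is connected
(`IsConnected.biUnion_of_chain` or induction); it meets `G0` in `rho 50` and `Gb` in `rho (M - 50)`; the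
remaining `arcA k`, `M - 50 ≤ k < M - 1`, meet `Gb` in `rho (k+1)`; the outer circle meets `Gb` in
`rho M` (sphere of the plane is connected: image of an interval, or `isConnected_sphere`). -/
theorem isConnected_sig (h : Par M c) {G0 Gb : Set ℂ} (h0 : IsConnected G0) (hb : IsConnected Gb)
    (h0r : ((rho c 50 : ℝ) : ℂ) ∈ G0)
    (hbr : ∀ k, M - 50 ≤ k → k ≤ M → ((rho c k : ℝ) : ℂ) ∈ Gb) : IsConnected (sig M c G0 Gb) := by
  have hM := h.M102
  have hseg : ∀ x y : ℂ, IsConnected (segment ℝ x y) := fun x y =>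
    (convex_segment x y).isConnected ⟨x, left_mem_segment ℝ x y⟩
  obtain ⟨Q, hQ⟩ : ∃ Q : ℕ → Set ℂ, Q = fun k => ((arcB M c k ∪ segment ℝ (pB M c k) (vv M c k)) ∪
    segment ℝ (pA M c k) (vv M c k)) ∪ arcA M c k := ⟨_, rfl⟩
  have hQc : ∀ k, k ≤ M → IsConnected (Q k) := by
    intro k hk
    rw [hQ]
    refine IsConnected.union ⟨pA M c k, Or.inr (left_mem_segment ℝ _ _), pA_mem_arcA h hk⟩ ?_
      (isConnected_arcA k)
    refine IsConnected.union ⟨vv M c k, Or.inr (right_mem_segment ℝ _ _),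
      right_mem_segment ℝ _ _⟩ ?_ (hseg _ _)
    exact IsConnected.union ⟨pB M c k, pB_mem_arcB h hk, left_mem_segment ℝ _ _⟩
      (isConnected_arcB k) (hseg _ _)
  have hQ1 : ∀ k, ((rho c k : ℝ) : ℂ) ∈ Q k := by
    intro k; rw [hQ]; exact Or.inl (Or.inl (Or.inl (rho_mem_arcB k)))
  have hQ2 : ∀ k, ((rho c (k + 1) : ℝ) : ℂ) ∈ Q k := by
    intro k; rw [hQ]; exact Or.inr (rho_mem_arcA k)
  have hU : IsConnected (⋃ k ∈ Set.Ico 50 (M - 50), Q k) := by
    apply IsConnected.biUnion_of_chain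
    · exact ⟨50, ⟨le_rfl, by omega⟩⟩
    · exact ordConnected_Ico
    · intro n hn
      exact hQc n (by have := hn.2; omega)
    · intro n _ _
      exact ⟨_, hQ2 n, hQ1 _⟩
  have hC : IsConnected (G0 ∪ (⋃ k ∈ Set.Ico 50 (M - 50), Q k) ∪ Gb) := by
    refine IsConnected.union ?_ (IsConnected.union ?_ h0 hU) hb
    · refine ⟨((rho c (M - 50) : ℝ) : ℂ), Or.inr ?_, hbr _ le_rfl (by omega)⟩
      simp only [mem_iUnion]
      refine ⟨M - 51, ⟨by omega, by omega⟩, ?_⟩
      have := hQ2 (M - 51)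
      rwa [show M - 51 + 1 = M - 50 by omega] at this
    · refine ⟨((rho c 50 : ℝ) : ℂ), h0r, ?_⟩
      simp only [mem_iUnion]
      exact ⟨50, ⟨le_rfl, by omega⟩, hQ1 50⟩
  have hCo : IsConnected ((G0 ∪ (⋃ k ∈ Set.Ico 50 (M - 50), Q k) ∪ Gb) ∪ outer M c) := by
    refine IsConnected.union ?_ hC ?_
    · refine ⟨((rho c M : ℝ) : ℂ), Or.inr (hbr M (by omega) le_rfl), ?_⟩
      unfold outer
      rw [mem_sphere_zero_iff_norm, Complex.norm_real, Real.norm_of_nonneg (U1_rho_nonneg h M)]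
    · unfold outer
      apply isConnected_sphere
      · rw [Complex.rank_real_complex]; norm_num
      · exact U1_rho_nonneg h M
  have hfin := U8_union_meet (Finset.Ico 50 (M - 1)) hCo (fun k => arcA M c k)
    (fun k _ => isConnected_arcA k) (by
      intro k hk
      rw [Finset.mem_Ico] at hk
      by_cases hk2 : k < M - 50
      · refine ⟨((rho c (k + 1) : ℝ) : ℂ), Or.inl (Or.inl (Or.inr ?_)), rho_mem_arcA k⟩
        simp only [mem_iUnion]
        exact ⟨k, ⟨hk.1, hk2⟩, hQ2 k⟩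
      · exact ⟨((rho c (k + 1) : ℝ) : ℂ), Or.inl (Or.inr (hbr _ (by omega) (by omega))),
          rho_mem_arcA k⟩)
  have hset : sig M c G0 Gb = (G0 ∪ (⋃ k ∈ Set.Ico 50 (M - 50), Q k) ∪ Gb) ∪ outer M c ∪
      ⋃ k ∈ Finset.Ico 50 (M - 1), arcA M c k := by
    ext z
    simp only [sig, hQ, mem_union, mem_iUnion, Finset.mem_Ico, Set.mem_Ico, exists_prop]
    constructor
    · rintro ((((hz | hz) | hz) | hz) | ⟨k, hk, hz⟩)
      · exact Or.inl (Or.inl (Or.inl (Or.inl hz)))
      · exact Or.inl (Or.inl (Or.inr hz))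
      · exact Or.inl (Or.inr hz)
      · exact Or.inr hz
      · refine Or.inl (Or.inl (Or.inl (Or.inr ⟨k, hk, Or.inl ?_⟩)))
        tauto
    · rintro ((((hz | ⟨k, hk, hz⟩) | hz) | hz) | hz)
      · exact Or.inl (Or.inl (Or.inl (Or.inl hz)))
      · rcases hz with ((hz | hz) | hz) | hz
        · exact Or.inr ⟨k, hk, Or.inl (Or.inl hz)⟩
        · exact Or.inr ⟨k, hk, Or.inr hz⟩
        · exact Or.inr ⟨k, hk, Or.inl (Or.inr hz)⟩
        · exact Or.inl (Or.inr ⟨k, ⟨hk.1, by omega⟩, hz⟩)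
      · exact Or.inl (Or.inl (Or.inl (Or.inr hz)))
      · exact Or.inl (Or.inl (Or.inr hz))
      · exact Or.inl (Or.inr hz)
  rw [hset]
  exact hfin

end Pool.Agent.W_8c5d11_h22
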