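import Pool.Agent.W_8c5d11_h22.U4
import Pool.Agent.W_8c5d11_h22.U8

/-!
MP_8c5d11_gt, part U, file U9: the length of the construction.
-/

open MeasureTheory Metric Set
open scoped ENNReal NNReal

namespace Pool.Agent.W_8c5d11_h22

variable {M : ℕ} {c : ℝ}

/-- the exponential parametrization is 1-Lipschitz -/
theorem U9_lip : LipschitzWith 1 (fun t : ℝ => Complex.exp (t * Complex.I)) := by
  have hd : ∀ t : ℝ, HasDerivAt (fun t : ℝ => Complex.exp (t * Complex.I))
      (Complex.exp (t * Complex.I) * Complex.I) t := by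
    intro t
    have h1 : HasDerivAt (fun t : ℝ => (t : ℂ) * Complex.I) (1 * Complex.I) t :=
      (Complex.ofRealCLM.hasDerivAt).mul_const _
    have h2 := h1.cexp
    simpa using h2
  apply lipschitzWith_of_nnnorm_deriv_le (fun t => (hd t).differentiableAt)
  intro t
  rw [(hd t).deriv]
  rw [← NNReal.coe_le_coe, coe_nnnorm, norm_mul, Complex.norm_exp_ofReal_mul_I, Complex.norm_I]
  norm_num

theorem U9_image {f : ℝ → ℂ} {K : ℝ} (hK : 0 ≤ K) (hf : LipschitzWith K.toNNReal f) {a b : ℝ} :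
    μH[1] (f '' Icc a b) ≤ ENNReal.ofReal (K * (b - a)) := by
  have h1 := hf.hausdorffMeasure_image_le (d := 1) zero_le_one (Icc a b)
  rw [ENNReal.rpow_one, hausdorffMeasure_real, Real.volume_Icc] at h1
  refine h1.trans ?_
  rw [ENNReal.ofReal_mul hK]
  rfl

theorem U9_sum_rho (c : ℝ) (M : ℕ) :
    ∑ k ∈ Finset.range M, rho c (k + 1) = (M : ℝ) * (M + 1) + c * M := by
  induction M with
  | zero => simp
  | succ n ih =>
    rw [Finset.sum_range_succ, ih]
    unfold rho
    push_cast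
    ring

/-- PROOF: the parametrization is `rho (k+1)`-Lipschitz
(`LipschitzOnWith.hausdorffMeasure_image_le`, `hausdorffMeasure_real`, `Real.volume_Icc`). -/
theorem length_arcA (hc : 0 ≤ c) (k : ℕ) :
    μH[1] (arcA M c k) ≤ ENNReal.ofReal (rho c (k + 1) * (2 * Real.pi - th M c k)) := by
  have hρ : 0 ≤ rho c (k + 1) := by unfold rho; positivity
  unfold arcA
  apply U9_image hρ
  apply LipschitzWith.of_dist_le_mul
  intro s t
  rw [dist_eq_norm, ← mul_sub, norm_mul, Complex.norm_real, Real.norm_of_nonneg hρ,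
    Real.coe_toNNReal _ hρ]
  apply mul_le_mul_of_nonneg_left _ hρ
  have := U9_lip.dist_le_mul s t
  simpa [dist_eq_norm] using this

theorem length_arcB (hc : 0 ≤ c) {k : ℕ} (hk : k ≤ M) :
    μH[1] (arcB M c k) ≤ ENNReal.ofReal (beta M c k * ps M c k) := by
  have hβ : 0 ≤ beta M c k := by
    unfold beta bb rho
    have : (k : ℝ) ≤ M := by exact_mod_cast hk
    linarith
  unfold arcB
  have key : LipschitzWith (beta M c k).toNNReal
      (fun t : ℝ => ((bb M c : ℝ) : ℂ) - ((beta M c k : ℝ) : ℂ) * Complex.exp (-t * Complex.I)) := by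
    apply LipschitzWith.of_dist_le_mul
    intro s t
    rw [dist_eq_norm, Real.coe_toNNReal _ hβ]
    have e : ((bb M c : ℝ) : ℂ) - ((beta M c k : ℝ) : ℂ) * Complex.exp (-s * Complex.I) -
        (((bb M c : ℝ) : ℂ) - ((beta M c k : ℝ) : ℂ) * Complex.exp (-t * Complex.I)) =
        ((beta M c k : ℝ) : ℂ) * (Complex.exp (((-t : ℝ) : ℂ) * Complex.I) -
          Complex.exp (((-s : ℝ) : ℂ) * Complex.I)) := by push_cast; ring
    rw [e, norm_mul, Complex.norm_real, Real.norm_of_nonneg hβ]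
    apply mul_le_mul_of_nonneg_left _ hβ
    have := U9_lip.dist_le_mul (-t) (-s)
    simp only [NNReal.coe_one, one_mul, dist_eq_norm] at this
    refine this.trans (le_of_eq ?_)
    rw [dist_eq_norm]
    congr 1
    ring
  have := U9_image hβ key (a := 0) (b := ps M c k)
  rwa [sub_zero] at this

theorem length_outer (hc : 0 ≤ c) :
    μH[1] (outer M c) ≤ ENNReal.ofReal (2 * Real.pi * rho c M) := by
  have hρ : 0 ≤ rho c M := by unfold rho; positivity
  have key : LipschitzWith (rho c M).toNNReal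
      (fun t : ℝ => ((rho c M : ℝ) : ℂ) * Complex.exp (t * Complex.I)) := by
    apply LipschitzWith.of_dist_le_mul
    intro s t
    rw [dist_eq_norm, ← mul_sub, norm_mul, Complex.norm_real, Real.norm_of_nonneg hρ,
      Real.coe_toNNReal _ hρ]
    apply mul_le_mul_of_nonneg_left _ hρ
    have := U9_lip.dist_le_mul s t
    simpa [dist_eq_norm] using this
  have h1 := U9_image hρ key (a := -Real.pi) (b := Real.pi)
  have hsub : outer M c ⊆ (fun t : ℝ => ((rho c M : ℝ) : ℂ) * Complex.exp (t * Complex.I)) ''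
      Icc (-Real.pi) Real.pi := by
    intro z hz
    unfold outer at hz
    rw [mem_sphere_zero_iff_norm] at hz
    refine ⟨Complex.arg z, ⟨(Complex.neg_pi_lt_arg z).le, Complex.arg_le_pi z⟩, ?_⟩
    simp only
    rw [← hz]
    exact Complex.norm_mul_exp_arg_mul_I z
  refine (measure_mono hsub).trans (h1.trans (le_of_eq ?_))
  congr 1
  ring

/-- The sum of all lengths, as real numbers.  PROOF: `beta k * ps k = rho (M-k) * th (M-k)` (`ps_eq_th`,
`rho_mirror`), and the reflection `k ↦ M - 1 - k` of `Ico 50 (M-50)` (`Finset.sum_Ico_reflect` or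
`Finset.sum_bij`) turns their sum into `∑ rho (k+1) * th (k+1)`.  So the sum is at most
`2 π ∑_{i = 1}^M rho i + ∑ (excess of the kinks) ≤ π (rho M + 1)²/2 + 120` by `sum_kink_excess`; the terms
`- rho (k+1) th k` with `M - 50 ≤ k` are dropped, they are nonpositive;
`2 π ∑_{i = 1}^M (2 i + c) = 2 π (M (M+1) + c M) = π (2M+c+1)²/2 - π (1+c)²/2`. -/
theorem sum_lengths (h : Par M c) :
    2 * Real.pi * rho c M +
      ∑ k ∈ Finset.Ico 50 (M - 1), rho c (k + 1) * (2 * Real.pi - th M c k) +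
      ∑ k ∈ Finset.Ico 50 (M - 50), (beta M c k * ps M c k + ‖pA M c k - vv M c k‖ +
        ‖pB M c k - vv M c k‖) ≤ Real.pi * (rho c M + 1) ^ 2 / 2 + 120 := by
  have hM := h.M102
  have hc0 := h.c0
  have hρ := U1_rho_nonneg h
  have hθ := th_nonneg (M := M) (c := c)
  have hpi := Real.pi_pos
  -- the arcs A
  have hA : ∑ k ∈ Finset.Ico 50 (M - 1), rho c (k + 1) * (2 * Real.pi - th M c k) ≤
      2 * Real.pi * ∑ k ∈ Finset.Ico 50 (M - 1), rho c (k + 1) -
        ∑ k ∈ Finset.Ico 50 (M - 50), rho c (k + 1) * th M c k := by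
    have e1 : ∑ k ∈ Finset.Ico 50 (M - 1), rho c (k + 1) * (2 * Real.pi - th M c k) =
        2 * Real.pi * ∑ k ∈ Finset.Ico 50 (M - 1), rho c (k + 1) -
          ∑ k ∈ Finset.Ico 50 (M - 1), rho c (k + 1) * th M c k := by
      rw [Finset.mul_sum, ← Finset.sum_sub_distrib]
      exact Finset.sum_congr rfl fun k _ => by ring
    have e2 : ∑ k ∈ Finset.Ico 50 (M - 50), rho c (k + 1) * th M c k ≤
        ∑ k ∈ Finset.Ico 50 (M - 1), rho c (k + 1) * th M c k := by
      apply Finset.sum_le_sum_of_subset_of_nonneg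
      · apply Finset.Ico_subset_Ico le_rfl; omega
      · intro k _ _; exact mul_nonneg (hρ _) (hθ _)
    linarith
  -- the arcs B
  have hB : ∑ k ∈ Finset.Ico 50 (M - 50), beta M c k * ps M c k =
      ∑ k ∈ Finset.Ico 50 (M - 50), rho c (k + 1) * th M c (k + 1) := by
    have e1 : ∑ k ∈ Finset.Ico 50 (M - 50), beta M c k * ps M c k =
        ∑ k ∈ Finset.Ico 50 (M - 50), (fun j => rho c j * th M c j) (M - k) := by
      refine Finset.sum_congr rfl fun k hk => ?_
      rw [Finset.mem_Ico] at hk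
      simp only
      rw [rho_mirror (by omega), ps_eq_th h (by omega)]
    have e3 := Finset.sum_Ico_reflect (fun j => rho c j * th M c j) 50 (m := M - 50) (n := M)
      (by omega)
    rw [e1, e3]
    have e2 : ∑ k ∈ Finset.Ico 50 (M - 50), rho c (k + 1) * th M c (k + 1) =
        ∑ k ∈ Finset.Ico (50 + 1) (M - 50 + 1), (fun j => rho c j * th M c j) k := by
      rw [← Finset.sum_Ico_add' (fun j => rho c j * th M c j)]
    rw [e2]
    congr 1
    congr 1 <;> omega
  have hK := sum_kink_excess h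
  have hsplit : ∑ k ∈ Finset.Ico 50 (M - 50), (beta M c k * ps M c k + ‖pA M c k - vv M c k‖ +
      ‖pB M c k - vv M c k‖) = ∑ k ∈ Finset.Ico 50 (M - 50), rho c (k + 1) * th M c (k + 1) +
      ∑ k ∈ Finset.Ico 50 (M - 50), (‖pA M c k - vv M c k‖ + ‖vv M c k - pB M c k‖) := by
    rw [← hB, ← Finset.sum_add_distrib]
    refine Finset.sum_congr rfl fun k _ => ?_
    rw [norm_sub_rev (pB M c k)]
    ring
  have hK2 : ∑ k ∈ Finset.Ico 50 (M - 50), (rho c (k + 1) * (th M c (k + 1) - th M c k) +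
      ‖pA M c k - vv M c k‖ + ‖vv M c k - pB M c k‖) =
      ∑ k ∈ Finset.Ico 50 (M - 50), rho c (k + 1) * th M c (k + 1) -
      ∑ k ∈ Finset.Ico 50 (M - 50), rho c (k + 1) * th M c k +
      ∑ k ∈ Finset.Ico 50 (M - 50), (‖pA M c k - vv M c k‖ + ‖vv M c k - pB M c k‖) := by
    rw [← Finset.sum_sub_distrib, ← Finset.sum_add_distrib]
    exact Finset.sum_congr rfl fun k _ => by ring
  rw [hK2] at hK
  have hsum : rho c M + ∑ k ∈ Finset.Ico 50 (M - 1), rho c (k + 1) ≤
      (M : ℝ) * (M + 1) + c * M := by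
    rw [← U9_sum_rho]
    have e : Finset.range M = Finset.range (M - 1 + 1) := by congr 1; omega
    rw [e, Finset.sum_range_succ]
    have e2 : M - 1 + 1 = M := by omega
    rw [e2, add_comm]
    have : ∑ k ∈ Finset.Ico 50 (M - 1), rho c (k + 1) ≤ ∑ k ∈ Finset.range (M - 1), rho c (k + 1) := by
      apply Finset.sum_le_sum_of_subset_of_nonneg
      · intro x hx
        rw [Finset.mem_Ico] at hx
        exact Finset.mem_range.2 hx.2
      · intro k _ _; exact hρ _
    linarith
  rw [hsplit]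
  have hfin : 2 * Real.pi * ((M : ℝ) * (M + 1) + c * M) ≤ Real.pi * (rho c M + 1) ^ 2 / 2 := by
    unfold rho
    nlinarith [mul_nonneg hpi.le (sq_nonneg (1 + c))]
  have h5 : 2 * Real.pi * (rho c M + ∑ k ∈ Finset.Ico 50 (M - 1), rho c (k + 1)) ≤
      2 * Real.pi * ((M : ℝ) * (M + 1) + c * M) :=
    mul_le_mul_of_nonneg_left hsum (by positivity)
  linarith

/-- PROOF: subadditivity (`measure_union_le`, `measure_biUnion_finset_le`), the three lemmas above,
`hausdorffMeasure_segment`, `ENNReal.ofReal_add`, `ENNReal.ofReal_sum_of_nonneg`, `sum_lengths`. -/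
theorem length_sig (h : Par M c) (G0 Gb : Set ℂ) :
    μH[1] (sig M c G0 Gb) ≤ μH[1] G0 + μH[1] Gb +
      ENNReal.ofReal (Real.pi * (rho c M + 1) ^ 2 / 2 + 120) := by
  have hM := h.M102
  have hc0 := h.c0
  have hρ := U1_rho_nonneg h
  have hpi := Real.pi_pos
  have hAn : ∀ k, 0 ≤ rho c (k + 1) * (2 * Real.pi - th M c k) := by
    intro k
    have := th_le_pi (M := M) (c := c) k
    exact mul_nonneg (hρ _) (by linarith)
  have hBn : ∀ k ∈ Finset.Ico 50 (M - 50), 0 ≤ beta M c k * ps M c k + ‖pA M c k - vv M c k‖ +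
        ‖pB M c k - vv M c k‖ := by
    intro k hk
    rw [Finset.mem_Ico] at hk
    have h1 : 0 ≤ beta M c k * ps M c k :=
      mul_nonneg (U1_beta_nonneg h (by omega)) (Real.arccos_nonneg _)
    positivity
  have hseg : ∀ x y : ℂ, μH[1] (segment ℝ x y) = ENNReal.ofReal ‖x - y‖ := by
    intro x y
    rw [hausdorffMeasure_segment, edist_dist, dist_eq_norm]
  have h1 : μH[1] (⋃ k ∈ Finset.Ico 50 (M - 1), arcA M c k) ≤
      ENNReal.ofReal (∑ k ∈ Finset.Ico 50 (M - 1), rho c (k + 1) * (2 * Real.pi - th M c k)) := by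
    refine (measure_biUnion_finset_le _ _).trans ?_
    rw [ENNReal.ofReal_sum_of_nonneg fun k _ => hAn k]
    exact Finset.sum_le_sum fun k _ => length_arcA hc0 k
  have h2 : μH[1] (⋃ k ∈ Finset.Ico 50 (M - 50), (arcB M c k ∪ segment ℝ (pA M c k) (vv M c k) ∪
      segment ℝ (pB M c k) (vv M c k))) ≤
      ENNReal.ofReal (∑ k ∈ Finset.Ico 50 (M - 50), (beta M c k * ps M c k +
        ‖pA M c k - vv M c k‖ + ‖pB M c k - vv M c k‖)) := by
    refine (measure_biUnion_finset_le _ _).trans ?_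
    rw [ENNReal.ofReal_sum_of_nonneg hBn]
    refine Finset.sum_le_sum fun k hk => ?_
    rw [Finset.mem_Ico] at hk
    have h3 : 0 ≤ beta M c k * ps M c k :=
      mul_nonneg (U1_beta_nonneg h (by omega)) (Real.arccos_nonneg _)
    refine (measure_union_le _ _).trans ?_
    rw [ENNReal.ofReal_add (by positivity) (norm_nonneg _),
      ENNReal.ofReal_add h3 (norm_nonneg _)]
    refine add_le_add ((measure_union_le _ _).trans (add_le_add ?_ ?_)) ?_
    · exact length_arcB hc0 (by omega)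
    · rw [hseg]
    · rw [hseg]
  have h3 := length_outer (M := M) hc0
  have hs := sum_lengths h
  have hS1 : 0 ≤ ∑ k ∈ Finset.Ico 50 (M - 1), rho c (k + 1) * (2 * Real.pi - th M c k) :=
    Finset.sum_nonneg fun k _ => hAn k
  have hS2 : 0 ≤ ∑ k ∈ Finset.Ico 50 (M - 50), (beta M c k * ps M c k +
        ‖pA M c k - vv M c k‖ + ‖pB M c k - vv M c k‖) := Finset.sum_nonneg hBn
  have hS0 : 0 ≤ 2 * Real.pi * rho c M := mul_nonneg (by positivity) (hρ M)
  have h4 : ENNReal.ofReal (2 * Real.pi * rho c M) +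
      ENNReal.ofReal (∑ k ∈ Finset.Ico 50 (M - 1), rho c (k + 1) * (2 * Real.pi - th M c k)) +
      ENNReal.ofReal (∑ k ∈ Finset.Ico 50 (M - 50), (beta M c k * ps M c k +
        ‖pA M c k - vv M c k‖ + ‖pB M c k - vv M c k‖)) ≤
      ENNReal.ofReal (Real.pi * (rho c M + 1) ^ 2 / 2 + 120) := by
    rw [← ENNReal.ofReal_add hS0 hS1, ← ENNReal.ofReal_add (by positivity) hS2]
    exact ENNReal.ofReal_le_ofReal hs
  unfold sig
  calc _ ≤ ((μH[1] G0 + μH[1] Gb + μH[1] (outer M c)) +
        μH[1] (⋃ k ∈ Finset.Ico 50 (M - 1), arcA M c k)) +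
        μH[1] (⋃ k ∈ Finset.Ico 50 (M - 50), (arcB M c k ∪ segment ℝ (pA M c k) (vv M c k) ∪
      segment ℝ (pB M c k) (vv M c k))) := by
        refine (measure_union_le _ _).trans (add_le_add_left ?_ _)
        refine (measure_union_le _ _).trans (add_le_add_left ?_ _)
        refine (measure_union_le _ _).trans (add_le_add_left ?_ _)
        exact measure_union_le _ _
    _ ≤ ((μH[1] G0 + μH[1] Gb + ENNReal.ofReal (2 * Real.pi * rho c M)) +
        ENNReal.ofReal (∑ k ∈ Finset.Ico 50 (M - 1), rho c (k + 1) * (2 * Real.pi - th M c k))) +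
        ENNReal.ofReal (∑ k ∈ Finset.Ico 50 (M - 50), (beta M c k * ps M c k +
        ‖pA M c k - vv M c k‖ + ‖pB M c k - vv M c k‖)) := by gcongr
    _ = μH[1] G0 + μH[1] Gb + (ENNReal.ofReal (2 * Real.pi * rho c M) +
        ENNReal.ofReal (∑ k ∈ Finset.Ico 50 (M - 1), rho c (k + 1) * (2 * Real.pi - th M c k)) +
        ENNReal.ofReal (∑ k ∈ Finset.Ico 50 (M - 50), (beta M c k * ps M c k +
        ‖pA M c k - vv M c k‖ + ‖pB M c k - vv M c k‖))) := by ring
    _ ≤ _ := by gcongr

end Pool.Agent.W_8c5d11_h22
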