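import Pool.Agent.W_8c5d11_h22.U7b
import Pool.Agent.W_8c5d11_h22.U9
import Pool.Agent.W_8c5d11_h22.U10

/-!
MP_8c5d11_gt, part U, file U11: the upper bound.
-/

open MeasureTheory Metric Set
open scoped ENNReal NNReal

namespace Pool.Agent.W_8c5d11_h22

/-- PROOF: `S = sig M c G0 Gb` with `G0` the grid of `exists_grid` with `z0 = 0`, `L = 103` and `Gb` the
grid with `z0 = b`, `L = 400`; `rho 50 = 100 + c` is in `G0`, and `rho k = b - beta k`,
`0 ≤ beta k ≤ 100 + c` for `M - 50 ≤ k ≤ M`.  Covering: `cover`. -/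
theorem upper_par {M : ℕ} {c : ℝ} (h : Par M c) :
    ∃ S : Set ℂ, IsCompact S ∧ IsConnected S ∧
      (∀ y : ℂ, ‖y‖ ≤ rho c M + 1 → ∃ z ∈ S, dist y z ≤ 1) ∧
      μH[1] S ≤ ENNReal.ofReal (Real.pi * (rho c M + 1) ^ 2 / 2 + 1000000) := by
  have hM := h.M102
  have hc0 := h.c0
  have hc2 := h.c2
  obtain ⟨G0, h0c, h0n, h0cov, h0mem, h0len⟩ := exists_grid 0 103
  obtain ⟨Gb, hbc, hbn, hbcov, hbmem, hblen⟩ := exists_grid (bb M c : ℂ) 400
  refine ⟨sig M c G0 Gb, isCompact_sig h0c hbc, isConnected_sig h h0n hbn ?_ ?_, ?_, ?_⟩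
  · have := h0mem (rho c 50) (by
      unfold rho
      rw [abs_le]
      push_cast
      constructor <;> linarith)
    rwa [zero_add] at this
  · intro k hk hkM
    have hkr : (M : ℝ) - 50 ≤ k := by
      have : M ≤ k + 50 := by omega
      have : (M : ℝ) ≤ k + 50 := by exact_mod_cast this
      linarith
    have hkMr : (k : ℝ) ≤ M := by exact_mod_cast hkM
    have := hbmem (-(beta M c k)) (by
      rw [abs_neg, abs_le]
      unfold beta bb rho
      push_cast
      constructor <;> linarith)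
    have e : (bb M c : ℂ) + ((-(beta M c k) : ℝ) : ℂ) = ((rho c k : ℝ) : ℂ) := by
      unfold beta
      push_cast
      ring
    rwa [e] at this
  · intro y hy
    rcases cover h hy with h1 | h1 | ⟨z, hz, hd⟩ | ⟨k, hk, z, hz, hd⟩ | ⟨k, hk, z, hz, hd⟩
    · obtain ⟨z, hz, hd⟩ := h0cov y (by rw [sub_zero]; exact_mod_cast h1)
      exact ⟨z, Or.inl (Or.inl (Or.inl (Or.inl hz))), hd⟩
    · obtain ⟨z, hz, hd⟩ := hbcov y (by exact_mod_cast h1)
      exact ⟨z, Or.inl (Or.inl (Or.inl (Or.inr hz))), hd⟩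
    · exact ⟨z, Or.inl (Or.inl (Or.inr hz)), hd⟩
    · refine ⟨z, Or.inl (Or.inr ?_), hd⟩
      simp only [mem_iUnion]
      exact ⟨k, hk, hz⟩
    · refine ⟨z, Or.inr ?_, hd⟩
      simp only [mem_iUnion]
      exact ⟨k, hk, hz⟩
  · refine (length_sig h G0 Gb).trans ?_
    calc μH[1] G0 + μH[1] Gb + ENNReal.ofReal (Real.pi * (rho c M + 1) ^ 2 / 2 + 120) ≤
        ENNReal.ofReal (4 * ((103 : ℕ) : ℝ) ^ 2 + 4 * ((103 : ℕ) : ℝ)) +
        ENNReal.ofReal (4 * ((400 : ℕ) : ℝ) ^ 2 + 4 * ((400 : ℕ) : ℝ)) +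
        ENNReal.ofReal (Real.pi * (rho c M + 1) ^ 2 / 2 + 120) := by gcongr
      _ ≤ _ := by
        have hpi := Real.pi_pos
        rw [← ENNReal.ofReal_add (by positivity) (by positivity),
          ← ENNReal.ofReal_add (by positivity) (by positivity)]
        apply ENNReal.ofReal_le_ofReal
        push_cast
        linarith

/-- PROOF: if `R < 300` take the grid with `z0 = 0`, `L = 300`: length `4 * 300² + 4 * 300 < 1000000`.
Otherwise `M = ⌊(R-1)/2⌋₊ ≥ 102` and `c = R - 1 - 2 M` in `[0, 2)`, so `rho c M + 1 = R`. -/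
theorem upper_one {R : ℝ} (hR : 0 ≤ R) :
    ∃ S : Set ℂ, IsCompact S ∧ IsConnected S ∧ (∀ y : ℂ, ‖y‖ ≤ R → ∃ z ∈ S, dist y z ≤ 1) ∧
      μH[1] S ≤ ENNReal.ofReal (Real.pi * R ^ 2 / 2 + 1000000) := by
  by_cases hR3 : R < 300
  · obtain ⟨G0, h0c, h0n, h0cov, h0mem, h0len⟩ := exists_grid 0 300
    refine ⟨G0, h0c, h0n, ?_, ?_⟩
    · intro y hy
      apply h0cov y
      rw [sub_zero]
      push_cast
      linarith
    · refine h0len.trans (ENNReal.ofReal_le_ofReal ?_)
      have : 0 ≤ Real.pi * R ^ 2 / 2 := by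
        have := Real.pi_pos
        positivity
      push_cast
      linarith
  · rw [not_lt] at hR3
    obtain ⟨M, hM⟩ : ∃ M, M = ⌊(R - 1) / 2⌋₊ := ⟨_, rfl⟩
    obtain ⟨c, hc⟩ : ∃ c : ℝ, c = R - 1 - 2 * M := ⟨_, rfl⟩
    have hnn : 0 ≤ (R - 1) / 2 := by linarith
    have h1 := Nat.floor_le hnn
    have h2 := Nat.lt_floor_add_one ((R - 1) / 2)
    rw [← hM] at h1 h2
    have hpar : Par M c := by
      refine ⟨by linarith, by linarith, ?_⟩
      rw [hM]
      apply Nat.le_floor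
      push_cast
      linarith
    have hrho : rho c M + 1 = R := by unfold rho; linarith
    have := upper_par hpar
    rwa [hrho] at this

/-- Scaling.  PROOF: `r • S'` (or the image of `S'` under `z ↦ r z`) with `S'` from `upper_one` for
`R / r`; `Measure.hausdorffMeasure_smul₀` or the Lipschitz bound of the image. -/
theorem upper {r R : ℝ} (hr : 0 < r) (hR : 0 ≤ R) :
    ∃ S : Set ℂ, IsCompact S ∧ IsConnected S ∧ (∀ y : ℂ, ‖y‖ ≤ R → ∃ z ∈ S, dist y z ≤ r) ∧
      μH[1] S ≤ ENNReal.ofReal (Real.pi * R ^ 2 / (2 * r) + 1000000 * r) := by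
  obtain ⟨S, hc, hn, hcov, hlen⟩ := upper_one (R := R / r) (div_nonneg hR hr.le)
  have hrc : (r : ℂ) ≠ 0 := by exact_mod_cast hr.ne'
  have hcont : Continuous fun z : ℂ => (r : ℂ) * z := by fun_prop
  refine ⟨(fun z : ℂ => (r : ℂ) * z) '' S, hc.image hcont, hn.image _ hcont.continuousOn, ?_, ?_⟩
  · intro y hy
    obtain ⟨z, hz, hd⟩ := hcov (y / r) (by
      rw [norm_div, Complex.norm_real, Real.norm_of_nonneg hr.le]
      exact div_le_div_of_nonneg_right hy hr.le)
    refine ⟨(r : ℂ) * z, ⟨z, hz, rfl⟩, ?_⟩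
    have e : y - (r : ℂ) * z = (r : ℂ) * (y / r - z) := by
      field_simp
    rw [dist_eq_norm, e, norm_mul, Complex.norm_real, Real.norm_of_nonneg hr.le]
    rw [dist_eq_norm] at hd
    calc r * ‖y / r - z‖ ≤ r * 1 := mul_le_mul_of_nonneg_left hd hr.le
      _ = r := mul_one r
  · have hlip : LipschitzWith r.toNNReal (fun z : ℂ => (r : ℂ) * z) := by
      apply LipschitzWith.of_dist_le_mul
      intro s t
      rw [dist_eq_norm, ← mul_sub, norm_mul, Complex.norm_real, Real.norm_of_nonneg hr.le,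
        Real.coe_toNNReal _ hr.le, dist_eq_norm]
    have h1 := hlip.hausdorffMeasure_image_le (d := 1) zero_le_one S
    rw [ENNReal.rpow_one] at h1
    refine h1.trans ?_
    calc (r.toNNReal : ℝ≥0∞) * μH[1] S ≤
        ENNReal.ofReal r * ENNReal.ofReal (Real.pi * (R / r) ^ 2 / 2 + 1000000) :=
          mul_le_mul' le_rfl hlen
      _ = ENNReal.ofReal (Real.pi * R ^ 2 / (2 * r) + 1000000 * r) := by
          rw [← ENNReal.ofReal_mul hr.le]
          congr 1
          field_simp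

end Pool.Agent.W_8c5d11_h22
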