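import Pool.Agent.W_8c5d11_h22.L9b
import Pool.Agent.W_8c5d11_h22.L10b
import Pool.Agent.W_8c5d11_h22.U11

/-!
MP_8c5d11_gt, part F, file F1: transfer from the complex plane to `EuclideanSpace ℝ (Fin 2)` by a linear
isometry equivalence.
-/

open MeasureTheory Metric Set
open scoped ENNReal NNReal

namespace Pool.Agent.W_8c5d11_h22

/-- The Euclidean plane. -/
abbrev Plane : Type := EuclideanSpace ℝ (Fin 2)

/-- the identification of the complex plane with the Euclidean plane -/
noncomputable def eP : ℂ ≃ₗᵢ[ℝ] Plane := Complex.orthonormalBasisOneI.repr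

theorem F1_vol (A : Set Plane) : volume (eP ⁻¹' A) = volume A :=
  eP.measurePreserving.measure_preimage_emb eP.toHomeomorph.measurableEmbedding A

theorem F1_len (A : Set Plane) : μH[1] (eP ⁻¹' A) = μH[1] A :=
  eP.toIsometryEquiv.hausdorffMeasure_preimage 1 A

theorem F1_ball (x : ℂ) (ρ : ℝ) : eP ⁻¹' (closedBall (eP x) ρ) = closedBall x ρ := by
  ext y
  rw [mem_preimage, mem_closedBall, mem_closedBall, eP.dist_map]

theorem F1_thick (S : Set Plane) (ρ : ℝ) :
    eP ⁻¹' (cthickening ρ S) = cthickening ρ (eP ⁻¹' S) := by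
  ext x
  rw [mem_preimage, mem_cthickening_iff, mem_cthickening_iff]
  have h1 : S = eP '' (eP ⁻¹' S) := (image_preimage_eq S eP.surjective).symm
  conv_lhs => rw [h1]
  rw [infEDist_image eP.isometry]

theorem F1_compact {S : Set Plane} (h : IsCompact S) : IsCompact (eP ⁻¹' S) :=
  eP.toHomeomorph.isCompact_preimage.2 h

theorem F1_preconn {S : Set Plane} : IsPreconnected (eP ⁻¹' S) ↔ IsPreconnected S :=
  eP.toHomeomorph.isPreconnected_preimage

theorem F1_conn {S : Set Plane} : IsConnected (eP ⁻¹' S) ↔ IsConnected S :=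
  eP.toHomeomorph.isConnected_preimage

theorem tube_conn_plane {S : Set Plane} (hc : IsCompact S) (hS : IsConnected S) {ρ : ℝ} (hρ : 0 < ρ) :
    volume (cthickening ρ S) + volume {x : Plane | ¬ IsPreconnected (S ∩ closedBall x ρ)} ≤
      ENNReal.ofReal (2 * ρ) * μH[1] S + ENNReal.ofReal (Real.pi * ρ ^ 2) := by
  have key := tube_conn (F1_compact hc) (F1_conn.2 hS) hρ
  rw [← F1_thick, F1_vol, F1_len] at key
  have e : {x : ℂ | ¬ IsPreconnected (eP ⁻¹' S ∩ closedBall x ρ)} =
      eP ⁻¹' {x : Plane | ¬ IsPreconnected (S ∩ closedBall x ρ)} := by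
    ext x
    simp only [mem_setOf_eq, mem_preimage]
    rw [← F1_ball, ← preimage_inter, F1_preconn]
  rw [e, F1_vol] at key
  exact key

theorem tube_local_plane {S : Set Plane} (hc : IsCompact S) (hS : IsConnected S)
    (hfin : μH[1] S ≠ ⊤) {D : Set Plane} (hD : MeasurableSet D) {ρ : ℝ} (hρ : 0 < ρ) :
    volume {x : Plane | x ∈ cthickening ρ S ∧ closedBall x ρ ⊆ D} ≤
      ENNReal.ofReal (2 * ρ) * μH[1] (S ∩ D) + ENNReal.ofReal (Real.pi * ρ ^ 2) := by
  have key := tube_local (F1_compact hc) (F1_conn.2 hS) (by rwa [F1_len]) (D := eP ⁻¹' D)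
    (eP.continuous.measurable hD) hρ
  rw [← preimage_inter, F1_len] at key
  have e : {x : ℂ | x ∈ cthickening ρ (eP ⁻¹' S) ∧ closedBall x ρ ⊆ eP ⁻¹' D} =
      eP ⁻¹' {x : Plane | x ∈ cthickening ρ S ∧ closedBall x ρ ⊆ D} := by
    ext x
    simp only [mem_setOf_eq, mem_preimage]
    rw [← F1_thick, mem_preimage, ← F1_ball]
    refine and_congr Iff.rfl ?_
    rw [preimage_subset_preimage_iff]
    rw [eP.surjective.range_eq]
    exact subset_univ _
  rw [e, F1_vol] at key
  exact key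

theorem upper_plane {r R : ℝ} (hr : 0 < r) (hR : 0 ≤ R) :
    ∃ S : Set Plane, IsCompact S ∧ IsConnected S ∧ closedBall (0 : Plane) R ⊆ cthickening r S ∧
      μH[1] S ≤ ENNReal.ofReal (Real.pi * R ^ 2 / (2 * r) + 1000000 * r) := by
  obtain ⟨S, hc, hn, hcov, hlen⟩ := upper hr hR
  have hpre : eP ⁻¹' (eP '' S) = S := preimage_image_eq S eP.injective
  refine ⟨eP '' S, hc.image eP.continuous, hn.image _ eP.continuous.continuousOn, ?_, ?_⟩
  · intro y hy
    obtain ⟨z, hz, hd⟩ := hcov (eP.symm y) (by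
      rw [LinearIsometryEquiv.norm_map]
      rwa [mem_closedBall_zero_iff] at hy)
    refine mem_cthickening_of_dist_le y (eP z) r _ ⟨z, hz, rfl⟩ ?_
    rw [← eP.dist_map, LinearIsometryEquiv.apply_symm_apply] at hd
    exact hd
  · rw [← F1_len, hpre]
    exact hlen

theorem volume_disc (x : Plane) {s : ℝ} (hs : 0 ≤ s) :
    volume (closedBall x s) = ENNReal.ofReal (Real.pi * s ^ 2) := by
  rw [EuclideanSpace.volume_closedBall_fin_two, ← ENNReal.ofReal_pow hs]
  rw [ENNReal.ofReal_mul Real.pi_pos.le, mul_comm]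

end Pool.Agent.W_8c5d11_h22
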