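import Pool.Agent.W_8c5d11_h22.F1

/-!
MP_8c5d11_gt, part F, file F2: consequences for admissible sets of the disc.
-/

open MeasureTheory Metric Set
open scoped ENNReal NNReal

namespace Pool.Agent.W_8c5d11_h22

/-- `S` is an admissible set for the disc of radius `R` and the distance `r`: compact, connected, and every
point of the closed disc is at distance at most `r` from `S`. -/
def Admissible (R r : ℝ) (S : Set Plane) : Prop :=
  IsCompact S ∧ IsConnected S ∧ ∀ x ∈ closedBall (0 : Plane) R, infDist x S ≤ r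

theorem Admissible.subset {R r : ℝ} {S : Set Plane} (h : Admissible R r S) :
    closedBall (0 : Plane) R ⊆ cthickening r S := by
  intro x hx
  obtain ⟨z, hz, hd⟩ := h.1.exists_infDist_eq_dist h.2.1.nonempty x
  exact mem_cthickening_of_dist_le x z r S hz (by rw [← hd]; exact h.2.2 x hx)

/-- PROOF: `tube_conn_plane` (drop the second term), `volume_disc`. -/
theorem Admissible.lower {R r : ℝ} (hr : 0 < r) (hR : 0 ≤ R) {S : Set Plane}
    (h : Admissible R r S) :
    ENNReal.ofReal (Real.pi * (R ^ 2 - r ^ 2) / (2 * r)) ≤ μH[1] S := by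
  by_cases hm : μH[1] S = ⊤
  · rw [hm]; exact le_top
  have hpi := Real.pi_pos
  have h1 := tube_conn_plane h.1 h.2.1 hr
  have h2 : ENNReal.ofReal (Real.pi * R ^ 2) ≤ volume (cthickening r S) := by
    rw [← volume_disc 0 hR]; exact measure_mono h.subset
  obtain ⟨t, ht⟩ : ∃ t, t = (μH[1] S).toReal := ⟨_, rfl⟩
  have ht0 : 0 ≤ t := by rw [ht]; exact ENNReal.toReal_nonneg
  have hmt : μH[1] S = ENNReal.ofReal t := by rw [ht, ENNReal.ofReal_toReal hm]
  rw [hmt, ← ENNReal.ofReal_mul (by positivity), ← ENNReal.ofReal_add (by positivity)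
    (by positivity)] at h1
  have h3 : ENNReal.ofReal (Real.pi * R ^ 2) ≤ ENNReal.ofReal (2 * r * t + Real.pi * r ^ 2) :=
    h2.trans (le_self_add.trans h1)
  rw [ENNReal.ofReal_le_ofReal_iff (by positivity)] at h3
  rw [hmt]
  apply ENNReal.ofReal_le_ofReal
  rw [div_le_iff₀ (by positivity)]
  linarith

/-- PROOF: `volume (closedBall 0 R) + volume (bad) ≤ 2 r μH[1] S + π r² ≤ π R² + 2 A r² + π r²`; for `x` in
the disc `S ∩ closedBall x r` is nonempty (`infDist` is attained), so not connected means not
preconnected. -/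
theorem Admissible.conn {R r A : ℝ} (hr : 0 < r) (hR : 0 ≤ R) (hA : 0 ≤ A) {S : Set Plane}
    (h : Admissible R r S)
    (hl : μH[1] S ≤ ENNReal.ofReal (Real.pi * R ^ 2 / (2 * r) + A * r)) :
    volume {x : Plane | x ∈ closedBall (0 : Plane) R ∧ ¬ IsConnected (S ∩ closedBall x r)} ≤
      ENNReal.ofReal ((2 * A + Real.pi) * r ^ 2) := by
  have hpi := Real.pi_pos
  have h1 := tube_conn_plane h.1 h.2.1 hr
  have h2 : ENNReal.ofReal (Real.pi * R ^ 2) ≤ volume (cthickening r S) := by
    rw [← volume_disc 0 hR]; exact measure_mono h.subset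
  have hsub : {x : Plane | x ∈ closedBall (0 : Plane) R ∧ ¬ IsConnected (S ∩ closedBall x r)} ⊆
      {x : Plane | ¬ IsPreconnected (S ∩ closedBall x r)} := by
    rintro x ⟨hx, hn⟩ hp
    apply hn
    obtain ⟨z, hz, hd⟩ := h.1.exists_infDist_eq_dist h.2.1.nonempty x
    refine ⟨⟨z, hz, ?_⟩, hp⟩
    rw [mem_closedBall, dist_comm, ← hd]
    exact h.2.2 x hx
  refine (measure_mono hsub).trans ?_
  have h3 : ENNReal.ofReal (Real.pi * R ^ 2) +
      volume {x : Plane | ¬ IsPreconnected (S ∩ closedBall x r)} ≤
      ENNReal.ofReal (Real.pi * R ^ 2) + ENNReal.ofReal ((2 * A + Real.pi) * r ^ 2) := by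
    calc _ ≤ volume (cthickening r S) +
          volume {x : Plane | ¬ IsPreconnected (S ∩ closedBall x r)} := by gcongr
      _ ≤ ENNReal.ofReal (2 * r) * μH[1] S + ENNReal.ofReal (Real.pi * r ^ 2) := h1
      _ ≤ ENNReal.ofReal (2 * r) * ENNReal.ofReal (Real.pi * R ^ 2 / (2 * r) + A * r) +
          ENNReal.ofReal (Real.pi * r ^ 2) := by gcongr
      _ = ENNReal.ofReal (Real.pi * R ^ 2) + ENNReal.ofReal ((2 * A + Real.pi) * r ^ 2) := by
          rw [← ENNReal.ofReal_mul (by positivity), ← ENNReal.ofReal_add (by positivity)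
            (by positivity), ← ENNReal.ofReal_add (by positivity) (by positivity)]
          congr 1
          field_simp
          ring
  exact (ENNReal.add_le_add_iff_left ENNReal.ofReal_ne_top).1 h3

/-- PROOF: a closed disc `closedBall x r` (connected) with centre in `D` which does not meet `frontier D`
is contained in `D`; and `x ∉ cthickening r (frontier D)` implies `closedBall x r ∩ frontier D = ∅`. -/
theorem closedBall_subset_of_not_mem {D : Set Plane} {x : Plane} {r : ℝ} (hr : 0 ≤ r) (hx : x ∈ D)
    (hx' : x ∉ cthickening r (frontier D)) : closedBall x r ⊆ D := by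
  have hdis : ∀ z ∈ closedBall x r, z ∉ frontier D := by
    intro z hz hzf
    apply hx'
    apply mem_cthickening_of_dist_le x z r _ hzf
    rw [mem_closedBall, dist_comm] at hz
    exact hz
  have hsub : closedBall x r ⊆ interior D ∪ (closure D)ᶜ := by
    intro z hz
    by_cases hzc : z ∈ closure D
    · left
      by_contra hzi
      exact hdis z hz ⟨hzc, hzi⟩
    · right; exact hzc
  have hxi : x ∈ interior D := by
    by_contra hxi
    exact hdis x (mem_closedBall_self hr) ⟨subset_closure hx, hxi⟩
  have hpre : IsPreconnected (closedBall x r) := (convex_closedBall x r).isPreconnected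
  have := hpre.subset_left_of_subset_union isOpen_interior isClosed_closure.isOpen_compl ?_ hsub
    ⟨x, mem_closedBall_self hr, hxi⟩
  · exact this.trans interior_subset
  · rw [disjoint_compl_right_iff_subset]
    exact interior_subset.trans subset_closure

/-- Equidistribution.  PROOF: `tube_local_plane` for `D` and for its complement.
(1) `D \ cthickening r (frontier D)` is contained in `{x ∈ cthickening r S | closedBall x r ⊆ D}` as
`D ⊆ closedBall 0 R`; so `vol D ≤ vol N + 2 r μH[1] (S ∩ D) + π r²`, `N = cthickening r (frontier D)`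
(if `vol N = ⊤` or `toReal` problems: `D` is bounded, so `frontier D` is compact and `N` has finite volume).
(2) `closedBall 0 R \ D \ N` is contained in `{x ∈ cthickening r S | closedBall x r ⊆ Dᶜ}`
(`frontier_compl`), so `π R² - vol D - vol N ≤ 2 r μH[1] (S \ D) + π r²`, and
`μH[1] (S ∩ D) + μH[1] (S \ D) = μH[1] S ≤ π R²/(2r) + A r`. -/
theorem Admissible.equi {R r A : ℝ} (hr : 0 < r) (hR : 0 ≤ R) (hA : 0 ≤ A) {S : Set Plane}
    (h : Admissible R r S)
    (hl : μH[1] S ≤ ENNReal.ofReal (Real.pi * R ^ 2 / (2 * r) + A * r))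
    {D : Set Plane} (hD : MeasurableSet D) (hDR : D ⊆ closedBall (0 : Plane) R) :
    |2 * r * (μH[1] (S ∩ D)).toReal - (volume D).toReal| ≤
      (volume (cthickening r (frontier D))).toReal + (2 * A + Real.pi) * r ^ 2 := by
  have hpi := Real.pi_pos
  have hfin : μH[1] S ≠ ⊤ := (hl.trans_lt ENNReal.ofReal_lt_top).ne
  have hfD : μH[1] (S ∩ D) ≠ ⊤ := ((measure_mono inter_subset_left).trans_lt hfin.lt_top).ne
  have hfDc : μH[1] (S ∩ Dᶜ) ≠ ⊤ := ((measure_mono inter_subset_left).trans_lt hfin.lt_top).ne
  have hvD : volume D ≠ ⊤ :=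
    ((measure_mono hDR).trans_lt (isBounded_closedBall.measure_lt_top)).ne
  have hfb : Bornology.IsBounded (frontier D) :=
    (isBounded_closedBall.subset hDR).closure.subset frontier_subset_closure
  have hvN : volume (cthickening r (frontier D)) ≠ ⊤ := hfb.cthickening.measure_lt_top.ne
  obtain ⟨hS, hSd⟩ : ∃ t, t = (μH[1] S).toReal := ⟨_, rfl⟩
  obtain ⟨hIn, hInd⟩ : ∃ t, t = (μH[1] (S ∩ D)).toReal := ⟨_, rfl⟩
  obtain ⟨hOut, hOutd⟩ : ∃ t, t = (μH[1] (S ∩ Dᶜ)).toReal := ⟨_, rfl⟩
  obtain ⟨d, hd⟩ : ∃ t, t = (volume D).toReal := ⟨_, rfl⟩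
  obtain ⟨n, hn⟩ : ∃ t, t = (volume (cthickening r (frontier D))).toReal := ⟨_, rfl⟩
  have hIn0 : 0 ≤ hIn := by rw [hInd]; exact ENNReal.toReal_nonneg
  have hOut0 : 0 ≤ hOut := by rw [hOutd]; exact ENNReal.toReal_nonneg
  have hd0 : 0 ≤ d := by rw [hd]; exact ENNReal.toReal_nonneg
  have hn0 : 0 ≤ n := by rw [hn]; exact ENNReal.toReal_nonneg
  have hadd : hIn + hOut = hS := by
    rw [hInd, hOutd, hSd, ← ENNReal.toReal_add hfD hfDc]
    congr 1
    rw [← diff_eq, measure_inter_add_diff S hD]
  have hSL : hS ≤ Real.pi * R ^ 2 / (2 * r) + A * r := by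
    rw [hSd]
    exact ENNReal.toReal_le_of_le_ofReal (by positivity) hl
  -- (1)
  have h1 := tube_local_plane h.1 h.2.1 hfin hD hr
  have c1 : D ⊆ cthickening r (frontier D) ∪
      {x : Plane | x ∈ cthickening r S ∧ closedBall x r ⊆ D} := by
    intro x hx
    by_cases hxN : x ∈ cthickening r (frontier D)
    · exact Or.inl hxN
    · exact Or.inr ⟨h.subset (hDR hx), closedBall_subset_of_not_mem hr.le hx hxN⟩
  have e1 : volume D ≤ ENNReal.ofReal (n + (2 * r * hIn + Real.pi * r ^ 2)) := by
    calc volume D ≤ volume (cthickening r (frontier D)) +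
          volume {x : Plane | x ∈ cthickening r S ∧ closedBall x r ⊆ D} :=
          (measure_mono c1).trans (measure_union_le _ _)
      _ ≤ volume (cthickening r (frontier D)) +
          (ENNReal.ofReal (2 * r) * μH[1] (S ∩ D) + ENNReal.ofReal (Real.pi * r ^ 2)) := by
          gcongr
      _ = _ := by
          rw [ENNReal.ofReal_add hn0 (by positivity), ENNReal.ofReal_add (by positivity)
            (by positivity), ENNReal.ofReal_mul (p := 2 * r) (q := hIn) (by positivity), hn, hInd,
            ENNReal.ofReal_toReal hvN, ENNReal.ofReal_toReal hfD]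
  have f1 : d ≤ n + (2 * r * hIn + Real.pi * r ^ 2) := by
    rw [hd]; exact ENNReal.toReal_le_of_le_ofReal (by positivity) e1
  -- (2)
  have h2 := tube_local_plane h.1 h.2.1 hfin hD.compl hr
  have c2 : closedBall (0 : Plane) R ⊆ (D ∪ cthickening r (frontier D)) ∪
      {x : Plane | x ∈ cthickening r S ∧ closedBall x r ⊆ Dᶜ} := by
    intro x hx
    by_cases hxD : x ∈ D
    · exact Or.inl (Or.inl hxD)
    by_cases hxN : x ∈ cthickening r (frontier D)
    · exact Or.inl (Or.inr hxN)
    · refine Or.inr ⟨h.subset hx, closedBall_subset_of_not_mem hr.le hxD ?_⟩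
      rwa [frontier_compl]
  have e2 : ENNReal.ofReal (Real.pi * R ^ 2) ≤
      ENNReal.ofReal ((d + n) + (2 * r * hOut + Real.pi * r ^ 2)) := by
    rw [← volume_disc 0 hR]
    calc volume (closedBall (0 : Plane) R) ≤ (volume D + volume (cthickening r (frontier D))) +
          volume {x : Plane | x ∈ cthickening r S ∧ closedBall x r ⊆ Dᶜ} :=
          (measure_mono c2).trans ((measure_union_le _ _).trans
            (add_le_add_left (measure_union_le _ _) _))
      _ ≤ (volume D + volume (cthickening r (frontier D))) +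
          (ENNReal.ofReal (2 * r) * μH[1] (S ∩ Dᶜ) + ENNReal.ofReal (Real.pi * r ^ 2)) := by
          gcongr
      _ = _ := by
          rw [ENNReal.ofReal_add (by positivity) (by positivity), ENNReal.ofReal_add hd0 hn0,
            ENNReal.ofReal_add (by positivity) (by positivity),
            ENNReal.ofReal_mul (p := 2 * r) (q := hOut) (by positivity),
            hn, hOutd, hd, ENNReal.ofReal_toReal hvN, ENNReal.ofReal_toReal hfDc,
            ENNReal.ofReal_toReal hvD]
  have f2 : Real.pi * R ^ 2 ≤ (d + n) + (2 * r * hOut + Real.pi * r ^ 2) :=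
    (ENNReal.ofReal_le_ofReal_iff (by positivity)).1 e2
  have hSL2 : 2 * r * hS ≤ Real.pi * R ^ 2 + 2 * A * r ^ 2 := by
    calc 2 * r * hS ≤ 2 * r * (Real.pi * R ^ 2 / (2 * r) + A * r) :=
          mul_le_mul_of_nonneg_left hSL (by positivity)
      _ = _ := by field_simp
  have hadd2 : 2 * r * hIn + 2 * r * hOut = 2 * r * hS := by rw [← hadd]; ring
  have hAr : 0 ≤ 2 * A * r ^ 2 := by positivity
  rw [← hInd, ← hd, ← hn, abs_le]
  constructor
  · linarith
  · linarith

/-- PROOF: `closedBall x (s + r) \ ball x (s - r)` contains `cthickening r (frontier (closedBall x s))`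
(`frontier_closedBall` for `s ≠ 0`: the sphere), area `π ((s+r)² - (s-r)²) = 4 π r s`. -/
theorem volume_annulus {x : Plane} {r s : ℝ} (hr : 0 < r) (hs : r ≤ s) :
    (volume (cthickening r (frontier (closedBall x s)))).toReal ≤ 4 * Real.pi * r * s := by
  have hpi := Real.pi_pos
  have hs0 : 0 < s := hr.trans_le hs
  have hsub : cthickening r (frontier (closedBall x s)) ⊆ closedBall x (s + r) \ ball x (s - r) := by
    have h1 : cthickening r (frontier (closedBall x s)) ⊆ cthickening r (sphere x s) :=
      cthickening_subset_of_subset _ (frontier_closedBall x hs0.ne').le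
    refine h1.trans ?_
    intro y hy
    have hcs : IsCompact (sphere x s) := isCompact_sphere x s
    rw [hcs.cthickening_eq_biUnion_closedBall hr.le] at hy
    simp only [mem_iUnion, exists_prop] at hy
    obtain ⟨z, hz, hyz⟩ := hy
    rw [mem_sphere] at hz
    rw [mem_closedBall] at hyz
    constructor
    · rw [mem_closedBall]
      linarith [dist_triangle y z x]
    · rw [mem_ball, not_lt]
      linarith [dist_triangle z y x, dist_comm y z]
  have hball : volume (ball x (s - r)) = ENNReal.ofReal (Real.pi * (s - r) ^ 2) := by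
    rw [EuclideanSpace.volume_ball_fin_two, ← ENNReal.ofReal_pow (by linarith)]
    rw [ENNReal.ofReal_mul Real.pi_pos.le, mul_comm]
  have h2 : volume (closedBall x (s + r) \ ball x (s - r)) =
      ENNReal.ofReal (Real.pi * (s + r) ^ 2) - ENNReal.ofReal (Real.pi * (s - r) ^ 2) := by
    rw [measure_diff (ball_subset_closedBall.trans (closedBall_subset_closedBall (by linarith)))
      measurableSet_ball.nullMeasurableSet (by rw [hball]; exact ENNReal.ofReal_ne_top), hball,
      volume_disc x (by linarith)]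
  rw [← ENNReal.ofReal_sub _ (by positivity)] at h2
  apply ENNReal.toReal_le_of_le_ofReal (by positivity)
  refine (measure_mono hsub).trans (h2.le.trans (ENNReal.ofReal_le_ofReal (le_of_eq ?_)))
  ring

end Pool.Agent.W_8c5d11_h22
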