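import Pool.Agent.W_8c5d11_h22.F2

/-!
MP_8c5d11_gt, part F, file F3: assembly.
-/

open MeasureTheory Metric Set
open scoped ENNReal NNReal

namespace Pool.Agent.W_8c5d11_h22

/-- `S` is a minimizer: admissible and of least length. -/
def IsMinimizer (R r : ℝ) (S : Set Plane) : Prop :=
  Admissible R r S ∧ ∀ T : Set Plane, Admissible R r T → μH[1] S ≤ μH[1] T

/-- The structure of an admissible set whose length exceeds `π R²/(2r)` by at most `A r`. -/
def Nearly (R r A : ℝ) (S : Set Plane) : Prop :=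
  |(μH[1] S).toReal - Real.pi * R ^ 2 / (2 * r)| ≤ max A (Real.pi / 2) * r ∧
  (∀ D : Set Plane, MeasurableSet D → D ⊆ closedBall (0 : Plane) R →
    |2 * r * (μH[1] (S ∩ D)).toReal - (volume D).toReal| ≤
      (volume (cthickening r (frontier D))).toReal + (2 * A + Real.pi) * r ^ 2) ∧
  (∀ (x : Plane) (s : ℝ), r ≤ s → closedBall x s ⊆ closedBall (0 : Plane) R →
    |(μH[1] (S ∩ closedBall x s)).toReal - Real.pi * s ^ 2 / (2 * r)| ≤
      2 * Real.pi * s + (A + Real.pi / 2) * r) ∧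
  volume {x : Plane | x ∈ closedBall (0 : Plane) R ∧ ¬ IsConnected (S ∩ closedBall x r)} ≤
    ENNReal.ofReal ((2 * A + Real.pi) * r ^ 2)

theorem nearly {R r A : ℝ} (hr : 0 < r) (hR : r ≤ R) (hA : 0 ≤ A) {S : Set Plane}
    (h : Admissible R r S)
    (hl : μH[1] S ≤ ENNReal.ofReal (Real.pi * R ^ 2 / (2 * r) + A * r)) : Nearly R r A S := by
  have hpi := Real.pi_pos
  have hR0 : 0 ≤ R := hr.le.trans hR
  refine ⟨?_, ?_, ?_, h.conn hr hR0 hA hl⟩
  · have hfin : μH[1] S ≠ ⊤ := (hl.trans_lt ENNReal.ofReal_lt_top).ne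
    have h1 : (μH[1] S).toReal ≤ Real.pi * R ^ 2 / (2 * r) + A * r :=
      ENNReal.toReal_le_of_le_ofReal (by positivity) hl
    have h2 : Real.pi * (R ^ 2 - r ^ 2) / (2 * r) ≤ (μH[1] S).toReal :=
      (ENNReal.ofReal_le_iff_le_toReal hfin).1 (h.lower hr hR0)
    have h3 : Real.pi * (R ^ 2 - r ^ 2) / (2 * r) =
        Real.pi * R ^ 2 / (2 * r) - Real.pi / 2 * r := by field_simp
    have h4 : A * r ≤ max A (Real.pi / 2) * r := mul_le_mul_of_nonneg_right (le_max_left _ _) hr.le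
    have h5 : Real.pi / 2 * r ≤ max A (Real.pi / 2) * r :=
      mul_le_mul_of_nonneg_right (le_max_right _ _) hr.le
    rw [abs_le]
    constructor <;> linarith
  · intro D hD hDR
    exact h.equi hr hR0 hA hl hD hDR
  · intro x s hs hsub
    have hs0 : 0 < s := hr.trans_le hs
    have h1 := h.equi hr hR0 hA hl measurableSet_closedBall hsub
    have h2 := volume_annulus (x := x) hr hs
    rw [volume_disc x hs0.le, ENNReal.toReal_ofReal (by positivity)] at h1
    obtain ⟨t, ht⟩ : ∃ t, t = (μH[1] (S ∩ closedBall x s)).toReal := ⟨_, rfl⟩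
    rw [← ht] at h1 ⊢
    have h3 : t - Real.pi * s ^ 2 / (2 * r) = (2 * r * t - Real.pi * s ^ 2) / (2 * r) := by
      field_simp
    rw [h3, abs_div, abs_of_pos (show 0 < 2 * r by positivity), div_le_iff₀ (by positivity)]
    calc |2 * r * t - Real.pi * s ^ 2| ≤ 4 * Real.pi * r * s + (2 * A + Real.pi) * r ^ 2 :=
          h1.trans (by linarith)
      _ = (2 * Real.pi * s + (A + Real.pi / 2) * r) * (2 * r) := by ring

theorem main : ∃ C : ℝ, 0 < C ∧ ∀ R r : ℝ, 0 < r → r ≤ R →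
    (∀ S, Admissible R r S → ENNReal.ofReal (Real.pi * (R ^ 2 - r ^ 2) / (2 * r)) ≤ μH[1] S) ∧
    (∃ S, Admissible R r S ∧ μH[1] S ≤ ENNReal.ofReal (Real.pi * R ^ 2 / (2 * r) + C * r)) ∧
    (∀ S, IsMinimizer R r S → Nearly R r C S) ∧
    (∀ (A : ℝ) (S : Set Plane), 0 ≤ A → Admissible R r S →
      μH[1] S ≤ ENNReal.ofReal (Real.pi * R ^ 2 / (2 * r) + A * r) → Nearly R r A S) := by
  refine ⟨1000000, by norm_num, fun R r hr hR => ?_⟩
  have hR0 : 0 ≤ R := hr.le.trans hR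
  have hex : ∃ S, Admissible R r S ∧
      μH[1] S ≤ ENNReal.ofReal (Real.pi * R ^ 2 / (2 * r) + 1000000 * r) := by
    obtain ⟨S, hc, hn, hcov, hlen⟩ := upper_plane hr hR0
    refine ⟨S, ⟨hc, hn, fun x hx => ?_⟩, hlen⟩
    have h1 := hcov hx
    rw [mem_cthickening_iff] at h1
    rw [infDist]
    exact ENNReal.toReal_le_of_le_ofReal hr.le h1
  refine ⟨fun S hS => hS.lower hr hR0, hex, ?_, ?_⟩
  · intro S hS
    obtain ⟨T, hT, hTl⟩ := hex
    exact nearly hr hR (by norm_num) hS.1 ((hS.2 T hT).trans hTl)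
  · intro A S hA hS hl
    exact nearly hr hR hA hS hl

end Pool.Agent.W_8c5d11_h22
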