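import Pool.Agent.W_8c5d11_h22.F3

/-!
MP_8c5d11_gt, part F, file F4: equidistribution for arbitrary Borel sets of the plane, least length.
-/

open MeasureTheory Metric Set
open scoped ENNReal NNReal

namespace Pool.Agent.W_8c5d11_h22

/-- Equidistribution for all Borel sets of the plane (not only subsets of the disc). -/
theorem Admissible.equi_all {R r A : ℝ} (hr : 0 < r) (hR : 0 ≤ R) (hA : 0 ≤ A) {S : Set Plane}
    (h : Admissible R r S)
    (hl : μH[1] S ≤ ENNReal.ofReal (Real.pi * R ^ 2 / (2 * r) + A * r))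
    {D : Set Plane} (hD : MeasurableSet D) :
    |2 * r * (μH[1] (S ∩ D)).toReal - (volume (D ∩ closedBall (0 : Plane) R)).toReal| ≤
      (volume (cthickening r (frontier D) ∩ closedBall (0 : Plane) R)).toReal +
        (2 * A + Real.pi) * r ^ 2 := by
  have hpi := Real.pi_pos
  have hfin : μH[1] S ≠ ⊤ := (hl.trans_lt ENNReal.ofReal_lt_top).ne
  have hfD : μH[1] (S ∩ D) ≠ ⊤ := ((measure_mono inter_subset_left).trans_lt hfin.lt_top).ne
  have hfDc : μH[1] (S ∩ Dᶜ) ≠ ⊤ := ((measure_mono inter_subset_left).trans_lt hfin.lt_top).ne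
  have hvB : volume (closedBall (0 : Plane) R) < ⊤ := isBounded_closedBall.measure_lt_top
  have hvD : volume (D ∩ closedBall (0 : Plane) R) ≠ ⊤ :=
    ((measure_mono inter_subset_right).trans_lt hvB).ne
  have hvN : volume (cthickening r (frontier D) ∩ closedBall (0 : Plane) R) ≠ ⊤ :=
    ((measure_mono inter_subset_right).trans_lt hvB).ne
  obtain ⟨hS, hSd⟩ : ∃ t, t = (μH[1] S).toReal := ⟨_, rfl⟩
  obtain ⟨hIn, hInd⟩ : ∃ t, t = (μH[1] (S ∩ D)).toReal := ⟨_, rfl⟩
  obtain ⟨hOut, hOutd⟩ : ∃ t, t = (μH[1] (S ∩ Dᶜ)).toReal := ⟨_, rfl⟩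
  obtain ⟨d, hd⟩ : ∃ t, t = (volume (D ∩ closedBall (0 : Plane) R)).toReal := ⟨_, rfl⟩
  obtain ⟨n, hn⟩ : ∃ t, t =
    (volume (cthickening r (frontier D) ∩ closedBall (0 : Plane) R)).toReal := ⟨_, rfl⟩
  have hIn0 : 0 ≤ hIn := by rw [hInd]; exact ENNReal.toReal_nonneg
  have hOut0 : 0 ≤ hOut := by rw [hOutd]; exact ENNReal.toReal_nonneg
  have hd0 : 0 ≤ d := by rw [hd]; exact ENNReal.toReal_nonneg
  have hn0 : 0 ≤ n := by rw [hn]; exact ENNReal.toReal_nonneg
  have hadd : hIn + hOut = hS := by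
    rw [hInd, hOutd, hSd, ← ENNReal.toReal_add hfD hfDc]
    congr 1
    rw [← diff_eq, measure_inter_add_diff S hD]
  have hSL : hS ≤ Real.pi * R ^ 2 / (2 * r) + A * r := by
    rw [hSd]
    exact ENNReal.toReal_le_of_le_ofReal (by positivity) hl
  -- (1)
  have h1 := tube_local_plane h.1 h.2.1 hfin hD hr
  have c1 : D ∩ closedBall (0 : Plane) R ⊆
      (cthickening r (frontier D) ∩ closedBall (0 : Plane) R) ∪
      {x : Plane | x ∈ cthickening r S ∧ closedBall x r ⊆ D} := by
    rintro x ⟨hx, hxR⟩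
    by_cases hxN : x ∈ cthickening r (frontier D)
    · exact Or.inl ⟨hxN, hxR⟩
    · exact Or.inr ⟨h.subset hxR, closedBall_subset_of_not_mem hr.le hx hxN⟩
  have e1 : volume (D ∩ closedBall (0 : Plane) R) ≤
      ENNReal.ofReal (n + (2 * r * hIn + Real.pi * r ^ 2)) := by
    calc volume (D ∩ closedBall (0 : Plane) R) ≤
          volume (cthickening r (frontier D) ∩ closedBall (0 : Plane) R) +
          volume {x : Plane | x ∈ cthickening r S ∧ closedBall x r ⊆ D} :=
          (measure_mono c1).trans (measure_union_le _ _)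
      _ ≤ volume (cthickening r (frontier D) ∩ closedBall (0 : Plane) R) +
          (ENNReal.ofReal (2 * r) * μH[1] (S ∩ D) + ENNReal.ofReal (Real.pi * r ^ 2)) := by
          gcongr
      _ = _ := by
          rw [ENNReal.ofReal_add hn0 (by positivity), ENNReal.ofReal_add (by positivity)
            (by positivity), ENNReal.ofReal_mul (p := 2 * r) (q := hIn) (by positivity), hn, hInd,
            ENNReal.ofReal_toReal hvN, ENNReal.ofReal_toReal hfD]
  have f1 : d ≤ n + (2 * r * hIn + Real.pi * r ^ 2) := by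
    rw [hd]; exact ENNReal.toReal_le_of_le_ofReal (by positivity) e1
  -- (2)
  have h2 := tube_local_plane h.1 h.2.1 hfin hD.compl hr
  have c2 : closedBall (0 : Plane) R ⊆ ((D ∩ closedBall (0 : Plane) R) ∪
      (cthickening r (frontier D) ∩ closedBall (0 : Plane) R)) ∪
      {x : Plane | x ∈ cthickening r S ∧ closedBall x r ⊆ Dᶜ} := by
    intro x hx
    by_cases hxD : x ∈ D
    · exact Or.inl (Or.inl ⟨hxD, hx⟩)
    by_cases hxN : x ∈ cthickening r (frontier D)
    · exact Or.inl (Or.inr ⟨hxN, hx⟩)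
    · refine Or.inr ⟨h.subset hx, closedBall_subset_of_not_mem hr.le hxD ?_⟩
      rwa [frontier_compl]
  have e2 : ENNReal.ofReal (Real.pi * R ^ 2) ≤
      ENNReal.ofReal ((d + n) + (2 * r * hOut + Real.pi * r ^ 2)) := by
    rw [← volume_disc 0 hR]
    calc volume (closedBall (0 : Plane) R) ≤ (volume (D ∩ closedBall (0 : Plane) R) +
          volume (cthickening r (frontier D) ∩ closedBall (0 : Plane) R)) +
          volume {x : Plane | x ∈ cthickening r S ∧ closedBall x r ⊆ Dᶜ} :=
          (measure_mono c2).trans ((measure_union_le _ _).trans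
            (add_le_add_left (measure_union_le _ _) _))
      _ ≤ (volume (D ∩ closedBall (0 : Plane) R) +
          volume (cthickening r (frontier D) ∩ closedBall (0 : Plane) R)) +
          (ENNReal.ofReal (2 * r) * μH[1] (S ∩ Dᶜ) + ENNReal.ofReal (Real.pi * r ^ 2)) := by
          gcongr
      _ = _ := by
          rw [ENNReal.ofReal_add (by positivity) (by positivity), ENNReal.ofReal_add hd0 hn0,
            ENNReal.ofReal_add (by positivity) (by positivity),
            ENNReal.ofReal_mul (p := 2 * r) (q := hOut) (by positivity),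
            hn, hOutd, hd, ENNReal.ofReal_toReal hvN, ENNReal.ofReal_toReal hfDc,
            ENNReal.ofReal_toReal hvD]
  have f2 : Real.pi * R ^ 2 ≤ (d + n) + (2 * r * hOut + Real.pi * r ^ 2) :=
    (ENNReal.ofReal_le_ofReal_iff (by positivity)).1 e2
  have hSL2 : 2 * r * hS ≤ Real.pi * R ^ 2 + 2 * A * r ^ 2 := by
    calc 2 * r * hS ≤ 2 * r * (Real.pi * R ^ 2 / (2 * r) + A * r) :=
          mul_le_mul_of_nonneg_left hSL (by positivity)
      _ = _ := by field_simp
  have hadd2 : 2 * r * hIn + 2 * r * hOut = 2 * r * hS := by rw [← hadd]; ring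
  have hAr : 0 ≤ 2 * A * r ^ 2 := by positivity
  rw [← hInd, ← hd, ← hn, abs_le]
  constructor
  · linarith
  · linarith

end Pool.Agent.W_8c5d11_h22
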