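import Pool.Agent.W_8c5d11_h22.F4

/-!
MP_8c5d11_gt, part F, file F5: the least length, and the final inequalities for all admissible sets.
-/

open MeasureTheory Metric Set
open scoped ENNReal NNReal

namespace Pool.Agent.W_8c5d11_h22

/-- The least (infimal) one-dimensional Hausdorff measure of an admissible set. -/
noncomputable def minLength (R r : ℝ) : ℝ≥0∞ :=
  ⨅ (S : Set Plane) (_ : Admissible R r S), μH[1] S

theorem minLength_le {R r : ℝ} (hr : 0 < r) (hR : r ≤ R) :
    minLength R r ≤ ENNReal.ofReal (Real.pi * R ^ 2 / (2 * r) + 1000000 * r) := by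
  obtain ⟨S, hc, hn, hcov, hlen⟩ := upper_plane hr (hr.le.trans hR)
  refine le_trans (iInf₂_le S ⟨hc, hn, fun x hx => ?_⟩) hlen
  have h1 := hcov hx
  rw [mem_cthickening_iff] at h1
  rw [infDist]
  exact ENNReal.toReal_le_of_le_ofReal hr.le h1

theorem le_minLength {R r : ℝ} (hr : 0 < r) (hR : r ≤ R) :
    ENNReal.ofReal (Real.pi * (R ^ 2 - r ^ 2) / (2 * r)) ≤ minLength R r :=
  le_iInf₂ fun _ hS => hS.lower hr (hr.le.trans hR)

theorem minLength_ne_top {R r : ℝ} (hr : 0 < r) (hR : r ≤ R) : minLength R r ≠ ⊤ :=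
  ((minLength_le hr hR).trans_lt ENNReal.ofReal_lt_top).ne

theorem abs_minLength {R r : ℝ} (hr : 0 < r) (hR : r ≤ R) :
    |2 * r * (minLength R r).toReal - Real.pi * R ^ 2| ≤ 2000000 * r ^ 2 := by
  have hpi := Real.pi_pos
  have hpi4 := Real.pi_le_four
  have h1 : (minLength R r).toReal ≤ Real.pi * R ^ 2 / (2 * r) + 1000000 * r :=
    ENNReal.toReal_le_of_le_ofReal (by positivity) (minLength_le hr hR)
  have h2 : Real.pi * (R ^ 2 - r ^ 2) / (2 * r) ≤ (minLength R r).toReal :=
    (ENNReal.ofReal_le_iff_le_toReal (minLength_ne_top hr hR)).1 (le_minLength hr hR)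
  have h3 : 2 * r * (minLength R r).toReal ≤ Real.pi * R ^ 2 + 2000000 * r ^ 2 := by
    calc 2 * r * (minLength R r).toReal ≤ 2 * r * (Real.pi * R ^ 2 / (2 * r) + 1000000 * r) :=
          mul_le_mul_of_nonneg_left h1 (by positivity)
      _ = _ := by field_simp; ring
  have h4 : Real.pi * R ^ 2 - Real.pi * r ^ 2 ≤ 2 * r * (minLength R r).toReal := by
    calc Real.pi * R ^ 2 - Real.pi * r ^ 2 =
          2 * r * (Real.pi * (R ^ 2 - r ^ 2) / (2 * r)) := by field_simp
      _ ≤ _ := mul_le_mul_of_nonneg_left h2 (by positivity)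
  have h5 : Real.pi * r ^ 2 ≤ 2000000 * r ^ 2 :=
    mul_le_mul_of_nonneg_right (by linarith) (by positivity)
  rw [abs_le]
  constructor <;> linarith

theorem excess {R r : ℝ} (hr : 0 < r) (hR : r ≤ R) {S : Set Plane} (h : Admissible R r S)
    (hfin : μH[1] S ≠ ⊤) :
    ∃ A : ℝ, 0 ≤ A ∧ μH[1] S ≤ ENNReal.ofReal (Real.pi * R ^ 2 / (2 * r) + A * r) ∧
      2 * A * r ^ 2 ≤ 2 * r * ((μH[1] S).toReal - (minLength R r).toReal) + 2000000 * r ^ 2 := by
  have hpi := Real.pi_pos
  have hle : minLength R r ≤ μH[1] S := iInf₂_le S h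
  have hle' : (minLength R r).toReal ≤ (μH[1] S).toReal := ENNReal.toReal_mono hfin hle
  have habs := abs_minLength hr hR
  rw [abs_le] at habs
  obtain ⟨t, ht⟩ : ∃ t, t = (μH[1] S).toReal := ⟨_, rfl⟩
  rw [← ht] at hle' ⊢
  refine ⟨max 0 ((t - Real.pi * R ^ 2 / (2 * r)) / r), le_max_left _ _, ?_, ?_⟩
  · rw [← ENNReal.ofReal_toReal hfin, ← ht]
    apply ENNReal.ofReal_le_ofReal
    have h1 : (t - Real.pi * R ^ 2 / (2 * r)) / r * r ≤
        max 0 ((t - Real.pi * R ^ 2 / (2 * r)) / r) * r :=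
      mul_le_mul_of_nonneg_right (le_max_right _ _) hr.le
    rw [div_mul_cancel₀ _ hr.ne'] at h1
    linarith
  · rcases le_total ((t - Real.pi * R ^ 2 / (2 * r)) / r) 0 with h1 | h1
    · rw [max_eq_left h1]
      have h2 : 0 ≤ 2 * r * (t - (minLength R r).toReal) := mul_nonneg (by positivity) (by linarith)
      have h3 : 0 ≤ 2000000 * r ^ 2 := by positivity
      linarith
    · rw [max_eq_right h1]
      have h2 : 2 * ((t - Real.pi * R ^ 2 / (2 * r)) / r) * r ^ 2 =
          2 * r * t - Real.pi * R ^ 2 := by field_simp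
      rw [h2]
      linarith

/-- Distribution of the length of an arbitrary admissible set of finite length. -/
theorem distribution {R r : ℝ} (hr : 0 < r) (hR : r ≤ R) {S : Set Plane} (h : Admissible R r S)
    (hfin : μH[1] S ≠ ⊤) {D : Set Plane} (hD : MeasurableSet D) :
    |2 * r * (μH[1] (S ∩ D)).toReal - (volume (D ∩ closedBall (0 : Plane) R)).toReal| ≤
      (volume (cthickening r (frontier D) ∩ closedBall (0 : Plane) R)).toReal +
        2 * r * ((μH[1] S).toReal - (minLength R r).toReal) + 2000004 * r ^ 2 := by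
  obtain ⟨A, hA, hl, hA2⟩ := excess hr hR h hfin
  have h1 := h.equi_all hr (hr.le.trans hR) hA hl hD
  have h2 : Real.pi * r ^ 2 ≤ 4 * r ^ 2 :=
    mul_le_mul_of_nonneg_right Real.pi_le_four (by positivity)
  have h3 : (2 * A + Real.pi) * r ^ 2 = 2 * A * r ^ 2 + Real.pi * r ^ 2 := by ring
  linarith

/-- Local connectedness of an arbitrary admissible set of finite length at scale `r`. -/
theorem local_connected {R r : ℝ} (hr : 0 < r) (hR : r ≤ R) {S : Set Plane}
    (h : Admissible R r S) (hfin : μH[1] S ≠ ⊤) :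
    volume {x : Plane | x ∈ closedBall (0 : Plane) R ∧ ¬ IsConnected (S ∩ closedBall x r)} ≤
      ENNReal.ofReal (2 * r * ((μH[1] S).toReal - (minLength R r).toReal) + 2000004 * r ^ 2) := by
  obtain ⟨A, hA, hl, hA2⟩ := excess hr hR h hfin
  refine (h.conn hr (hr.le.trans hR) hA hl).trans (ENNReal.ofReal_le_ofReal ?_)
  have h2 : Real.pi * r ^ 2 ≤ 4 * r ^ 2 :=
    mul_le_mul_of_nonneg_right Real.pi_le_four (by positivity)
  have h3 : (2 * A + Real.pi) * r ^ 2 = 2 * A * r ^ 2 + Real.pi * r ^ 2 := by ring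
  linarith

end Pool.Agent.W_8c5d11_h22
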