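import Mathlib

/-!
MP_8c5d11_gt, part L, file L7: difference of two discs of the same radius.
-/

open MeasureTheory Metric Set
open scoped ENNReal NNReal

namespace Pool.Agent.W_8c5d11_h22

private theorem L7_aux {d ρ : ℝ} (hd : 0 ≤ d) :
    volume (closedBall (d : ℂ) ρ \ closedBall (0 : ℂ) ρ) ≤
      ENNReal.ofReal (2 * ρ) * ENNReal.ofReal d := by
  set G : Set (ℝ × ℝ) := {z | (-ρ ≤ z.2 ∧ z.2 ≤ ρ) ∧
    (√(ρ ^ 2 - z.2 ^ 2) < z.1 ∧ z.1 ≤ d + √(ρ ^ 2 - z.2 ^ 2))} with hG
  have hs : Measurable fun z : ℝ × ℝ => √(ρ ^ 2 - z.2 ^ 2) := by fun_prop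
  have hGm : MeasurableSet G := by
    refine ((measurableSet_le measurable_const measurable_snd).inter
      (measurableSet_le measurable_snd measurable_const)).inter
      ((measurableSet_lt hs measurable_fst).inter
        (measurableSet_le measurable_fst (measurable_const.add hs)))
  have hsub : closedBall (d : ℂ) ρ \ closedBall (0 : ℂ) ρ ⊆
      Complex.measurableEquivRealProd ⁻¹' G := by
    rintro z ⟨hz1, hz2⟩
    rw [mem_closedBall, dist_eq_norm] at hz1
    rw [mem_closedBall, dist_zero_right, not_le] at hz2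
    have hρ : 0 ≤ ρ := (norm_nonneg _).trans hz1
    have h1 : (z.re - d) ^ 2 + z.im ^ 2 ≤ ρ ^ 2 := by
      have h2 : ‖z - (d : ℂ)‖ ^ 2 ≤ ρ ^ 2 := pow_le_pow_left₀ (norm_nonneg _) hz1 2
      rw [← Complex.normSq_eq_norm_sq, Complex.normSq_apply] at h2
      simp only [Complex.sub_re, Complex.sub_im, Complex.ofReal_re, Complex.ofReal_im,
        sub_zero] at h2
      nlinarith
    have h3 : ρ ^ 2 < z.re ^ 2 + z.im ^ 2 := by
      have h4 : ρ ^ 2 < ‖z‖ ^ 2 := by nlinarith
      rw [← Complex.normSq_eq_norm_sq, Complex.normSq_apply] at h4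
      nlinarith
    have h5 : 0 ≤ ρ ^ 2 - z.im ^ 2 := by nlinarith [sq_nonneg (z.re - d)]
    have h6 : √(ρ ^ 2 - z.im ^ 2) ^ 2 = ρ ^ 2 - z.im ^ 2 := Real.sq_sqrt h5
    have h7 : 0 ≤ √(ρ ^ 2 - z.im ^ 2) := Real.sqrt_nonneg _
    have h8 : |z.im| ≤ ρ := abs_le_of_sq_le_sq (by linarith) hρ
    have h9 : |z.re - d| ≤ √(ρ ^ 2 - z.im ^ 2) :=
      abs_le_of_sq_le_sq (by rw [h6]; linarith) h7
    have h10 := abs_le.1 h9
    show (-ρ ≤ z.im ∧ z.im ≤ ρ) ∧
      (√(ρ ^ 2 - z.im ^ 2) < z.re ∧ z.re ≤ d + √(ρ ^ 2 - z.im ^ 2))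
    refine ⟨abs_le.1 h8, ?_, by linarith [h10.2]⟩
    by_contra hcon
    push Not at hcon
    have h11 : z.re ^ 2 ≤ √(ρ ^ 2 - z.im ^ 2) ^ 2 :=
      sq_le_sq' (by linarith [h10.1]) hcon
    rw [h6] at h11
    linarith
  refine (measure_mono hsub).trans ?_
  rw [Complex.volume_preserving_equiv_real_prod.measure_preimage hGm.nullMeasurableSet,
    Measure.volume_eq_prod, Measure.prod_apply_symm hGm]
  have hle : ∀ y : ℝ, volume ((fun x => (x, y)) ⁻¹' G) ≤
      (Icc (-ρ) ρ).indicator (fun _ => ENNReal.ofReal d) y := by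
    intro y
    by_cases hy : y ∈ Icc (-ρ) ρ
    · rw [indicator_of_mem hy]
      calc volume ((fun x => (x, y)) ⁻¹' G) ≤
          volume (Ioc (√(ρ ^ 2 - y ^ 2)) (d + √(ρ ^ 2 - y ^ 2))) :=
            measure_mono fun x hx => ⟨hx.2.1, hx.2.2⟩
        _ = ENNReal.ofReal d := by
            rw [Real.volume_Ioc]
            congr 1
            ring
    · rw [indicator_of_notMem hy]
      have h1 : (fun x => (x, y)) ⁻¹' G = ∅ := by
        ext x
        simp only [mem_preimage, mem_empty_iff_false, iff_false]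
        intro hx
        exact hy hx.1
      rw [h1, measure_empty]
  refine (lintegral_mono hle).trans ?_
  rw [lintegral_indicator measurableSet_Icc, setLIntegral_const, Real.volume_Icc, mul_comm]
  refine le_of_eq ?_
  congr 2
  ring

/-- `|B(p, ρ) \ B(q, ρ)| ≤ 2 ρ |p - q|`.  PROOF: by translation invariance and by a rotation (multiplication
by a unit complex number preserves the measure and the distances) one may assume `q = 0` and `p = d` real,
`d ≥ 0`.  A point `x + i y` of `closedBall d ρ` outside `closedBall 0 ρ` has `|y| ≤ ρ` and, with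
`s = √(ρ² - y²)`, `x ∈ Icc (d - s) (d + s)` and not `|x| ≤ s`, hence `x ∈ Ioc s (d + s)` (as `d ≥ 0`,
`x ≥ d - s ≥ -s`).  So the set is contained in a measurable set whose slices `y = const` have length at most
`d`, and by Fubini (`Complex.volume_preserving_equiv_real_prod`, `Measure.prod_apply_symm` or
`volume_eq_lintegral`-style, region between two graphs: `volume_regionBetween_eq_integral` is another
possibility) its measure is at most `2 ρ d`. -/
theorem disc_diff (p q : ℂ) {ρ : ℝ} (hρ : 0 ≤ ρ) :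
    volume (closedBall p ρ \ closedBall q ρ) ≤ ENNReal.ofReal (2 * ρ) * edist p q := by
  rcases eq_or_ne p q with rfl | hpq
  · rw [sdiff_self]
    simp
  have hd : 0 < ‖p - q‖ := norm_pos_iff.2 (sub_ne_zero.2 hpq)
  set d : ℝ := ‖p - q‖ with hdd
  have hdc : (d : ℂ) ≠ 0 := Complex.ofReal_ne_zero.2 hd.ne'
  have hu : ‖(p - q) / (d : ℂ)‖ = 1 := by
    rw [norm_div, Complex.norm_real, Real.norm_of_nonneg hd.le, ← hdd, div_self hd.ne']
  set u : Circle := ⟨(p - q) / (d : ℂ), mem_sphere_zero_iff_norm.2 hu⟩ with huu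
  have hmp : MeasurePreserving (fun z : ℂ => rotation u z + q) volume volume :=
    (measurePreserving_add_right volume q).comp (rotation u).measurePreserving
  have hm : MeasurableSet (closedBall p ρ \ closedBall q ρ) :=
    measurableSet_closedBall.diff measurableSet_closedBall
  rw [← hmp.measure_preimage hm.nullMeasurableSet]
  have hpre : (fun z : ℂ => rotation u z + q) ⁻¹' (closedBall p ρ \ closedBall q ρ) =
      closedBall (d : ℂ) ρ \ closedBall (0 : ℂ) ρ := by
    have hp : rotation u (d : ℂ) + q = p := by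
      rw [rotation_apply]
      show (p - q) / (d : ℂ) * (d : ℂ) + q = p
      rw [div_mul_cancel₀ _ hdc, sub_add_cancel]
    have hq : rotation u (0 : ℂ) + q = q := by rw [map_zero, zero_add]
    ext z
    have e1 : dist (rotation u z + q) p = dist z (d : ℂ) := by
      nth_rewrite 1 [← hp]
      rw [dist_add_right, LinearIsometryEquiv.dist_map]
    have e2 : dist (rotation u z + q) q = dist z (0 : ℂ) := by
      nth_rewrite 2 [← hq]
      rw [dist_add_right, LinearIsometryEquiv.dist_map]
    simp only [mem_preimage, mem_sdiff, mem_closedBall, e1, e2]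
  rw [hpre]
  refine (L7_aux hd.le).trans (le_of_eq ?_)
  rw [edist_dist, dist_eq_norm]

end Pool.Agent.W_8c5d11_h22
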