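import Pool.Agent.W_8c5d11_h22.L5
import Pool.Agent.W_8c5d11_h22.L7

/-!
MP_8c5d11_gt, part L, file L8: the integral of the number of entrances into discs.
-/

open MeasureTheory Metric Set
open scoped ENNReal NNReal

namespace Pool.Agent.W_8c5d11_h22

open Classical in
theorem L8_nil_eq (v0 : ℂ) (ρ : ℝ) :
    (fun x : ℂ => entr v0 [] (closedBall x ρ)) = (closedBall v0 ρ).indicator 1 := by
  funext x
  unfold entr
  by_cases h : v0 ∈ closedBall x ρ
  · rw [if_pos h, indicator_of_mem (by rw [mem_closedBall, dist_comm]; exact h)]; rfl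
  · rw [if_neg h, indicator_of_notMem (by rw [mem_closedBall, dist_comm]; exact h)]

open Classical in
theorem L8_cons_eq (v0 : ℂ) (e : ℂ × ℂ) (l : List (ℂ × ℂ)) (ρ : ℝ) :
    (fun x : ℂ => entr v0 (e :: l) (closedBall x ρ)) =
      (closedBall e.1 ρ \ closedBall e.2 ρ).indicator 1 +
        fun x : ℂ => entr v0 l (closedBall x ρ) := by
  funext x
  rw [Pi.add_apply]
  conv_lhs => unfold entr
  congr 1
  by_cases h : e.1 ∈ closedBall x ρ ∧ e.2 ∉ closedBall x ρ
  · rw [if_pos h, indicator_of_mem]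
    · rfl
    · refine ⟨?_, fun h2 => h.2 ?_⟩
      · rw [mem_closedBall, dist_comm]; exact h.1
      · rw [mem_closedBall, dist_comm]; exact h2
  · rw [if_neg h, indicator_of_notMem]
    rintro ⟨h1, h2⟩
    refine h ⟨?_, fun h3 => h2 ?_⟩
    · rw [mem_closedBall, dist_comm]; exact h1
    · rw [mem_closedBall, dist_comm]; exact h3

/-- PROOF: induction on `l`; `x ↦ entr v0 l (closedBall x ρ)` is a finite sum of indicators of the
measurable sets `closedBall v0 ρ` and `closedBall e.1 ρ \ closedBall e.2 ρ` (use `dist_comm` for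
`z ∈ closedBall x ρ ↔ x ∈ closedBall z ρ`). -/
theorem measurable_entr (v0 : ℂ) (l : List (ℂ × ℂ)) (ρ : ℝ) :
    Measurable fun x : ℂ => entr v0 l (closedBall x ρ) := by
  induction l with
  | nil =>
    rw [L8_nil_eq]
    exact measurable_one.indicator measurableSet_closedBall
  | cons e l ih =>
    rw [L8_cons_eq]
    exact (measurable_one.indicator
      (measurableSet_closedBall.diff measurableSet_closedBall)).add ih

theorem L8_volume_closedBall (v : ℂ) {ρ : ℝ} (hρ : 0 ≤ ρ) :
    volume (closedBall v ρ) = ENNReal.ofReal (Real.pi * ρ ^ 2) := by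
  rw [Complex.volume_closedBall, ENNReal.ofReal_mul Real.pi_pos.le, ENNReal.ofReal_pow hρ, mul_comm]
  congr 1
  rw [ENNReal.ofReal, ← NNReal.coe_real_pi, Real.toNNReal_coe]

/-- PROOF: induction on `l` with `lintegral_indicator_one`, `disc_diff` and `Complex.volume_closedBall`
(`volume (closedBall v0 ρ) = NNReal.pi * ENNReal.ofReal ρ ^ 2`). -/
theorem lintegral_entr_le (v0 : ℂ) (l : List (ℂ × ℂ)) {ρ : ℝ} (hρ : 0 ≤ ρ) (η : ℝ) :
    ∫⁻ x : ℂ, entr v0 l (closedBall x ρ) ≤
      ENNReal.ofReal (Real.pi * ρ ^ 2) + ENNReal.ofReal (2 * ρ) * wsum η univ l := by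
  induction l with
  | nil =>
    rw [L8_nil_eq, lintegral_indicator_one measurableSet_closedBall, L8_volume_closedBall v0 hρ]
    exact le_self_add
  | cons e l ih =>
    rw [L8_cons_eq]
    have hm : Measurable ((closedBall e.1 ρ \ closedBall e.2 ρ).indicator (1 : ℂ → ℝ≥0∞)) :=
      measurable_one.indicator (measurableSet_closedBall.diff measurableSet_closedBall)
    have h1 : ∫⁻ x : ℂ, (((closedBall e.1 ρ \ closedBall e.2 ρ).indicator (1 : ℂ → ℝ≥0∞)) +
        (fun x : ℂ => entr v0 l (closedBall x ρ))) x =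
        volume (closedBall e.1 ρ \ closedBall e.2 ρ) + ∫⁻ x : ℂ, entr v0 l (closedBall x ρ) := by
      simp only [Pi.add_apply]
      rw [lintegral_add_left hm, lintegral_indicator_one
        (measurableSet_closedBall.diff measurableSet_closedBall)]
    rw [h1]
    have h2 : wsum η univ (e :: l) = edist e.1 e.2 + wsum η univ l := by
      conv_lhs => unfold wsum
      rw [if_pos (subset_univ _)]
    rw [h2, mul_add, ← add_assoc, add_comm (ENNReal.ofReal (Real.pi * ρ ^ 2)), add_assoc]
    exact add_le_add (disc_diff e.1 e.2 hρ) ih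

/-- Local form: the discs `closedBall v0 ρ` and the sets `closedBall e.1 ρ \ closedBall e.2 ρ` for the
edges `e` whose child has its `η`-ball inside `A`.  PROOF: induction on `l`, union bound. -/
theorem volume_entrances_le (v0 : ℂ) (l : List (ℂ × ℂ)) {ρ : ℝ} (hρ : 0 ≤ ρ) (η : ℝ) (A : Set ℂ) :
    volume (closedBall v0 ρ ∪ {x : ℂ | ∃ e ∈ l, closedBall e.1 η ⊆ A ∧ e.1 ∈ closedBall x ρ ∧
        e.2 ∉ closedBall x ρ}) ≤
      ENNReal.ofReal (Real.pi * ρ ^ 2) + ENNReal.ofReal (2 * ρ) * wsum η A l := by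
  induction l with
  | nil =>
    have : (closedBall v0 ρ ∪ {x : ℂ | ∃ e ∈ ([] : List (ℂ × ℂ)), closedBall e.1 η ⊆ A ∧
        e.1 ∈ closedBall x ρ ∧ e.2 ∉ closedBall x ρ}) = closedBall v0 ρ := by
      ext x; simp
    rw [this, L8_volume_closedBall v0 hρ]
    exact le_self_add
  | cons e l ih =>
    by_cases hA : closedBall e.1 η ⊆ A
    · have h2 : wsum η A (e :: l) = edist e.1 e.2 + wsum η A l := by
        conv_lhs => unfold wsum
        rw [if_pos hA]
      have hsub : (closedBall v0 ρ ∪ {x : ℂ | ∃ e' ∈ e :: l, closedBall e'.1 η ⊆ A ∧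
          e'.1 ∈ closedBall x ρ ∧ e'.2 ∉ closedBall x ρ}) ⊆
          (closedBall e.1 ρ \ closedBall e.2 ρ) ∪ (closedBall v0 ρ ∪
            {x : ℂ | ∃ e' ∈ l, closedBall e'.1 η ⊆ A ∧ e'.1 ∈ closedBall x ρ ∧
              e'.2 ∉ closedBall x ρ}) := by
        rintro x (hx | ⟨e', he', h1, h3, h4⟩)
        · exact Or.inr (Or.inl hx)
        · rcases List.mem_cons.1 he' with rfl | he'
          · left
            refine ⟨?_, fun h5 => h4 ?_⟩
            · rw [mem_closedBall, dist_comm]; exact h3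
            · rw [mem_closedBall, dist_comm]; exact h5
          · exact Or.inr (Or.inr ⟨e', he', h1, h3, h4⟩)
      rw [h2, mul_add, ← add_assoc, add_comm (ENNReal.ofReal (Real.pi * ρ ^ 2)), add_assoc]
      exact (measure_mono hsub).trans ((measure_union_le _ _).trans
        (add_le_add (disc_diff e.1 e.2 hρ) ih))
    · have h2 : wsum η A (e :: l) = wsum η A l := by
        conv_lhs => unfold wsum
        rw [if_neg hA, zero_add]
      rw [h2]
      refine (measure_mono ?_).trans ih
      rintro x (hx | ⟨e', he', h1, h3, h4⟩)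
      · exact Or.inl hx
      · rcases List.mem_cons.1 he' with rfl | he'
        · exact absurd h1 hA
        · exact Or.inr ⟨e', he', h1, h3, h4⟩

end Pool.Agent.W_8c5d11_h22
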