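import Pool.Agent.W_8c5d11_h22.L6d
import Pool.Agent.W_8c5d11_h22.L8

/-!
MP_8c5d11_gt, part L, file L10: the local tube inequality.
-/

open MeasureTheory Metric Set Filter
open scoped ENNReal NNReal Topology

namespace Pool.Agent.W_8c5d11_h22

/-- One scale.  PROOF: tree of `exists_net` with mesh `η`, `ρ' = ρ + 2 η`.  If `x` is in the set, then
`infDist x S ≤ ρ` is attained at a point of `S`, which has a node within `2 η`, so there is a node in
`closedBall x ρ'`; `exists_entrance` gives the root in `closedBall x ρ'` or an edge `e` with `e.1` inside and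
`e.2` outside; then `closedBall e.1 η ⊆ closedBall x (ρ + 3 η) ⊆ A`.  Use `volume_entrances_le` and the weight
bound. -/
theorem tube_local_aux {S : Set ℂ} (hc : IsCompact S) (hS : IsConnected S) (hfin : μH[1] S ≠ ⊤)
    {A : Set ℂ} (hA : MeasurableSet A) {ρ η : ℝ} (hρ : 0 < ρ) (hη : 0 < η) :
    volume {x : ℂ | x ∈ cthickening ρ S ∧ closedBall x (ρ + 3 * η) ⊆ A} ≤
      ENNReal.ofReal (2 * (ρ + 2 * η)) * (μH[1] (S ∩ A) + ENNReal.ofReal η) +
        ENNReal.ofReal (Real.pi * (ρ + 2 * η) ^ 2) := by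
  obtain ⟨v0, l, hv0, hval, hlS, hshort, hnet, hw⟩ := exists_net hc hS hfin hη
  have hρ' : 0 ≤ ρ + 2 * η := by linarith
  have hsub : {x : ℂ | x ∈ cthickening ρ S ∧ closedBall x (ρ + 3 * η) ⊆ A} ⊆
      closedBall v0 (ρ + 2 * η) ∪ {x : ℂ | ∃ e ∈ l, closedBall e.1 η ⊆ A ∧
        e.1 ∈ closedBall x (ρ + 2 * η) ∧ e.2 ∉ closedBall x (ρ + 2 * η)} := by
    rintro x ⟨hx, hxA⟩
    rw [hc.cthickening_eq_biUnion_closedBall hρ.le] at hx
    simp only [mem_iUnion] at hx
    obtain ⟨z, hz, hxz⟩ := hx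
    obtain ⟨w, hw1, hw2⟩ := hnet z hz
    have hwx : w ∈ closedBall x (ρ + 2 * η) := by
      rw [mem_closedBall] at hxz ⊢
      have := dist_triangle w z x
      rw [dist_comm w z, dist_comm z x] at this
      linarith
    rcases exists_entrance hval hw1 hwx with h | ⟨e, he, h1, h2⟩
    · left
      rw [mem_closedBall, dist_comm]
      exact h
    · right
      refine ⟨e, he, fun y hy => hxA ?_, h1, h2⟩
      rw [mem_closedBall] at hy h1 ⊢
      have := dist_triangle y e.1 x
      linarith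
  refine (measure_mono hsub).trans ((volume_entrances_le v0 l hρ' η A).trans ?_)
  rw [add_comm]
  gcongr
  exact hw A hA

end Pool.Agent.W_8c5d11_h22
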