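import Pool.Agent.W_8c5d11_h22.L1

/-!
MP_8c5d11_gt, part L, file L2: short chains in a continuum of finite length.
-/

open MeasureTheory Metric Set
open scoped ENNReal NNReal

namespace Pool.Agent.W_8c5d11_h22

variable {X : Type*} [MetricSpace X] [MeasurableSpace X] [BorelSpace X]

/-- `c 0, ..., c n` is a `δ`-chain from `a` to `b` inside `S`. -/
def IsChainIn (S : Set X) (δ : ℝ) (a b : X) (n : ℕ) (c : ℕ → X) : Prop :=
  c 0 = a ∧ c n = b ∧ (∀ i, c i ∈ S) ∧ ∀ i < n, dist (c i) (c (i + 1)) ≤ δ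

/-- A preconnected set is `δ`-chain connected.  PROOF: the set `U` of points of `S` which are ends of a
`δ`-chain from `a` is relatively open and relatively closed in `S` (if `z` is in `U` then every `w` in `S`
with `dist z w ≤ δ` is in `U`; and symmetrically), so it is all of `S`.  For instance use
`IsPreconnected.subset_left_of_subset_union` or `isPreconnected_iff_subset_of_disjoint` with the open sets
`⋃ z ∈ U, ball z δ` and `⋃ z ∈ S \ U, ball z δ`, which cover `S` and whose intersection contains no point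
of `S`. -/
theorem exists_chain {S : Set X} (hS : IsPreconnected S) {a b : X} (ha : a ∈ S) (hb : b ∈ S) {δ : ℝ}
    (hδ : 0 < δ) : ∃ (n : ℕ) (c : ℕ → X), IsChainIn S δ a b n c := by
  by_contra hcon
  let U : Set X := {z | z ∈ S ∧ ∃ (n : ℕ) (c : ℕ → X), IsChainIn S δ a z n c}
  have haU : a ∈ U :=
    ⟨ha, 0, fun _ => a, rfl, rfl, fun _ => ha, fun i hi => absurd hi (Nat.not_lt_zero i)⟩
  have hbU : b ∉ U := fun h => hcon h.2
  have step : ∀ z w, z ∈ U → w ∈ S → dist z w ≤ δ → w ∈ U := by
    rintro z w ⟨-, n, c, h0, hn, hc, hd⟩ hw hzw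
    refine ⟨hw, n + 1, fun i => if i ≤ n then c i else w, ?_, ?_, ?_, ?_⟩
    · show (if 0 ≤ n then c 0 else w) = a
      rw [if_pos (Nat.zero_le n), h0]
    · show (if n + 1 ≤ n then c (n + 1) else w) = w
      rw [if_neg (by omega)]
    · intro i
      show (if i ≤ n then c i else w) ∈ S
      split_ifs
      · exact hc i
      · exact hw
    · intro i hi
      show dist (if i ≤ n then c i else w) (if i + 1 ≤ n then c (i + 1) else w) ≤ δ
      rw [if_pos (by omega)]
      by_cases h : i + 1 ≤ n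
      · rw [if_pos h]
        exact hd i h
      · rw [if_neg h]
        have e : i = n := by omega
        rw [e, hn]
        exact hzw
  obtain ⟨x, hxS, hx1, hx2⟩ := hS (⋃ z ∈ U, ball z δ) (⋃ z ∈ S \ U, ball z δ)
    (isOpen_biUnion fun _ _ => isOpen_ball) (isOpen_biUnion fun _ _ => isOpen_ball)
    (fun z hz => by
      by_cases h : z ∈ U
      · exact Or.inl (mem_biUnion h (mem_ball_self hδ))
      · exact Or.inr (mem_biUnion (show z ∈ S \ U from ⟨hz, h⟩) (mem_ball_self hδ)))
    ⟨a, ha, mem_biUnion haU (mem_ball_self hδ)⟩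
    ⟨b, hb, mem_biUnion (show b ∈ S \ U from ⟨hb, hbU⟩) (mem_ball_self hδ)⟩
  rw [mem_iUnion₂] at hx1 hx2
  obtain ⟨z1, hz1, h1⟩ := hx1
  obtain ⟨z2, hz2, h2⟩ := hx2
  rw [mem_ball] at h1 h2
  exact hz2.2 (step x z2 (step z1 x hz1 hxS (by rw [dist_comm]; exact h1.le)) hz2.1 h2.le)

end Pool.Agent.W_8c5d11_h22
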