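import Pool.Agent.W_8c5d11_h22.L2

/-!
MP_8c5d11_gt, part L, file L2b: short chains in a continuum of finite length.
-/

open MeasureTheory Metric Set
open scoped ENNReal NNReal

namespace Pool.Agent.W_8c5d11_h22

variable {X : Type*} [MetricSpace X] [MeasurableSpace X] [BorelSpace X]

/-- PROOF: take a chain with the least possible `n` (`Nat.find`).  If `i + 2 ≤ j ≤ n` then
`δ < dist (c i) (c j)`, otherwise one could skip `c (i+1), ..., c (j-1)` and get a shorter chain.  Hence
the balls `ball (c (2 k)) (δ / 2)`, `2 k ≤ n`, are pairwise disjoint.  Each of them carries length at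
least `δ / 2` of `S` by `half_ball`, as `δ < dist a b` implies that `a` or `b` has distance at least
`δ / 2` from `c (2 k)`.  Number of such `k`: `n / 2 + 1 ≥ (n + 1) / 2`.  So `(n + 1) / 2 * (δ / 2) ≤ H`
(sum of the measures of disjoint pieces of `S`; the balls are measurable: `measure_biUnion_finset` or
`tsum`/`sum_measure_le_measure_univ`-style lemmas, after `Measure.restrict`). -/
theorem exists_short_chain {S : Set X} (hS : IsPreconnected S) {a b : X} (ha : a ∈ S) (hb : b ∈ S)
    {H : ℝ} (hH : μH[1] S ≤ ENNReal.ofReal H) {δ : ℝ} (hδ : 0 < δ) (hab : δ < dist a b) :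
    ∃ (n : ℕ) (c : ℕ → X), IsChainIn S δ a b n c ∧ 0 < n ∧ (n : ℝ) * δ ≤ 4 * H := by
  classical
  have hex : ∃ n : ℕ, ∃ c : ℕ → X, IsChainIn S δ a b n c := exists_chain hS ha hb hδ
  obtain ⟨c, hc⟩ := Nat.find_spec hex
  set N := Nat.find hex with hN
  obtain ⟨hc0, hcN, hcS, hcd⟩ := hc
  have hNpos : 0 < N := by
    rcases Nat.eq_zero_or_pos N with h | h
    · exfalso
      rw [h, hc0] at hcN
      rw [hcN, dist_self] at hab
      linarith
    · exact h
  have hfar : ∀ i j, i + 2 ≤ j → j ≤ N → δ < dist (c i) (c j) := by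
    intro i j hij hj
    by_contra hcon
    push Not at hcon
    set m := j - i - 1 with hm
    have hlt : N - m < N := by omega
    refine Nat.find_min hex hlt ⟨fun k => if k ≤ i then c k else c (k + m), ?_, ?_, ?_, ?_⟩
    · simp only [Nat.zero_le, if_true]
      exact hc0
    · have h1 : ¬ (N - m ≤ i) := by omega
      simp only [h1, if_false]
      rw [Nat.sub_add_cancel (by omega)]
      exact hcN
    · intro k
      dsimp only
      split_ifs
      · exact hcS _
      · exact hcS _
    · intro k hk
      dsimp only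
      by_cases h1 : k + 1 ≤ i
      · rw [if_pos (by omega), if_pos h1]
        exact hcd k (by omega)
      · by_cases h2 : k = i
        · rw [if_pos (by omega), if_neg h1, h2]
          have h3 : i + 1 + m = j := by omega
          rw [h3]
          exact hcon
        · rw [if_neg (by omega), if_neg h1]
          have h3 : k + 1 + m = k + m + 1 := by omega
          rw [h3]
          exact hcd _ (by omega)
  have hmass : ∀ k, ENNReal.ofReal (δ / 2) ≤ (μH[1] : Measure X).restrict S (ball (c k) (δ / 2)) := by
    intro k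
    rw [Measure.restrict_apply measurableSet_ball, inter_comm]
    by_cases h : δ / 2 ≤ dist (c k) a
    · exact half_ball hS (hcS k) ha h
    · refine half_ball hS (hcS k) hb ?_
      have h1 := dist_triangle a (c k) b
      rw [dist_comm a (c k)] at h1
      push Not at h
      linarith
  have hdisj : ((Finset.range (N / 2 + 1) : Finset ℕ) : Set ℕ).PairwiseDisjoint
      (fun k => ball (c (2 * k)) (δ / 2)) := by
    intro k hk l hl hkl
    rw [Finset.mem_coe, Finset.mem_range] at hk hl
    refine ball_disjoint_ball ?_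
    rcases Nat.lt_or_gt_of_ne hkl with h | h
    · have := hfar (2 * k) (2 * l) (by omega) (by omega)
      linarith
    · have := hfar (2 * l) (2 * k) (by omega) (by omega)
      rw [dist_comm] at this
      linarith
  have hsum : ∑ k ∈ Finset.range (N / 2 + 1),
      (μH[1] : Measure X).restrict S (ball (c (2 * k)) (δ / 2)) ≤ μH[1] S := by
    rw [← measure_biUnion_finset hdisj fun k _ => measurableSet_ball]
    refine (measure_mono (subset_univ _)).trans ?_
    rw [Measure.restrict_apply_univ]
  have h1 : ∑ _k ∈ Finset.range (N / 2 + 1), ENNReal.ofReal (δ / 2) ≤ ENNReal.ofReal H :=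
    (Finset.sum_le_sum fun k _ => hmass (2 * k)).trans (hsum.trans hH)
  rw [Finset.sum_const, Finset.card_range, nsmul_eq_mul, ← ENNReal.ofReal_natCast,
    ← ENNReal.ofReal_mul (Nat.cast_nonneg _), ENNReal.ofReal_le_ofReal_iff'] at h1
  have h2 : (0 : ℝ) < ((N / 2 + 1 : ℕ) : ℝ) * (δ / 2) := by positivity
  have h3 : ((N / 2 + 1 : ℕ) : ℝ) * (δ / 2) ≤ H := by
    rcases h1 with h1 | h1
    · exact h1
    · linarith
  have h4 : (N : ℝ) ≤ 2 * ((N / 2 + 1 : ℕ) : ℝ) := by
    have : N ≤ 2 * (N / 2 + 1) := by omega
    exact_mod_cast this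
  refine ⟨N, c, ⟨hc0, hcN, hcS, hcd⟩, hNpos, ?_⟩
  nlinarith

end Pool.Agent.W_8c5d11_h22
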