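import Mathlib

/-!
MP_8c5d11_gt, part L, file L3: limits of almost Lipschitz maps; Lipschitz paths; arcs.
-/

open MeasureTheory Metric Set
open scoped ENNReal NNReal

namespace Pool.Agent.W_8c5d11_h22

/-- Limit of almost Lipschitz maps into a compact set.  PROOF (no Arzela-Ascoli needed): choose `g n` for
`ε = 1 / (n + 1)` and let `u` be an ultrafilter on `ℕ` finer than `atTop` (`Filter.hyperfilter ℕ`).  For
every `t` in `[0, 1]` the sequence `g n t` lies in the compact set `S`, so it converges along `u` to a point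
`f t` of `S` (`IsCompact.ultrafilter_le_nhds'` or `IsCompact.ultrafilter_le_nhds` applied to the map of the
ultrafilter).  The distance inequality passes to the limit (`le_of_tendsto'`/`le_of_tendsto_of_tendsto'`);
`g n 0 = a` gives `f 0 = a`, etc.  For `t` outside `[0, 1]` the same definition works, as `g n t ∈ S`. -/
theorem lipschitz_of_approx {X : Type*} [MetricSpace X] {S : Set X} (hS : IsCompact S) {a b : X} {L : ℝ}
    (h : ∀ ε : ℝ, 0 < ε → ∃ f : ℝ → X, (∀ t, f t ∈ S) ∧ f 0 = a ∧ f 1 = b ∧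
      ∀ s ∈ Icc (0:ℝ) 1, ∀ t ∈ Icc (0:ℝ) 1, dist (f s) (f t) ≤ (L + ε) * |s - t| + ε) :
    ∃ f : ℝ → X, (∀ t, f t ∈ S) ∧ f 0 = a ∧ f 1 = b ∧
      ∀ s ∈ Icc (0:ℝ) 1, ∀ t ∈ Icc (0:ℝ) 1, dist (f s) (f t) ≤ L * |s - t| := by
  have hn : ∀ n : ℕ, (0:ℝ) < 1 / ((n : ℝ) + 1) := fun n => Nat.one_div_pos_of_nat
  choose g hgS hg0 hg1 hgd using fun n : ℕ => h (1 / ((n : ℝ) + 1)) (hn n)
  have hlim : ∀ t, ∃ x ∈ S, Filter.Tendsto (fun n => g n t) (Filter.hyperfilter ℕ : Filter ℕ)
      (nhds x) := by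
    intro t
    have h1 : (((Filter.hyperfilter ℕ).map (fun n => g n t) : Ultrafilter X) : Filter X) ≤
        Filter.principal S := by
      rw [Ultrafilter.coe_map, Filter.le_principal_iff, Filter.mem_map]
      exact Filter.univ_mem' fun n => hgS n t
    obtain ⟨x, hx, hx2⟩ := hS.ultrafilter_le_nhds _ h1
    exact ⟨x, hx, hx2⟩
  choose f hfS hf using hlim
  have hu : (Filter.hyperfilter ℕ : Filter ℕ) ≤ Filter.atTop := Nat.hyperfilter_le_atTop
  refine ⟨f, hfS, ?_, ?_, fun s hs t ht => ?_⟩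
  · refine tendsto_nhds_unique (hf 0) ?_
    simp only [hg0]
    exact tendsto_const_nhds
  · refine tendsto_nhds_unique (hf 1) ?_
    simp only [hg1]
    exact tendsto_const_nhds
  · have h1 : Filter.Tendsto (fun n : ℕ => 1 / ((n : ℝ) + 1)) (Filter.hyperfilter ℕ : Filter ℕ)
        (nhds 0) := tendsto_one_div_add_atTop_nhds_zero_nat.mono_left hu
    have h2 : Filter.Tendsto (fun n : ℕ => (L + 1 / ((n : ℝ) + 1)) * |s - t| + 1 / ((n : ℝ) + 1))
        (Filter.hyperfilter ℕ : Filter ℕ) (nhds ((L + 0) * |s - t| + 0)) :=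
      ((tendsto_const_nhds.add h1).mul tendsto_const_nhds).add h1
    rw [add_zero, add_zero] at h2
    exact le_of_tendsto_of_tendsto' ((hf s).dist (hf t)) h2 fun n => hgd n s hs t ht

end Pool.Agent.W_8c5d11_h22
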