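import Pool.Agent.W_8c5d11_h22.L2b
import Pool.Agent.W_8c5d11_h22.L3

/-!
MP_8c5d11_gt, part L, file L4: Lipschitz paths and arcs in a continuum of finite length.
-/

open MeasureTheory Metric Set
open scoped ENNReal NNReal

namespace Pool.Agent.W_8c5d11_h22

variable {X : Type*} [MetricSpace X] [MeasurableSpace X] [BorelSpace X]

/-- Two points of a chain. -/
theorem L4_chain_dist {S : Set X} {δ : ℝ} {a b : X} {n : ℕ} {c : ℕ → X}
    (hc : IsChainIn S δ a b n c) (i : ℕ) :
    ∀ k, i + k ≤ n → dist (c i) (c (i + k)) ≤ k * δ := by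
  intro k
  induction k with
  | zero =>
    intro _
    simp
  | succ k ih =>
    intro hk
    have h1 := ih (by omega)
    have h2 := hc.2.2.2 (i + k) (by omega)
    have h3 := dist_triangle (c i) (c (i + k)) (c (i + k + 1))
    have h4 : ((k + 1 : ℕ) : ℝ) * δ = k * δ + δ := by push_cast; ring
    rw [h4]
    exact h3.trans (add_le_add h1 h2)

/-- PROOF: `L = 4 H` with `H = (μH[1] S).toReal`.  Apply `lipschitz_of_approx`: for `ε > 0` take
`δ = min (ε / 2) (dist a b / 2)` (if `a = b` a constant map works), a chain `c` with `n` steps from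
`exists_short_chain` and `f t = c (min n ⌊n t⌋₊)` for `t ≥ 0` and `f t = a` for `t < 0` (take care that
`f 1 = b`).  For `s ≤ t` in `[0, 1]` the indices differ by at most `n (t - s) + 1`, so
`dist (f s) (f t) ≤ (n (t - s) + 1) δ ≤ 4 H |s - t| + δ`. -/
theorem exists_lipschitz_path {S : Set X} (hc : IsCompact S) (hS : IsPreconnected S)
    (hfin : μH[1] S ≠ ⊤) {a b : X} (ha : a ∈ S) (hb : b ∈ S) :
    ∃ (L : ℝ) (f : ℝ → X), 0 ≤ L ∧ (∀ t, f t ∈ S) ∧ f 0 = a ∧ f 1 = b ∧
      ∀ s ∈ Icc (0:ℝ) 1, ∀ t ∈ Icc (0:ℝ) 1, dist (f s) (f t) ≤ L * |s - t| := by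
  by_cases hab : a = b
  · subst hab
    refine ⟨0, fun _ => a, le_refl _, fun _ => ha, rfl, rfl, fun s _ t _ => ?_⟩
    simp
  have hd : 0 < dist a b := dist_pos.2 hab
  have hH : μH[1] S ≤ ENNReal.ofReal (μH[1] S).toReal := (ENNReal.ofReal_toReal hfin).ge
  have hH0 : 0 ≤ (μH[1] S).toReal := ENNReal.toReal_nonneg
  obtain ⟨f, hf⟩ := lipschitz_of_approx (L := 4 * (μH[1] S).toReal) hc (a := a) (b := b) (by
    intro ε hε
    obtain ⟨n, c, hch, hn, hnd⟩ := exists_short_chain hS ha hb hH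
      (δ := min ε (dist a b / 2)) (lt_min hε (half_pos hd))
      ((min_le_right _ _).trans_lt (half_lt_self hd))
    have hδε : min ε (dist a b / 2) ≤ ε := min_le_left _ _
    have hδ0 : 0 < min ε (dist a b / 2) := lt_min hε (half_pos hd)
    generalize min ε (dist a b / 2) = δ at hch hnd hδε hδ0
    have key : ∀ s t : ℝ, 0 ≤ s → s ≤ t →
        dist (c (min n ⌊(n : ℝ) * s⌋₊)) (c (min n ⌊(n : ℝ) * t⌋₊)) ≤
          (4 * (μH[1] S).toReal + ε) * (t - s) + ε := by
      intro s t hs hst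
      have hn0 : (0 : ℝ) ≤ n := Nat.cast_nonneg _
      have hpq : ⌊(n : ℝ) * s⌋₊ ≤ ⌊(n : ℝ) * t⌋₊ :=
        Nat.floor_le_floor (mul_le_mul_of_nonneg_left hst hn0)
      have hq : ((⌊(n : ℝ) * t⌋₊ : ℕ) : ℝ) ≤ n * t :=
        Nat.floor_le (mul_nonneg hn0 (hs.trans hst))
      have hp : (n : ℝ) * s < ((⌊(n : ℝ) * s⌋₊ : ℕ) : ℝ) + 1 := Nat.lt_floor_add_one _
      generalize ⌊(n : ℝ) * s⌋₊ = p at hpq hp
      generalize ⌊(n : ℝ) * t⌋₊ = q at hpq hq
      obtain ⟨k, hk⟩ : ∃ k, min n q = min n p + k := ⟨min n q - min n p, by omega⟩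
      have h1 := L4_chain_dist hch (min n p) k (by omega)
      rw [← hk] at h1
      have h2 : (k : ℝ) ≤ q - p := by
        have h3 : k + p ≤ q := by omega
        have h4 : (k : ℝ) + p ≤ q := by exact_mod_cast h3
        linarith
      have h3 : (k : ℝ) * δ ≤ (n * (t - s) + 1) * δ :=
        mul_le_mul_of_nonneg_right (by linarith) hδ0.le
      have h4 : (n : ℝ) * δ * (t - s) ≤ 4 * (μH[1] S).toReal * (t - s) :=
        mul_le_mul_of_nonneg_right hnd (by linarith)
      have h5 : 0 ≤ ε * (t - s) := mul_nonneg hε.le (by linarith)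
      calc dist (c (min n p)) (c (min n q)) ≤ k * δ := h1
        _ ≤ (n * (t - s) + 1) * δ := h3
        _ = n * δ * (t - s) + δ := by ring
        _ ≤ 4 * (μH[1] S).toReal * (t - s) + ε := add_le_add h4 hδε
        _ ≤ (4 * (μH[1] S).toReal + ε) * (t - s) + ε := by
          rw [add_mul]
          linarith
    refine ⟨fun t => c (min n ⌊(n : ℝ) * t⌋₊), fun t => hch.2.2.1 _, ?_, ?_, ?_⟩
    · change c (min n ⌊(n : ℝ) * 0⌋₊) = a
      rw [mul_zero, Nat.floor_zero, Nat.min_zero]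
      exact hch.1
    · change c (min n ⌊(n : ℝ) * 1⌋₊) = b
      rw [mul_one, Nat.floor_natCast, min_self]
      exact hch.2.1
    · intro s hs t ht
      rcases le_total s t with hst | hst
      · have h1 := key s t hs.1 hst
        rw [abs_sub_comm, abs_of_nonneg (sub_nonneg.2 hst)]
        exact h1
      · have h1 := key t s ht.1 hst
        rw [abs_of_nonneg (sub_nonneg.2 hst), dist_comm]
        exact h1)
  exact ⟨4 * (μH[1] S).toReal, f, by positivity, hf⟩

end Pool.Agent.W_8c5d11_h22
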