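import Pool.Agent.W_8c5d11_h22.L4

/-!
MP_8c5d11_gt, part L, file L4b: arcs in a continuum of finite length.
-/

open MeasureTheory Metric Set
open scoped ENNReal NNReal

namespace Pool.Agent.W_8c5d11_h22

variable {X : Type*} [MetricSpace X] [MeasurableSpace X] [BorelSpace X]

omit [MeasurableSpace X] [BorelSpace X] in
private theorem L4b_cut {S : Set X} {a b : X} (hab : a ≠ b) (f : ℝ → X) (L : ℝ)
    (hfS : ∀ t, f t ∈ S) (hf0 : f 0 = a) (hf1 : f 1 = b)
    (hfL : ∀ s ∈ Icc (0:ℝ) 1, ∀ t ∈ Icc (0:ℝ) 1, dist (f s) (f t) ≤ L * |s - t|)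
    (s t : ℝ) (hs : s ∈ Icc (0:ℝ) 1) (ht : t ∈ Icc (0:ℝ) 1) (hst : s < t) (hfst : f s = f t) :
    t - s < 1 ∧ ∃ g : ℝ → X, (∀ t, g t ∈ S) ∧ g 0 = a ∧ g 1 = b ∧
      ∀ u ∈ Icc (0:ℝ) 1, ∀ v ∈ Icc (0:ℝ) 1, dist (g u) (g v) ≤ (1 - (t - s)) * L * |u - v| := by
  obtain ⟨hs0, hs1⟩ := hs
  obtain ⟨ht0, ht1⟩ := ht
  have hd1 : t - s < 1 := by
    by_contra hcon
    push Not at hcon
    have e1 : s = 0 := by linarith
    have e2 : t = 1 := by linarith
    rw [e1, e2, hf0, hf1] at hfst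
    exact hab hfst
  refine ⟨hd1, ?_⟩
  obtain ⟨d, hd⟩ : ∃ d, d = t - s := ⟨_, rfl⟩
  rw [← hd] at hd1 ⊢
  have hd0 : 0 < d := by linarith
  refine ⟨fun u => if (1 - d) * u ≤ s then f ((1 - d) * u) else f ((1 - d) * u + d),
    fun u => ?_, ?_, ?_, ?_⟩
  · beta_reduce
    split_ifs
    · exact hfS _
    · exact hfS _
  · beta_reduce
    rw [mul_zero, if_pos hs0, hf0]
  · beta_reduce
    rw [mul_one]
    by_cases h1 : 1 - d ≤ s
    · rw [if_pos h1]
      have e2 : t = 1 := by linarith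
      have e1 : 1 - d = s := by linarith
      rw [e1, hfst, e2, hf1]
    · rw [if_neg h1, sub_add_cancel, hf1]
  · have key : ∀ u ∈ Icc (0:ℝ) 1, ∀ v ∈ Icc (0:ℝ) 1, u ≤ v →
        dist (if (1 - d) * u ≤ s then f ((1 - d) * u) else f ((1 - d) * u + d))
          (if (1 - d) * v ≤ s then f ((1 - d) * v) else f ((1 - d) * v + d)) ≤
          (1 - d) * L * |u - v| := by
      rintro u ⟨hu0, hu1⟩ v ⟨hv0, hv1⟩ huv
      have hc : 0 ≤ 1 - d := by linarith
      have hu2 : 0 ≤ (1 - d) * u := mul_nonneg hc hu0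
      have hv2 : 0 ≤ (1 - d) * v := mul_nonneg hc hv0
      have hu3 : (1 - d) * u ≤ 1 - d := by nlinarith
      have hv3 : (1 - d) * v ≤ 1 - d := by nlinarith
      have huv2 : (1 - d) * u ≤ (1 - d) * v := mul_le_mul_of_nonneg_left huv hc
      have hau : |u - v| = v - u := by
        rw [abs_sub_comm]
        exact abs_of_nonneg (by linarith)
      by_cases h1 : (1 - d) * u ≤ s
      · rw [if_pos h1]
        by_cases h2 : (1 - d) * v ≤ s
        · rw [if_pos h2]
          refine (hfL _ ⟨hu2, by linarith⟩ _ ⟨hv2, by linarith⟩).trans (le_of_eq ?_)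
          rw [← mul_sub, abs_mul, abs_of_nonneg hc]
          ring
        · rw [if_neg h2]
          push Not at h2
          have h3 := hfL ((1 - d) * u) ⟨hu2, by linarith⟩ s ⟨hs0, hs1⟩
          have h4 := hfL t ⟨ht0, ht1⟩ ((1 - d) * v + d) ⟨by linarith, by linarith⟩
          have h5 : |(1 - d) * u - s| = s - (1 - d) * u := by
            rw [abs_sub_comm]
            exact abs_of_nonneg (by linarith)
          have h6 : |t - ((1 - d) * v + d)| = (1 - d) * v + d - t := by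
            rw [abs_sub_comm]
            exact abs_of_nonneg (by linarith)
          rw [h5] at h3
          rw [h6] at h4
          calc dist (f ((1 - d) * u)) (f ((1 - d) * v + d))
              ≤ dist (f ((1 - d) * u)) (f s) + dist (f s) (f ((1 - d) * v + d)) :=
                dist_triangle _ _ _
            _ ≤ L * (s - (1 - d) * u) + L * ((1 - d) * v + d - t) := by
                rw [hfst] at h3 ⊢
                exact add_le_add h3 h4
            _ = (1 - d) * L * |u - v| := by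
                rw [hau, hd]
                ring
      · have h2 : ¬ (1 - d) * v ≤ s := fun h => h1 (huv2.trans h)
        rw [if_neg h1, if_neg h2]
        refine (hfL _ ⟨by linarith, by linarith⟩ _ ⟨by linarith, by linarith⟩).trans
          (le_of_eq ?_)
        have h7 : (1 - d) * u + d - ((1 - d) * v + d) = (1 - d) * (u - v) := by ring
        rw [h7, abs_mul, abs_of_nonneg hc]
        ring
    intro u hu v hv
    rcases le_total u v with h | h
    · exact key u hu v hv h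
    · have h8 := key v hv u hu h
      rw [dist_comm, abs_sub_comm] at h8
      exact h8

/-- PROOF: let `L` be the infimum of the set of all `L ≥ 0` for which there is an `L`-Lipschitz map as in
`exists_lipschitz_path` (nonempty by that theorem, bounded below by `0`).  By `lipschitz_of_approx` the
infimum is attained, by `f` say.  As `a ≠ b`, `L > 0`.  If `f s = f t` with `s < t` in `[0, 1]`, cut out the
piece: `d = t - s > 0`, `d < 1` (else `a = b`), `g u = f ((1 - d) u)` if `(1 - d) u ≤ s` and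
`g u = f ((1 - d) u + d)` otherwise.  Then `g 0 = a`, `g 1 = b`, and `g` is `(1 - d) L`-Lipschitz on
`[0, 1]`, a contradiction to minimality. -/
theorem exists_arc {S : Set X} (hc : IsCompact S) (hS : IsPreconnected S) (hfin : μH[1] S ≠ ⊤)
    {a b : X} (ha : a ∈ S) (hb : b ∈ S) (hab : a ≠ b) :
    ∃ f : ℝ → X, (∀ t, f t ∈ S) ∧ f 0 = a ∧ f 1 = b ∧ ContinuousOn f (Icc (0:ℝ) 1) ∧
      InjOn f (Icc (0:ℝ) 1) := by
  obtain ⟨Λ, hΛ⟩ : ∃ Λ : Set ℝ, Λ = {L | 0 ≤ L ∧ ∃ f : ℝ → X, (∀ t, f t ∈ S) ∧ f 0 = a ∧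
      f 1 = b ∧ ∀ s ∈ Icc (0:ℝ) 1, ∀ t ∈ Icc (0:ℝ) 1, dist (f s) (f t) ≤ L * |s - t|} :=
    ⟨_, rfl⟩
  have hmem : ∀ L, L ∈ Λ ↔ 0 ≤ L ∧ ∃ f : ℝ → X, (∀ t, f t ∈ S) ∧ f 0 = a ∧
      f 1 = b ∧ ∀ s ∈ Icc (0:ℝ) 1, ∀ t ∈ Icc (0:ℝ) 1, dist (f s) (f t) ≤ L * |s - t| := by
    intro L
    rw [hΛ]
    exact Iff.rfl
  have hne : Λ.Nonempty := by
    obtain ⟨L, f, h0, h1, h2, h3, h4⟩ := exists_lipschitz_path hc hS hfin ha hb
    exact ⟨L, (hmem L).2 ⟨h0, f, h1, h2, h3, h4⟩⟩
  have hbdd : BddBelow Λ := ⟨0, fun L hL => ((hmem L).1 hL).1⟩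
  have hL0 : 0 ≤ sInf Λ := le_csInf hne fun L hL => ((hmem L).1 hL).1
  obtain ⟨L, hL⟩ : ∃ L, L = sInf Λ := ⟨_, rfl⟩
  obtain ⟨f, hfS, hf0, hf1, hfL⟩ := lipschitz_of_approx (L := L) (a := a) (b := b) hc (by
    intro ε hε
    obtain ⟨L', hL', hlt⟩ := exists_lt_of_csInf_lt hne (show sInf Λ < L + ε by linarith)
    obtain ⟨_, g, h1, h2, h3, h4⟩ := (hmem L').1 hL'
    refine ⟨g, h1, h2, h3, fun s hs t ht => (h4 s hs t ht).trans ?_⟩
    have h5 : L' * |s - t| ≤ (L + ε) * |s - t| :=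
      mul_le_mul_of_nonneg_right hlt.le (abs_nonneg _)
    linarith)
  have hLpos : 0 < L := by
    have h1 := hfL 0 ⟨le_refl _, zero_le_one⟩ 1 ⟨zero_le_one, le_refl _⟩
    rw [hf0, hf1] at h1
    have h2 : 0 < dist a b := dist_pos.2 hab
    have h3 : |(0:ℝ) - 1| = 1 := by norm_num
    rw [h3, mul_one] at h1
    linarith
  have hno : ∀ s ∈ Icc (0:ℝ) 1, ∀ t ∈ Icc (0:ℝ) 1, s < t → f s ≠ f t := by
    intro s hs t ht hst hfst
    obtain ⟨hd1, g, h1, h2, h3, h4⟩ := L4b_cut hab f L hfS hf0 hf1 hfL s t hs ht hst hfst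
    have h5 : (1 - (t - s)) * L ∈ Λ :=
      (hmem _).2 ⟨mul_nonneg (by linarith) hLpos.le, g, h1, h2, h3, h4⟩
    have h6 := csInf_le hbdd h5
    rw [← hL] at h6
    have h7 : 0 < (t - s) * L := mul_pos (by linarith) hLpos
    nlinarith
  refine ⟨f, hfS, hf0, hf1, ?_, ?_⟩
  · have h1 : LipschitzOnWith (Real.toNNReal L) f (Icc (0:ℝ) 1) := by
      apply LipschitzOnWith.of_dist_le_mul
      intro s hs t ht
      rw [Real.coe_toNNReal L hLpos.le, Real.dist_eq]
      exact hfL s hs t ht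
    exact h1.continuousOn
  · intro s hs t ht hst
    rcases lt_trichotomy s t with h | h | h
    · exact absurd hst (hno s hs t ht h)
    · exact h
    · exact absurd hst.symm (hno t ht s hs h)

end Pool.Agent.W_8c5d11_h22
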