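import Mathlib

/-!
MP_8c5d11_gt, part L, file L5: finite rooted trees given by lists of edges, and the number of entrances.
-/

open MeasureTheory Metric Set
open scoped ENNReal NNReal

namespace Pool.Agent.W_8c5d11_h22

/-- The list `l` of pairs (child, parent) is a valid rooted tree with root `v0`: every parent is the root
or the child of an edge that comes later in the list (the newest edge is the head). -/
def Valid {X : Type*} (v0 : X) : List (X × X) → Prop
  | [] => True
  | e :: l => (e.2 = v0 ∨ ∃ e' ∈ l, e'.1 = e.2) ∧ Valid v0 l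

/-- The nodes of the tree. -/
def IsNode {X : Type*} (v0 : X) (l : List (X × X)) (z : X) : Prop :=
  z = v0 ∨ ∃ e ∈ l, e.1 = z

open Classical in
/-- Number of entrances of the tree into the set `A`: `1` if the root is in `A`, plus the number of edges
whose child is in `A` and whose parent is not. -/
noncomputable def entr {X : Type*} (v0 : X) : List (X × X) → Set X → ℝ≥0∞
  | [], A => if v0 ∈ A then 1 else 0
  | e :: l, A => (if e.1 ∈ A ∧ e.2 ∉ A then 1 else 0) + entr v0 l A

private theorem L5_node_cons {X : Type*} {v0 : X} {e : X × X} {l : List (X × X)} {z : X}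
    (hz : IsNode v0 (e :: l) z) : z = e.1 ∨ IsNode v0 l z := by
  rcases hz with hz | ⟨e', he', hz⟩
  · exact Or.inr (Or.inl hz)
  · rcases List.mem_cons.1 he' with rfl | h
    · exact Or.inl hz.symm
    · exact Or.inr (Or.inr ⟨e', h, hz⟩)

private theorem L5_node_nil {X : Type*} {v0 z : X} (hz : IsNode v0 [] z) : z = v0 := by
  rcases hz with hz | ⟨e', he', _⟩
  · exact hz
  · exact absurd he' List.not_mem_nil

/-- PROOF: induction on `l`.  For `e :: l`: if `z` is a node of `l`, use the induction hypothesis.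
Otherwise `z = e.1`; if `e.2 ∉ A` the head contributes `1`; if `e.2 ∈ A`, then `e.2` is a node of `l` in
`A`, use the induction hypothesis for `e.2`. -/
theorem one_le_entr {X : Type*} {v0 : X} {l : List (X × X)} (h : Valid v0 l) {A : Set X} {z : X}
    (hz : IsNode v0 l z) (hzA : z ∈ A) : 1 ≤ entr v0 l A := by
  induction l generalizing z with
  | nil =>
    rw [L5_node_nil hz] at hzA
    unfold entr
    rw [if_pos hzA]
  | cons e l ih =>
    obtain ⟨h1, h2⟩ := h
    unfold entr
    rcases L5_node_cons hz with rfl | hz'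
    · by_cases hA : e.2 ∈ A
      · exact (ih h2 (h1.imp id fun ⟨e', he', h⟩ => ⟨e', he', h⟩) hA).trans le_add_self
      · rw [if_pos ⟨hzA, hA⟩]
        exact le_self_add
    · exact (ih h2 hz' hzA).trans le_add_self

open Classical in
private theorem L5_split {X : Type*} {v0 : X} {l : List (X × X)} {A P : Set X}
    (hcross : ∀ e ∈ l, e.1 ∈ A → e.2 ∈ A → (e.1 ∈ P ↔ e.2 ∈ P)) :
    entr v0 l A = entr v0 l (A ∩ P) + entr v0 l (A ∩ Pᶜ) := by
  induction l with
  | nil =>
    unfold entr
    by_cases h1 : v0 ∈ A <;> by_cases h2 : v0 ∈ P <;> simp [h1, h2]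
  | cons e l ih =>
    have ih' := ih fun e' he' => hcross e' (List.mem_cons_of_mem _ he')
    have hc := hcross e List.mem_cons_self
    unfold entr
    rw [ih']
    have h : (if e.1 ∈ A ∧ e.2 ∉ A then (1 : ℝ≥0∞) else 0) =
        (if e.1 ∈ A ∩ P ∧ e.2 ∉ A ∩ P then 1 else 0) +
          (if e.1 ∈ A ∩ Pᶜ ∧ e.2 ∉ A ∩ Pᶜ then 1 else 0) := by
      by_cases h1 : e.1 ∈ A <;> by_cases h2 : e.2 ∈ A <;> by_cases h3 : e.1 ∈ P <;>
        by_cases h4 : e.2 ∈ P <;> simp_all
    rw [h, add_add_add_comm]
    congr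

/-- PROOF: `entr v0 l A = entr v0 l (A ∩ P) + entr v0 l (A ∩ Pᶜ)` when no edge inside `A` joins `P` and its
complement (induction on `l`; for an edge with child in `A ∩ P`: its parent is outside `A` iff it is
outside `A ∩ P`, because a parent in `A` would be in `P`).  Then `one_le_entr` twice. -/
theorem two_le_entr {X : Type*} {v0 : X} {l : List (X × X)} (h : Valid v0 l) {A P : Set X} {z w : X}
    (hz : IsNode v0 l z) (hzA : z ∈ A) (hzP : z ∈ P) (hw : IsNode v0 l w) (hwA : w ∈ A) (hwP : w ∉ P)
    (hcross : ∀ e ∈ l, e.1 ∈ A → e.2 ∈ A → (e.1 ∈ P ↔ e.2 ∈ P)) : 2 ≤ entr v0 l A := by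
  rw [L5_split hcross, ← one_add_one_eq_two]
  exact add_le_add (one_le_entr h hz ⟨hzA, hzP⟩) (one_le_entr h hw ⟨hwA, hwP⟩)

/-- If `A` has an entrance then `A` contains the root or an edge enters `A`.  PROOF: induction. -/
theorem exists_entrance {X : Type*} {v0 : X} {l : List (X × X)} (h : Valid v0 l) {A : Set X} {z : X}
    (hz : IsNode v0 l z) (hzA : z ∈ A) : v0 ∈ A ∨ ∃ e ∈ l, e.1 ∈ A ∧ e.2 ∉ A := by
  induction l generalizing z with
  | nil =>
    rw [L5_node_nil hz] at hzA
    exact Or.inl hzA
  | cons e l ih =>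
    obtain ⟨h1, h2⟩ := h
    have key : IsNode v0 l e.2 := h1.imp id fun ⟨e', he', h⟩ => ⟨e', he', h⟩
    rcases L5_node_cons hz with rfl | hz'
    · by_cases hA : e.2 ∈ A
      · rcases ih h2 key hA with h | ⟨e', he', h⟩
        · exact Or.inl h
        · exact Or.inr ⟨e', List.mem_cons_of_mem _ he', h⟩
      · exact Or.inr ⟨e, List.mem_cons_self, hzA, hA⟩
    · rcases ih h2 hz' hzA with h | ⟨e', he', h⟩
      · exact Or.inl h
      · exact Or.inr ⟨e', List.mem_cons_of_mem _ he', h⟩

open Classical in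
/-- Total length of the edges of `l` whose child has its closed `η`-ball inside `A`. -/
noncomputable def wsum {X : Type*} [MetricSpace X] (η : ℝ) (A : Set X) : List (X × X) → ℝ≥0∞
  | [] => 0
  | e :: l => (if closedBall e.1 η ⊆ A then edist e.1 e.2 else 0) + wsum η A l

theorem wsum_mono {X : Type*} [MetricSpace X] {η η' : ℝ} (h : η' ≤ η) (A : Set X)
    (l : List (X × X)) : wsum η A l ≤ wsum η' A l := by
  induction l with
  | nil => exact le_refl _
  | cons e l ih =>
    unfold wsum
    refine add_le_add ?_ ih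
    by_cases h1 : closedBall e.1 η ⊆ A
    · rw [if_pos h1, if_pos ((closedBall_subset_closedBall h).trans h1)]
    · rw [if_neg h1]
      exact zero_le

end Pool.Agent.W_8c5d11_h22
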