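import Pool.Agent.W_8c5d11_h22.L1
import Pool.Agent.W_8c5d11_h22.L5

/-!
MP_8c5d11_gt, part L, file L6: growing a discrete tree inside a continuum of finite length.
-/

open MeasureTheory Metric Set
open scoped ENNReal NNReal

namespace Pool.Agent.W_8c5d11_h22

variable {X : Type*} [MetricSpace X] [MeasurableSpace X] [BorelSpace X]

/-- A discrete tree `l` with root `v0` that follows the closed subset `T` of `S` with mesh `η`; the
weight of its edges is controlled by the length of `T` up to an error `κ`. -/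
structure IsNet (S : Set X) (η : ℝ) (κ : ℝ≥0∞) (v0 : X) (l : List (X × X)) (T : Set X) : Prop where
  root_mem : v0 ∈ T
  sub : T ⊆ S
  closed : IsClosed T
  valid : Valid v0 l
  mem : ∀ e ∈ l, e.1 ∈ S ∧ e.2 ∈ S
  short : ∀ e ∈ l, dist e.1 e.2 ≤ η
  near : ∀ z ∈ T, ∃ w, IsNode v0 l w ∧ dist z w ≤ η
  weight : ∀ A : Set X, MeasurableSet A → wsum η A l ≤ μH[1] (T ∩ A) + κ

/-- Start: a single point. -/
theorem isNet_single {S : Set X} {η : ℝ} (hη : 0 ≤ η) {v0 : X} (hv : v0 ∈ S) :
    IsNet S η 0 v0 [] {v0} where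
  root_mem := mem_singleton v0
  sub := singleton_subset_iff.2 hv
  closed := isClosed_singleton
  valid := trivial
  mem := fun e he => absurd he (by simp)
  short := fun e he => absurd he (by simp)
  near := fun z hz => ⟨v0, Or.inl rfl, by rw [mem_singleton_iff.1 hz, dist_self]; exact hη⟩
  weight := fun A _ => by
    rw [wsum]
    exact zero_le

/-- Adding an attachment edge: `z ∈ T` gets a node of its own. -/
theorem IsNet.attach {S : Set X} {η : ℝ} {κ : ℝ≥0∞} {v0 : X} {l : List (X × X)} {T : Set X}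
    (h : IsNet S η κ v0 l T) {z : X} (hz : z ∈ T) :
    ∃ w, IsNet S η (κ + ENNReal.ofReal η) v0 ((z, w) :: l) T := by
  obtain ⟨w, hw, hzw⟩ := h.near z hz
  have hwS : w ∈ S := by
    rcases hw with rfl | ⟨e, he, rfl⟩
    · exact h.sub h.root_mem
    · exact (h.mem e he).1
  refine ⟨w, ⟨h.root_mem, h.sub, h.closed, ⟨hw, h.valid⟩, ?_, ?_, ?_, ?_⟩⟩
  · intro e he
    rcases List.mem_cons.1 he with rfl | he
    · exact ⟨h.sub hz, hwS⟩
    · exact h.mem e he
  · intro e he
    rcases List.mem_cons.1 he with rfl | he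
    · exact hzw
    · exact h.short e he
  · intro y hy
    obtain ⟨u, hu, hyu⟩ := h.near y hy
    refine ⟨u, ?_, hyu⟩
    rcases hu with hu | ⟨e, he, heu⟩
    · exact Or.inl hu
    · exact Or.inr ⟨e, List.mem_cons_of_mem _ he, heu⟩
  · intro A hA
    classical
    rw [wsum]
    have h1 : (if closedBall z η ⊆ A then edist z w else 0) ≤ ENNReal.ofReal η := by
      split_ifs
      · rw [edist_dist]
        exact ENNReal.ofReal_le_ofReal hzw
      · exact zero_le
    calc (if closedBall z η ⊆ A then edist z w else 0) + wsum η A l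
        ≤ ENNReal.ofReal η + (μH[1] (T ∩ A) + κ) := add_le_add h1 (h.weight A hA)
      _ = μH[1] (T ∩ A) + (κ + ENNReal.ofReal η) := by ring

/-- Adding a piece `γ` of an arc: `γ` is closed, connected, contained in `S` and in the closed `η`-ball
around `v`, contains the old node `p` and the new node `v`, and meets `T` in a null set.  PROOF of
`weight`: if `closedBall v η ⊆ A` then `γ ⊆ A`, so `edist v p ≤ μH[1] γ = μH[1] (γ ∩ A)` by
`edist_le_length`, and `μH[1] ((T ∪ γ) ∩ A) = μH[1] (T ∩ A) + μH[1] (γ ∩ A)` (almost disjoint closed sets: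
`measure_union₀`, `AEDisjoint`). -/
theorem IsNet.cons {S : Set X} {η : ℝ} {κ : ℝ≥0∞} {v0 : X} {l : List (X × X)} {T : Set X}
    (h : IsNet S η κ v0 l T) {p v : X} {γ : Set X} (hp : IsNode v0 l p) (hpS : p ∈ S)
    (hγc : IsClosed γ) (hγ : IsPreconnected γ) (hγS : γ ⊆ S) (hpγ : p ∈ γ) (hvγ : v ∈ γ)
    (hball : γ ⊆ closedBall v η) (hnull : μH[1] (γ ∩ T) = 0) :
    IsNet S η κ v0 ((v, p) :: l) (T ∪ γ) := by
  refine ⟨Or.inl h.root_mem, union_subset h.sub hγS, h.closed.union hγc, ⟨hp, h.valid⟩,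
    ?_, ?_, ?_, ?_⟩
  · intro e he
    rcases List.mem_cons.1 he with rfl | he
    · exact ⟨hγS hvγ, hpS⟩
    · exact h.mem e he
  · intro e he
    rcases List.mem_cons.1 he with rfl | he
    · have := hball hpγ
      rw [mem_closedBall, dist_comm] at this
      exact this
    · exact h.short e he
  · intro y hy
    rcases hy with hy | hy
    · obtain ⟨u, hu, hyu⟩ := h.near y hy
      refine ⟨u, ?_, hyu⟩
      rcases hu with hu | ⟨e, he, heu⟩
      · exact Or.inl hu
      · exact Or.inr ⟨e, List.mem_cons_of_mem _ he, heu⟩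
    · exact ⟨v, Or.inr ⟨(v, p), List.mem_cons_self, rfl⟩, hball hy⟩
  · intro A hA
    classical
    rw [wsum]
    have hun : μH[1] ((T ∪ γ) ∩ A) = μH[1] (T ∩ A) + μH[1] (γ ∩ A) := by
      rw [union_inter_distrib_right]
      apply measure_union₀
      · exact (hγc.measurableSet.inter hA).nullMeasurableSet
      · refine measure_mono_null ?_ hnull
        rintro y ⟨⟨h1, _⟩, h2, _⟩
        exact ⟨h2, h1⟩
    have h1 : (if closedBall v η ⊆ A then edist v p else 0) ≤ μH[1] (γ ∩ A) := by
      split_ifs with hA2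
      · rw [inter_eq_self_of_subset_left (hball.trans hA2)]
        exact edist_le_length hγ hvγ hpγ
      · exact zero_le
    calc (if closedBall v η ⊆ A then edist v p else 0) + wsum η A l
        ≤ μH[1] (γ ∩ A) + (μH[1] (T ∩ A) + κ) := add_le_add h1 (h.weight A hA)
      _ = μH[1] ((T ∪ γ) ∩ A) + κ := by rw [hun]; ring

end Pool.Agent.W_8c5d11_h22
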