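import Pool.Agent.W_8c5d11_h22.L6

/-!
MP_8c5d11_gt, part L, file L6b: adding an arc.
-/

open MeasureTheory Metric Set
open scoped ENNReal NNReal

namespace Pool.Agent.W_8c5d11_h22

variable {X : Type*} [MetricSpace X] [MeasurableSpace X] [BorelSpace X]

/-- Adding an arc `f` on `[a, b]` that starts at a node `f a` of the tree, `f a ∈ T`, and has no other
point in `T`.  PROOF: by uniform continuity there is `m > 0` such that the oscillation of `f` on each of the
`m` equal parts of `[a, b]` is at most `η`; add the `m` parts one after the other with `IsNet.cons`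
(induction on the number `i` of parts already added, with current set `T ∪ f '' Icc a (a + i (b-a)/m)`);
the intersection of the next part with the current set is the single point `f (a + i (b-a)/m)` by
injectivity, and a single point is null (`measure_singleton`, `NoAtoms (μH[1])`, see
`MeasureTheory.Measure.nullSingletonClass_hausdorff`). -/
theorem IsNet.add_arc {S : Set X} {η : ℝ} (hη : 0 < η) {κ : ℝ≥0∞} {v0 : X} {l : List (X × X)}
    {T : Set X} (h : IsNet S η κ v0 l T) {f : ℝ → X} {a b : ℝ} (hab : a < b)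
    (hfS : ∀ t ∈ Icc a b, f t ∈ S) (hfc : ContinuousOn f (Icc a b)) (hfi : InjOn f (Icc a b))
    (hnode : IsNode v0 l (f a)) (haT : f a ∈ T) (hT : ∀ t ∈ Ioc a b, f t ∉ T) :
    ∃ l' T', IsNet S η κ v0 l' T' ∧ T ⊆ T' ∧ f b ∈ T' := by
  have huc : UniformContinuousOn f (Icc a b) := isCompact_Icc.uniformContinuousOn_of_continuous hfc
  obtain ⟨δ, hδ, hosc⟩ := Metric.uniformContinuousOn_iff.1 huc η hη
  obtain ⟨m, hm0, hm⟩ : ∃ m : ℕ, 0 < m ∧ (b - a) / m < δ := by
    obtain ⟨m, hm⟩ := exists_nat_gt ((b - a) / δ)
    have h0 : 0 < (b - a) / δ := div_pos (sub_pos.2 hab) hδ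
    have hm' : (0 : ℝ) < m := h0.trans hm
    refine ⟨m, Nat.cast_pos.1 hm', ?_⟩
    rw [div_lt_iff₀ hδ] at hm
    rw [div_lt_iff₀ hm', mul_comm]
    exact hm
  have hm' : (0 : ℝ) < m := Nat.cast_pos.2 hm0
  have hstep : 0 < (b - a) / m := div_pos (sub_pos.2 hab) hm'
  let x : ℕ → ℝ := fun i => a + i * ((b - a) / m)
  have hx0 : x 0 = a := by simp [x]
  have hxm : x m = b := by
    simp only [x]
    field_simp
    ring
  have hxs : ∀ i, x (i + 1) = x i + (b - a) / m := fun i => by
    simp only [x]
    push_cast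
    ring
  have hxa : ∀ i, a ≤ x i := fun i => by
    have : 0 ≤ (i : ℝ) * ((b - a) / m) := by positivity
    simp only [x]
    linarith
  have hxmono : ∀ i ≤ m, x i ≤ b := fun i hi => by
    rw [← hxm]
    simp only [x]
    have : (i : ℝ) ≤ m := Nat.cast_le.2 hi
    have := mul_le_mul_of_nonneg_right this hstep.le
    linarith
  have key : ∀ i ≤ m, ∃ l', IsNet S η κ v0 l' (T ∪ f '' Icc a (x i)) ∧ IsNode v0 l' (f (x i)) := by
    intro i
    induction i with
    | zero =>
      intro _
      refine ⟨l, ?_, ?_⟩
      · have e : T ∪ f '' Icc a (x 0) = T := by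
          rw [hx0, Icc_self, image_singleton, union_eq_left, singleton_subset_iff]
          exact haT
        rw [e]
        exact h
      · rw [hx0]
        exact hnode
    | succ i ih =>
      intro hi
      obtain ⟨l', hl', hnode'⟩ := ih (by omega)
      have hle : x i ≤ x (i + 1) := by
        rw [hxs]
        linarith
      have hb1 : x (i + 1) ≤ b := hxmono _ hi
      have hsub : Icc (x i) (x (i + 1)) ⊆ Icc a b := Icc_subset_Icc (hxa i) hb1
      have hγc : IsClosed (f '' Icc (x i) (x (i + 1))) :=
        (isCompact_Icc.image_of_continuousOn (hfc.mono hsub)).isClosed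
      have hnet := hl'.cons (p := f (x i)) (v := f (x (i + 1))) (γ := f '' Icc (x i) (x (i + 1)))
        hnode' (hfS _ (hsub (left_mem_Icc.2 hle))) hγc
        (isPreconnected_Icc.image f (hfc.mono hsub)) ?_ (mem_image_of_mem f (left_mem_Icc.2 hle))
        (mem_image_of_mem f (right_mem_Icc.2 hle)) ?_ ?_
      · refine ⟨(f (x (i + 1)), f (x i)) :: l', ?_,
          Or.inr ⟨(f (x (i + 1)), f (x i)), List.mem_cons_self, rfl⟩⟩
        have e : T ∪ f '' Icc a (x i) ∪ f '' Icc (x i) (x (i + 1)) =
            T ∪ f '' Icc a (x (i + 1)) := by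
          rw [union_assoc, ← image_union, Icc_union_Icc_eq_Icc (hxa i) hle]
        rw [← e]
        exact hnet
      · rintro _ ⟨t, ht, rfl⟩
        exact hfS t (hsub ht)
      · rintro _ ⟨t, ht, rfl⟩
        rw [mem_closedBall]
        refine (hosc t (hsub ht) (x (i + 1)) (hsub (right_mem_Icc.2 hle)) ?_).le
        rw [Real.dist_eq, abs_sub_comm, abs_of_nonneg (sub_nonneg.2 ht.2)]
        have := ht.1
        have h2 := hxs i
        linarith
      · have hsing : f '' Icc (x i) (x (i + 1)) ∩ (T ∪ f '' Icc a (x i)) ⊆ {f (x i)} := by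
          rintro _ ⟨⟨t, ht, rfl⟩, hz | ⟨s, hs, hst⟩⟩
          · have h3 : ¬ t ∈ Ioc a b := fun h4 => hT t h4 hz
            have h4 : t = a := by
              by_contra hne
              exact h3 ⟨lt_of_le_of_ne (hsub ht).1 (Ne.symm hne), (hsub ht).2⟩
            have h5 : x i = a := le_antisymm (by rw [← h4]; exact ht.1) (hxa i)
            rw [h4, h5]
            exact mem_singleton _
          · have h4 : s = t := hfi ⟨hs.1, hs.2.trans (hle.trans hb1)⟩ (hsub ht) hst
            have h5 : t = x i := le_antisymm (h4 ▸ hs.2) ht.1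
            rw [h5]
            exact mem_singleton _
        have := MeasureTheory.Measure.nullSingletonClass_hausdorff X (d := 1) one_pos
        exact measure_mono_null hsing (measure_singleton _)
  obtain ⟨l', hl', -⟩ := key m le_rfl
  refine ⟨l', _, hl', subset_union_left, Or.inr ⟨b, ?_, rfl⟩⟩
  rw [hxm]
  exact right_mem_Icc.2 hab.le

end Pool.Agent.W_8c5d11_h22
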