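import Pool.Agent.W_8c5d11_h22.L4b
import Pool.Agent.W_8c5d11_h22.L6b

/-!
MP_8c5d11_gt, part L, file L6c: adding a point.
-/

open MeasureTheory Metric Set
open scoped ENNReal NNReal

namespace Pool.Agent.W_8c5d11_h22

variable {X : Type*} [MetricSpace X] [MeasurableSpace X] [BorelSpace X]

/-- Adding one more point.  PROOF: if `x ∈ T` nothing is to be done (weaken `κ`).  Otherwise take an arc
`f` in `S` from `v0` to `x` (`exists_arc`), let `a` be the largest `t ∈ [0, 1]` with `f t ∈ T` (the set is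
compact and contains `0`), `a < 1`; attach `f a` by `IsNet.attach`, then `IsNet.add_arc` on `[a, 1]`. -/
theorem IsNet.grow {S : Set X} (hc : IsCompact S) (hS : IsPreconnected S) (hfin : μH[1] S ≠ ⊤)
    {η : ℝ} (hη : 0 < η) {κ : ℝ≥0∞} {v0 : X} {l : List (X × X)} {T : Set X}
    (h : IsNet S η κ v0 l T) {x : X} (hx : x ∈ S) :
    ∃ l' T', IsNet S η (κ + ENNReal.ofReal η) v0 l' T' ∧ T ⊆ T' ∧ x ∈ T' := by
  by_cases hxT : x ∈ T
  · refine ⟨l, T, ⟨h.root_mem, h.sub, h.closed, h.valid, h.mem, h.short, h.near,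
      fun A hA => (h.weight A hA).trans ?_⟩, Subset.rfl, hxT⟩
    rw [← add_assoc]
    exact le_self_add
  · have hne : v0 ≠ x := fun he => hxT (he ▸ h.root_mem)
    obtain ⟨f, hfS, hf0, hf1, hfc, hfi⟩ := exists_arc hc hS hfin (h.sub h.root_mem) hx hne
    have hKc : IsClosed (Icc (0:ℝ) 1 ∩ f ⁻¹' T) :=
      hfc.preimage_isClosed_of_isClosed isClosed_Icc h.closed
    have hK : IsCompact (Icc (0:ℝ) 1 ∩ f ⁻¹' T) :=
      isCompact_Icc.of_isClosed_subset hKc inter_subset_left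
    have hKne : (Icc (0:ℝ) 1 ∩ f ⁻¹' T).Nonempty := by
      refine ⟨0, ⟨le_refl _, zero_le_one⟩, ?_⟩
      rw [mem_preimage, hf0]
      exact h.root_mem
    obtain ⟨a, ⟨ha1, ha2⟩, hamax⟩ := hK.exists_isGreatest hKne
    have ha1' : a < 1 := by
      refine lt_of_le_of_ne ha1.2 fun he => hxT ?_
      rw [← hf1, ← he]
      exact ha2
    obtain ⟨w, hw⟩ := h.attach (z := f a) ha2
    have hsub : Icc a 1 ⊆ Icc (0:ℝ) 1 := Icc_subset_Icc ha1.1 (le_refl _)
    obtain ⟨l', T', hl', hTT', hb⟩ := hw.add_arc hη (f := f) (a := a) (b := 1) ha1'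
      (fun t _ => hfS t) (hfc.mono hsub) (hfi.mono hsub)
      (Or.inr ⟨(f a, w), List.mem_cons_self, rfl⟩) ha2
      (fun t ht htT => absurd (hamax ⟨⟨ha1.1.trans ht.1.le, ht.2⟩, htT⟩) (not_le.2 ht.1))
    exact ⟨l', T', hl', hTT', hf1 ▸ hb⟩

end Pool.Agent.W_8c5d11_h22
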