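import Pool.Agent.W_8c5d11_h22.L6c

/-!
MP_8c5d11_gt, part L, file L6d: discrete trees.
-/

open MeasureTheory Metric Set
open scoped ENNReal NNReal

namespace Pool.Agent.W_8c5d11_h22

variable {X : Type*} [MetricSpace X] [MeasurableSpace X] [BorelSpace X]

/-- Discrete trees in a continuum of finite length.  PROOF: choose a finite `η`-net `F` of the compact set
`S` (`IsCompact.finite_cover_balls` or `TotallyBounded`), `k` points, put `η' = η / (k + 1)`, start with
`isNet_single` at a point `v0` of `S` and apply `IsNet.grow` to the points of `F` one after the other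
(induction on a list or finset).  The final `κ` is `k * ofReal η' ≤ ofReal η`; `T ⊆ S` bounds the weight;
`wsum_mono` passes from `η'` to `η`. -/
theorem exists_net {S : Set X} (hc : IsCompact S) (hS : IsConnected S) (hfin : μH[1] S ≠ ⊤)
    {η : ℝ} (hη : 0 < η) :
    ∃ (v0 : X) (l : List (X × X)), v0 ∈ S ∧ Valid v0 l ∧ (∀ e ∈ l, e.1 ∈ S ∧ e.2 ∈ S) ∧
      (∀ e ∈ l, dist e.1 e.2 ≤ η) ∧ (∀ z ∈ S, ∃ w, IsNode v0 l w ∧ dist z w ≤ 2 * η) ∧
      ∀ A : Set X, MeasurableSet A → wsum η A l ≤ μH[1] (S ∩ A) + ENNReal.ofReal η := by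
  classical
  obtain ⟨v0, hv0⟩ := hS.nonempty
  obtain ⟨t, htS, htf, hcov⟩ := hc.finite_cover_balls hη
  set F : Finset X := htf.toFinset with hF
  have hFS : ∀ x ∈ F, x ∈ S := fun x hx => htS (htf.mem_toFinset.1 hx)
  set η' : ℝ := η / (F.card + 1) with hη'
  have hk0 : (0 : ℝ) < (F.card : ℝ) + 1 := by positivity
  have hη'0 : 0 < η' := div_pos hη hk0
  have hη'le : η' ≤ η := div_le_self hη.le (by linarith [Nat.cast_nonneg (α := ℝ) F.card])
  have key : ∀ G : Finset X, (∀ x ∈ G, x ∈ S) → ∃ (l : List (X × X)) (T : Set X) (κ : ℝ≥0∞),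
      κ = (G.card : ℝ≥0∞) * ENNReal.ofReal η' ∧ IsNet S η' κ v0 l T ∧ ∀ x ∈ G, x ∈ T := by
    intro G
    induction G using Finset.induction_on with
    | empty =>
      intro _
      refine ⟨[], {v0}, 0, by simp, isNet_single hη'0.le hv0, fun x hx => ?_⟩
      exact absurd hx (Finset.notMem_empty x)
    | insert x G hxG ih =>
      intro hG
      obtain ⟨l, T, κ, hκ, hnet, hGT⟩ := ih fun y hy => hG y (Finset.mem_insert_of_mem hy)
      obtain ⟨l', T', hnet', hTT', hxT'⟩ :=
        hnet.grow hc hS.isPreconnected hfin hη'0 (hG x (Finset.mem_insert_self x G))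
      refine ⟨l', T', κ + ENNReal.ofReal η', ?_, hnet', fun y hy => ?_⟩
      · rw [hκ, Finset.card_insert_of_notMem hxG]
        push_cast
        rw [add_mul, one_mul]
      · rcases Finset.mem_insert.1 hy with rfl | hy
        · exact hxT'
        · exact hTT' (hGT y hy)
  obtain ⟨l, T, κ, hκ, hnet, hFT⟩ := key F hFS
  refine ⟨v0, l, hv0, hnet.valid, hnet.mem, fun e he => (hnet.short e he).trans hη'le,
    fun z hz => ?_, fun A hA => ?_⟩
  · obtain ⟨x, hx, hzx⟩ := mem_iUnion₂.1 (hcov hz)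
    obtain ⟨w, hw, hxw⟩ := hnet.near x (hFT x (htf.mem_toFinset.2 hx))
    refine ⟨w, hw, ?_⟩
    have h1 : dist z x < η := hzx
    have h2 := dist_triangle z x w
    linarith
  · have h1 : κ ≤ ENNReal.ofReal η := by
      rw [hκ, ← ENNReal.ofReal_natCast, ← ENNReal.ofReal_mul (Nat.cast_nonneg _)]
      refine ENNReal.ofReal_le_ofReal ?_
      rw [hη', mul_div_assoc', div_le_iff₀ hk0]
      nlinarith
    calc wsum η A l ≤ wsum η' A l := wsum_mono hη'le A l
      _ ≤ μH[1] (T ∩ A) + κ := hnet.weight A hA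
      _ ≤ μH[1] (S ∩ A) + ENNReal.ofReal η :=
        add_le_add (measure_mono (inter_subset_inter_left A hnet.sub)) h1

end Pool.Agent.W_8c5d11_h22
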