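import Mathlib

/-!
MP_8c5d11_gt, part L, file L9: the tube inequality with the connectedness term.
-/

open MeasureTheory Metric Set Filter
open scoped ENNReal NNReal Topology

namespace Pool.Agent.W_8c5d11_h22

/-- Pointwise step.  PROOF: a set that is not preconnected splits as a union of two disjoint nonempty
relatively closed sets; here `S ∩ closedBall x ρ` is compact, so both parts `K1, K2` are compact, disjoint and
nonempty; let `4 δ ≤` their distance, `δ > 0`.  By compactness there is `δ' > 0` such that every point of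
`S ∩ closedBall x (ρ + δ')` is at distance less than `δ` from `K1 ∪ K2` (otherwise a sequence of bad points
has a limit in `S ∩ closedBall x ρ`, at distance `≥ δ` from `K1 ∪ K2`).  The claim holds for
`η0 = min δ δ' / 4` with `P = {z | infDist z K1 < δ}`. -/
theorem split_of_not_preconnected {S : Set ℂ} (hc : IsCompact S) {x : ℂ} {ρ : ℝ} (hρ : 0 < ρ)
    (hx : ¬ IsPreconnected (S ∩ closedBall x ρ)) :
    ∃ (P : Set ℂ) (η0 : ℝ), 0 < η0 ∧ (∃ k1 ∈ S ∩ closedBall x ρ, ∀ z, dist k1 z ≤ 2 * η0 → z ∈ P) ∧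
      (∃ k2 ∈ S ∩ closedBall x ρ, ∀ z, dist k2 z ≤ 2 * η0 → z ∉ P) ∧
      ∀ z ∈ S ∩ closedBall x (ρ + 2 * η0), ∀ w ∈ S ∩ closedBall x (ρ + 2 * η0), dist z w ≤ η0 →
        (z ∈ P ↔ w ∈ P) := by
  rw [isPreconnected_closed_iff] at hx
  push Not at hx
  obtain ⟨t, t', ht, ht', hcov, hn1, hn2, hdis⟩ := hx
  have hA : IsCompact (S ∩ closedBall x ρ) := hc.inter_right isClosed_closedBall
  have hK1 : IsCompact (S ∩ closedBall x ρ ∩ t) := hA.inter_right ht
  have hK2 : IsCompact (S ∩ closedBall x ρ ∩ t') := hA.inter_right ht'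
  have hdisj : Disjoint (S ∩ closedBall x ρ ∩ t) (S ∩ closedBall x ρ ∩ t') := by
    rw [Set.disjoint_left]
    intro z hz hz'
    have : z ∈ S ∩ closedBall x ρ ∩ (t ∩ t') := ⟨hz.1, hz.2, hz'.2⟩
    rw [hdis] at this
    exact this
  obtain ⟨δ, hδ, hthick⟩ := hdisj.exists_thickenings hK1 hK2.isClosed
  obtain ⟨η₁, hη₁, hU⟩ : ∃ η₁ : ℝ, 0 < η₁ ∧ ∀ z ∈ S ∩ closedBall x (ρ + 2 * η₁),
      z ∈ thickening (δ / 2) (S ∩ closedBall x ρ) := by
    rcases (S \ thickening (δ / 2) (S ∩ closedBall x ρ)).eq_empty_or_nonempty with h0 | h0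
    · refine ⟨1, one_pos, fun z hz => ?_⟩
      exact (Set.sdiff_eq_empty.1 h0) hz.1
    · obtain ⟨z₀, hz₀, hmin⟩ := (hc.diff isOpen_thickening).exists_isMinOn h0
        (f := fun z => dist z x) (continuous_id.dist continuous_const).continuousOn
      have h1 : ρ < dist z₀ x := by
        by_contra hcon
        exact hz₀.2 (self_subset_thickening (half_pos hδ) _ ⟨hz₀.1, not_lt.1 hcon⟩)
      refine ⟨(dist z₀ x - ρ) / 4, by linarith, fun z hz => ?_⟩
      by_contra hcon
      have h2 : dist z₀ x ≤ dist z x := hmin ⟨hz.1, hcon⟩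
      have h3 : dist z x ≤ ρ + 2 * ((dist z₀ x - ρ) / 4) := hz.2
      linarith
  have hmem : ∀ {K : Set ℂ} {z k : ℂ}, k ∈ K → dist z k < δ → z ∈ thickening δ K := by
    intro K z k hk hzk
    exact mem_thickening_iff.2 ⟨k, hk, hzk⟩
  have hη0 : 0 < min η₁ (δ / 4) := lt_min hη₁ (by linarith)
  have hle1 : min η₁ (δ / 4) ≤ η₁ := min_le_left _ _
  have hle2 : min η₁ (δ / 4) ≤ δ / 4 := min_le_right _ _
  refine ⟨thickening δ (S ∩ closedBall x ρ ∩ t), min η₁ (δ / 4), hη0, ?_, ?_, ?_⟩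
  · obtain ⟨k, hk⟩ := hn1
    refine ⟨k, hk.1, fun z hz => hmem hk ?_⟩
    rw [dist_comm]
    linarith
  · obtain ⟨k, hk⟩ := hn2
    refine ⟨k, hk.1, fun z hz hzP => ?_⟩
    refine Set.disjoint_left.1 hthick hzP (hmem hk ?_)
    rw [dist_comm]
    linarith
  · have key : ∀ z ∈ S ∩ closedBall x (ρ + 2 * min η₁ (δ / 4)), ∀ w : ℂ,
        dist z w ≤ min η₁ (δ / 4) → z ∈ thickening δ (S ∩ closedBall x ρ ∩ t) →
          w ∈ thickening δ (S ∩ closedBall x ρ ∩ t) := by
      intro z hz w hzw hzP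
      have hz1 : z ∈ S ∩ closedBall x (ρ + 2 * η₁) := by
        refine ⟨hz.1, closedBall_subset_closedBall ?_ hz.2⟩
        linarith
      obtain ⟨k, hk, hzk⟩ := mem_thickening_iff.1 (hU z hz1)
      rcases hcov hk with hkt | hkt
      · refine hmem ⟨hk, hkt⟩ ?_
        have h1 := dist_triangle_left w k z
        linarith
      · exfalso
        refine Set.disjoint_left.1 hthick hzP (hmem ⟨hk, hkt⟩ ?_)
        linarith
    intro z hz w hw hzw
    exact ⟨key z hz w hzw, key w hw z (by rw [dist_comm]; exact hzw)⟩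

end Pool.Agent.W_8c5d11_h22
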