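import Pool.Agent.W_8c5d11_h22.L6d
import Pool.Agent.W_8c5d11_h22.L8
import Pool.Agent.W_8c5d11_h22.L9

/-!
MP_8c5d11_gt, part L, file L9b: the tube inequality with the connectedness term.
-/

open MeasureTheory Metric Set Filter
open scoped ENNReal NNReal Topology

namespace Pool.Agent.W_8c5d11_h22

/-- The tube inequality with the connectedness term.  PROOF: if `μH[1] S = ⊤` the right-hand side is `⊤`
(as `ρ > 0`).  Otherwise take `η n = 1 / (n + 1)`, the tree `v n, l n` of `exists_net`, and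
`m n x = entr (v n) (l n) (closedBall x (ρ + 2 * η n))`.  For `x` in `cthickening ρ S` (i.e.
`infDist x S ≤ ρ`, attained as `S` is compact) there is a node in the disc, so `1 ≤ m n x` for all `n` by
`one_le_entr`.  If `S ∩ closedBall x ρ` is not preconnected then `2 ≤ m n x` for all large `n` by
`two_le_entr` and `split_of_not_preconnected`.  Fatou (`lintegral_liminf_le`) with `measurable_entr`; the
set `E = {x | 2 ≤ liminf m n x}` is measurable and
`indicator (cthickening ρ S) 1 + indicator E 1 ≤ liminf m n`.  The integrals are at most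
`ofReal (π ρn²) + ofReal (2 ρn) (μH[1] S + ofReal (η n))`, `ρn = ρ + 2 η n`, by `lintegral_entr_le` and the
weight bound with `A = univ`, and this tends to the right-hand side. -/
theorem tube_conn {S : Set ℂ} (hc : IsCompact S) (hS : IsConnected S) {ρ : ℝ} (hρ : 0 < ρ) :
    volume (cthickening ρ S) + volume {x : ℂ | ¬ IsPreconnected (S ∩ closedBall x ρ)} ≤
      ENNReal.ofReal (2 * ρ) * μH[1] S + ENNReal.ofReal (Real.pi * ρ ^ 2) := by
  by_cases hfin : μH[1] S = ⊤
  · rw [hfin, ENNReal.mul_top (by simpa using hρ), top_add]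
    exact le_top
  set η : ℕ → ℝ := fun n => 1 / ((n : ℝ) + 1) with hηdef
  have hη : ∀ n, 0 < η n := fun n => Nat.one_div_pos_of_nat
  have hηlim : Tendsto η atTop (𝓝 0) := tendsto_one_div_add_atTop_nhds_zero_nat
  choose v l hv hval hlS hldist hnet hw using fun n => exists_net hc hS hfin (hη n)
  set m : ℕ → ℂ → ℝ≥0∞ := fun n x => entr (v n) (l n) (closedBall x (ρ + 2 * η n)) with hm
  have hmeas : ∀ n, Measurable (m n) := fun n => measurable_entr _ _ _
  have c1 : ∀ x ∈ cthickening ρ S, ∀ n, 1 ≤ m n x := by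
    intro x hx n
    rw [hc.cthickening_eq_biUnion_closedBall hρ.le] at hx
    simp only [mem_iUnion] at hx
    obtain ⟨z, hz, hxz⟩ := hx
    obtain ⟨w, hw1, hw2⟩ := hnet n z hz
    refine one_le_entr (hval n) hw1 ?_
    rw [mem_closedBall] at hxz ⊢
    have := dist_triangle w z x
    rw [dist_comm w z, dist_comm z x] at this
    linarith
  have c2 : ∀ x ∈ {x : ℂ | ¬ IsPreconnected (S ∩ closedBall x ρ)}, ∀ᶠ n in atTop, 2 ≤ m n x := by
    intro x hx
    obtain ⟨P, η0, hη0, ⟨k1, hk1, hk1P⟩, ⟨k2, hk2, hk2P⟩, hcr⟩ :=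
      split_of_not_preconnected hc hρ hx
    have hev : ∀ᶠ n in atTop, η n ≤ η0 := hηlim.eventually_le_const hη0
    filter_upwards [hev] with n hn
    obtain ⟨w1, hw1, hw1d⟩ := hnet n k1 hk1.1
    obtain ⟨w2, hw2, hw2d⟩ := hnet n k2 hk2.1
    have hb : ∀ k w : ℂ, k ∈ closedBall x ρ → dist k w ≤ 2 * η n →
        w ∈ closedBall x (ρ + 2 * η n) := by
      intro k w hk hkw
      rw [mem_closedBall] at hk ⊢
      have := dist_triangle w k x
      rw [dist_comm w k] at this
      linarith
    refine two_le_entr (hval n) hw1 (hb k1 w1 hk1.2 hw1d) (hk1P w1 (by linarith)) hw2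
      (hb k2 w2 hk2.2 hw2d) (hk2P w2 (by linarith)) ?_
    intro e he h1 h2
    have hsub : closedBall x (ρ + 2 * η n) ⊆ closedBall x (ρ + 2 * η0) :=
      closedBall_subset_closedBall (by linarith)
    exact hcr e.1 ⟨(hlS n e he).1, hsub h1⟩ e.2 ⟨(hlS n e he).2, hsub h2⟩
      ((hldist n e he).trans hn)
  set F : ℂ → ℝ≥0∞ := fun x => liminf (fun n => m n x) atTop with hF
  have hFm : Measurable F := Measurable.liminf hmeas
  set E : Set ℂ := {x | 2 ≤ F x} with hE
  have hEm : MeasurableSet E := measurableSet_le measurable_const hFm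
  have hCm : MeasurableSet (cthickening ρ S) := isClosed_cthickening.measurableSet
  have hsubE : {x : ℂ | ¬ IsPreconnected (S ∩ closedBall x ρ)} ⊆ E := by
    intro x hx
    exact le_liminf_of_le (by isBoundedDefault) (c2 x hx)
  have hpt : ∀ x, (cthickening ρ S).indicator (1 : ℂ → ℝ≥0∞) x + E.indicator 1 x ≤ F x := by
    intro x
    by_cases hxE : x ∈ E
    · rw [indicator_of_mem hxE]
      have h1 : (cthickening ρ S).indicator (1 : ℂ → ℝ≥0∞) x ≤ 1 :=
        indicator_apply_le' (fun _ => le_rfl) (fun _ => zero_le)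
      calc (cthickening ρ S).indicator (1 : ℂ → ℝ≥0∞) x + (1 : ℂ → ℝ≥0∞) x
          ≤ 1 + 1 := add_le_add h1 le_rfl
        _ = 2 := one_add_one_eq_two
        _ ≤ F x := hxE
    · rw [indicator_of_notMem hxE, add_zero]
      by_cases hxC : x ∈ cthickening ρ S
      · rw [indicator_of_mem hxC]
        exact le_liminf_of_le (by isBoundedDefault) (Eventually.of_forall (c1 x hxC))
      · rw [indicator_of_notMem hxC]
        exact zero_le
  have hint : ∀ n, ∫⁻ x, m n x ≤ ENNReal.ofReal (Real.pi * (ρ + 2 * η n) ^ 2) +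
      ENNReal.ofReal (2 * (ρ + 2 * η n)) * (μH[1] S + ENNReal.ofReal (η n)) := by
    intro n
    have hρn : 0 ≤ ρ + 2 * η n := by have := hη n; linarith
    refine (lintegral_entr_le (v n) (l n) hρn (η n)).trans ?_
    gcongr
    have := hw n univ MeasurableSet.univ
    rwa [inter_univ] at this
  have hlim : Tendsto (fun n => ENNReal.ofReal (Real.pi * (ρ + 2 * η n) ^ 2) +
      ENNReal.ofReal (2 * (ρ + 2 * η n)) * (μH[1] S + ENNReal.ofReal (η n))) atTop
      (𝓝 (ENNReal.ofReal (Real.pi * (ρ + 2 * 0) ^ 2) +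
        ENNReal.ofReal (2 * (ρ + 2 * 0)) * (μH[1] S + ENNReal.ofReal 0))) := by
    have h1 : Tendsto (fun n => ρ + 2 * η n) atTop (𝓝 (ρ + 2 * 0)) :=
      tendsto_const_nhds.add (hηlim.const_mul 2)
    refine Tendsto.add ?_ (ENNReal.Tendsto.mul ?_ (Or.inr ?_) ?_ (Or.inr ?_))
    · exact ENNReal.tendsto_ofReal ((h1.pow 2).const_mul _)
    · exact ENNReal.tendsto_ofReal (h1.const_mul 2)
    · rw [ENNReal.ofReal_zero, add_zero]; exact hfin
    · exact tendsto_const_nhds.add (ENNReal.tendsto_ofReal hηlim)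
    · exact ENNReal.ofReal_ne_top
  calc volume (cthickening ρ S) + volume {x : ℂ | ¬ IsPreconnected (S ∩ closedBall x ρ)}
      ≤ volume (cthickening ρ S) + volume E := add_le_add le_rfl (measure_mono hsubE)
    _ = ∫⁻ x, ((cthickening ρ S).indicator (1 : ℂ → ℝ≥0∞) x + E.indicator 1 x) := by
        rw [lintegral_add_left (measurable_one.indicator hCm), lintegral_indicator_one hCm,
          lintegral_indicator_one hEm]
    _ ≤ ∫⁻ x, F x := lintegral_mono hpt
    _ ≤ liminf (fun n => ∫⁻ x, m n x) atTop := lintegral_liminf_le hmeas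
    _ ≤ liminf (fun n => ENNReal.ofReal (Real.pi * (ρ + 2 * η n) ^ 2) +
      ENNReal.ofReal (2 * (ρ + 2 * η n)) * (μH[1] S + ENNReal.ofReal (η n))) atTop :=
        liminf_le_liminf (Eventually.of_forall hint)
    _ = ENNReal.ofReal (Real.pi * (ρ + 2 * 0) ^ 2) +
        ENNReal.ofReal (2 * (ρ + 2 * 0)) * (μH[1] S + ENNReal.ofReal 0) := hlim.liminf_eq
    _ = ENNReal.ofReal (2 * ρ) * μH[1] S + ENNReal.ofReal (Real.pi * ρ ^ 2) := by
        rw [mul_zero, add_zero, ENNReal.ofReal_zero, add_zero, add_comm]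

end Pool.Agent.W_8c5d11_h22
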