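import Mathlib

/-!
MP_8c5d11_gt, part U (the upper bound, scale r = 1), file U0: definitions.

The disc has radius `rho c M + 1 = 2 M + c + 1`.  `b = 2 M + 2 c` is the second centre (on the real
axis).  `pt M c k` is the point of the upper half plane at distance `rho c k + 1` from `0` and at distance
`beta M c k + 1` from `b`.
-/

open MeasureTheory Metric Set

namespace Pool.Agent.W_8c5d11_h22

/-- radii of the circles around `0` -/
noncomputable def rho (c : ℝ) (k : ℕ) : ℝ := 2 * k + c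

/-- second centre -/
noncomputable def bb (M : ℕ) (c : ℝ) : ℝ := 2 * M + 2 * c

/-- radii of the circles around `bb` -/
noncomputable def beta (M : ℕ) (c : ℝ) (k : ℕ) : ℝ := bb M c - rho c k

noncomputable def px (M : ℕ) (c : ℝ) (k : ℕ) : ℝ := rho c k * (1 + 2 / bb M c) - 1

noncomputable def py (M : ℕ) (c : ℝ) (k : ℕ) : ℝ :=
  2 / bb M c * √((bb M c + 1) * (rho c k * beta M c k))

noncomputable def pt (M : ℕ) (c : ℝ) (k : ℕ) : ℂ := ⟨px M c k, py M c k⟩

/-- distance of consecutive points -/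
noncomputable def dd (M : ℕ) (c : ℝ) (k : ℕ) : ℝ := ‖pt M c (k + 1) - pt M c k‖

/-- `dd = 2 (1 + eps)` -/
noncomputable def eps (M : ℕ) (c : ℝ) (k : ℕ) : ℝ := dd M c k / 2 - 1

/-- the angle of `pt` seen from `0` -/
noncomputable def th (M : ℕ) (c : ℝ) (k : ℕ) : ℝ := Real.arccos (px M c k / (rho c k + 1))

/-- the angle of `pt` seen from `bb` -/
noncomputable def ps (M : ℕ) (c : ℝ) (k : ℕ) : ℝ :=
  Real.arccos ((bb M c - px M c k) / (beta M c k + 1))

/-- the vertex of the bump number `k` -/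
noncomputable def vv (M : ℕ) (c : ℝ) (k : ℕ) : ℂ :=
  pt M c (k + 1) + ((1 / dd M c k : ℝ) : ℂ) * (pt M c k - pt M c (k + 1))

/-- foot of `pt k` on the circle of radius `rho (k+1)` around `0` -/
noncomputable def pA (M : ℕ) (c : ℝ) (k : ℕ) : ℂ :=
  ((rho c (k + 1) / (rho c (k + 1) - 1) : ℝ) : ℂ) * pt M c k

/-- foot of `pt k` on the circle of radius `beta k` around `bb` -/
noncomputable def pB (M : ℕ) (c : ℝ) (k : ℕ) : ℂ :=
  (bb M c : ℂ) + ((beta M c k / (beta M c k + 1) : ℝ) : ℂ) * (pt M c k - (bb M c : ℂ))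

/-- arc of radius `rho (k+1)` around `0` from the angle `th k` to `2 π` -/
noncomputable def arcA (M : ℕ) (c : ℝ) (k : ℕ) : Set ℂ :=
  (fun t : ℝ => ((rho c (k + 1) : ℝ) : ℂ) * Complex.exp (t * Complex.I)) ''
    Icc (th M c k) (2 * Real.pi)

/-- arc of radius `beta k` around `bb` (seen from there the angle runs from `0` to `ps k` above the
negative direction) -/
noncomputable def arcB (M : ℕ) (c : ℝ) (k : ℕ) : Set ℂ :=
  (fun t : ℝ => ((bb M c : ℝ) : ℂ) - ((beta M c k : ℝ) : ℂ) * Complex.exp (-t * Complex.I)) ''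
    Icc 0 (ps M c k)

/-- the outer circle -/
def outer (M : ℕ) (c : ℝ) : Set ℂ := sphere (0 : ℂ) (rho c M)

/-- standing assumptions on the parameters -/
structure Par (M : ℕ) (c : ℝ) : Prop where
  c0 : 0 ≤ c
  c2 : c < 2
  M102 : 102 ≤ M

end Pool.Agent.W_8c5d11_h22
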