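import Pool.Agent.W_8c5d11_h22.U0

/-!
MP_8c5d11_gt, part U, file U1: basic facts on the points `pt k`.
-/

open MeasureTheory Metric Set

namespace Pool.Agent.W_8c5d11_h22

variable {M : ℕ} {c : ℝ}

theorem U1_bb_pos (h : Par M c) : 0 < bb M c := by
  have hMr : (102 : ℝ) ≤ M := by exact_mod_cast h.M102
  unfold bb; linarith [h.c0]

theorem U1_rho_nonneg (h : Par M c) (k : ℕ) : 0 ≤ rho c k := by
  unfold rho
  have := h.c0
  positivity

theorem U1_beta_nonneg (h : Par M c) {k : ℕ} (hk : k ≤ M) : 0 ≤ beta M c k := by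
  unfold beta bb rho
  have : (k : ℝ) ≤ M := by exact_mod_cast hk
  linarith [h.c0]

theorem U1_py_sq (h : Par M c) {k : ℕ} (hk : k ≤ M) :
    py M c k ^ 2 = 4 / bb M c ^ 2 * ((bb M c + 1) * (rho c k * beta M c k)) := by
  unfold py
  have h1 := U1_bb_pos h
  rw [mul_pow, Real.sq_sqrt (mul_nonneg (by linarith)
    (mul_nonneg (U1_rho_nonneg h k) (U1_beta_nonneg h hk)))]
  ring

/-- PROOF: `normSq = px² + py²` with `py² = (4/b²)(b+1) ρ (b - ρ)`; with `b > 0`, `ρ = rho c k ≥ 0`,
`beta = b - ρ ≥ 0` the sum is `ρ² + 2 ρ + 1`. -/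
theorem norm_pt (h : Par M c) {k : ℕ} (hk : k ≤ M) : ‖pt M c k‖ = rho c k + 1 := by
  have h1 := U1_bb_pos h
  have h2 := U1_rho_nonneg h k
  have h3 : ‖pt M c k‖ ^ 2 = (rho c k + 1) ^ 2 := by
    rw [← Complex.normSq_eq_norm_sq, Complex.normSq_apply]
    simp only [pt]
    have := U1_py_sq h hk
    have e : py M c k * py M c k = py M c k ^ 2 := by ring
    rw [e, this]
    unfold px beta
    field_simp
    ring
  exact (sq_eq_sq₀ (norm_nonneg _) (by linarith)).1 h3

/-- PROOF: similar, `(b - px)² + py² = (b - ρ + 1)²`. -/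
theorem norm_pt_sub (h : Par M c) {k : ℕ} (hk : k ≤ M) :
    ‖pt M c k - (bb M c : ℂ)‖ = beta M c k + 1 := by
  have h1 := U1_bb_pos h
  have h2 := U1_beta_nonneg h hk
  have h3 : ‖pt M c k - (bb M c : ℂ)‖ ^ 2 = (beta M c k + 1) ^ 2 := by
    rw [← Complex.normSq_eq_norm_sq, Complex.normSq_apply]
    simp only [pt, Complex.sub_re, Complex.sub_im, Complex.ofReal_re, Complex.ofReal_im, sub_zero]
    have := U1_py_sq h hk
    have e : py M c k * py M c k = py M c k ^ 2 := by ring
    rw [e, this]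
    unfold px beta
    field_simp
    ring
  exact (sq_eq_sq₀ (norm_nonneg _) (by linarith)).1 h3

theorem px_succ (h : Par M c) (k : ℕ) : px M c (k + 1) = px M c k + 2 * (1 + 2 / bb M c) := by
  unfold px rho
  push_cast
  ring

theorem px_mono (h : Par M c) {j k : ℕ} (hjk : j ≤ k) : px M c j ≤ px M c k := by
  have h1 := U1_bb_pos h
  unfold px rho
  have : (j : ℝ) ≤ k := by exact_mod_cast hjk
  have h2 : 0 ≤ 1 + 2 / bb M c := by positivity
  nlinarith

theorem px_pos (h : Par M c) {k : ℕ} (hk : 1 ≤ k) : 0 < px M c k := by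
  have h1 := U1_bb_pos h
  unfold px rho
  have : (1 : ℝ) ≤ k := by exact_mod_cast hk
  have h2 : 0 ≤ 2 / bb M c := by positivity
  have h3 := h.c0
  nlinarith

/-- `b - px k = beta k (1 + 2 / b) - 1`. -/
theorem bb_sub_px_pos (h : Par M c) {k : ℕ} (hk : k < M) : 0 < bb M c - px M c k := by
  have h1 := U1_bb_pos h
  have e : bb M c - px M c k = beta M c k * (1 + 2 / bb M c) - 1 := by
    unfold px beta
    field_simp
    ring
  rw [e]
  have h4 : 2 ≤ beta M c k := by
    unfold beta bb rho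
    have : (k : ℝ) + 1 ≤ M := by exact_mod_cast hk
    linarith [h.c0]
  have h2 : 0 ≤ 2 / bb M c := by positivity
  nlinarith

theorem py_nonneg (h : Par M c) (k : ℕ) : 0 ≤ py M c k := by
  have h1 := U1_bb_pos h
  unfold py
  positivity

theorem py_pos (h : Par M c) {k : ℕ} (hk : 1 ≤ k) (hkM : k < M) : 0 < py M c k := by
  have h1 := U1_bb_pos h
  have h2 : 0 < rho c k := by
    unfold rho
    have : (1 : ℝ) ≤ k := by exact_mod_cast hk
    have := h.c0
    positivity
  have h3 : 0 < beta M c k := by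
    unfold beta bb rho
    have : (k : ℝ) + 1 ≤ M := by exact_mod_cast hkM
    linarith [h.c0]
  unfold py
  positivity

/-- mirror symmetry -/
theorem rho_mirror {k : ℕ} (hk : k ≤ M) : rho c (M - k) = beta M c k := by
  unfold rho beta bb rho
  rw [Nat.cast_sub hk]
  ring

theorem px_mirror (h : Par M c) {k : ℕ} (hk : k ≤ M) : px M c (M - k) = bb M c - px M c k := by
  have h1 := U1_bb_pos h
  unfold px
  rw [rho_mirror hk]
  unfold beta
  field_simp
  ring

theorem py_mirror {k : ℕ} (hk : k ≤ M) : py M c (M - k) = py M c k := by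
  have e : beta M c (M - k) = rho c k := by
    have h2 : beta M c (M - k) = bb M c - rho c (M - k) := rfl
    rw [h2, rho_mirror hk]
    unfold beta
    ring
  unfold py
  rw [rho_mirror hk, e, mul_comm (beta M c k) (rho c k)]

theorem ps_eq_th (h : Par M c) {k : ℕ} (hk : k ≤ M) : ps M c k = th M c (M - k) := by
  unfold ps th
  rw [rho_mirror hk, px_mirror h hk]

/-- `px / (rho + 1) = (1 + 2/b) - (2 + 2/b) / (rho + 1)` is strictly increasing in `k`. -/
theorem cos_th_lt (h : Par M c) (k : ℕ) :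
    px M c k / (rho c k + 1) < px M c (k + 1) / (rho c (k + 1) + 1) := by
  have h1 := U1_bb_pos h
  have h2 := U1_rho_nonneg h k
  have h3 : rho c (k + 1) = rho c k + 2 := by unfold rho; push_cast; ring
  have h4 : (0 : ℝ) < 2 / bb M c := by positivity
  rw [div_lt_div_iff₀ (by linarith) (by linarith)]
  unfold px
  rw [h3]
  nlinarith

end Pool.Agent.W_8c5d11_h22
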