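import Pool.Agent.W_8c5d11_h22.U1

/-!
MP_8c5d11_gt, part U, file U1b: the angles `th`, `ps` and the orientation of consecutive points.
-/

open MeasureTheory Metric Set

namespace Pool.Agent.W_8c5d11_h22

variable {M : ℕ} {c : ℝ}

theorem U1b_sq (h : Par M c) {k : ℕ} (hk : k ≤ M) :
    px M c k ^ 2 + py M c k ^ 2 = (rho c k + 1) ^ 2 := by
  rw [← norm_pt h hk, ← Complex.normSq_eq_norm_sq, Complex.normSq_apply]; simp only [pt]; ring

theorem U1b_sq' (h : Par M c) {k : ℕ} (hk : k ≤ M) :
    (bb M c - px M c k) ^ 2 + py M c k ^ 2 = (beta M c k + 1) ^ 2 := by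
  rw [← norm_pt_sub h hk, ← Complex.normSq_eq_norm_sq, Complex.normSq_apply]
  simp only [pt, Complex.sub_re, Complex.sub_im, Complex.ofReal_re, Complex.ofReal_im]; ring

theorem U1b_ray {a b x y N n : ℝ} (hN : 0 < N) (hn : 0 ≤ n) (ha : 0 < a) (hb : 0 ≤ b)
    (hab : a ^ 2 + b ^ 2 = N ^ 2) (hxy : x ^ 2 + y ^ 2 = n ^ 2)
    (hlt : n * a < x * N) : a * y - b * x < 0 := by
  have hx : 0 < x := by
    have h1 : 0 < x * N := lt_of_le_of_lt (by positivity) hlt
    exact pos_of_mul_pos_left h1 hN.le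
  by_contra hcon
  push Not at hcon
  have h2 : b * x ≤ a * y := by linarith
  have h3 : (b * x) ^ 2 ≤ (a * y) ^ 2 := by
    apply pow_le_pow_left₀ (by positivity) h2
  have h4 : (n * a) ^ 2 < (x * N) ^ 2 := by
    apply pow_lt_pow_left₀ hlt (by positivity) (by norm_num)
  nlinarith

theorem th_nonneg (k : ℕ) : 0 ≤ th M c k := Real.arccos_nonneg _

theorem th_le_pi (k : ℕ) : th M c k ≤ Real.pi := Real.arccos_le_pi _

theorem cos_th (h : Par M c) {k : ℕ} (hk : k ≤ M) :
    Real.cos (th M c k) = px M c k / (rho c k + 1) := by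
  have hpos : 0 < rho c k + 1 := by linarith [U1_rho_nonneg h k]
  have hsq := U1b_sq h hk
  have habs : |px M c k| ≤ rho c k + 1 := by
    apply abs_le_of_sq_le_sq _ hpos.le
    nlinarith [sq_nonneg (py M c k)]
  rw [abs_le] at habs
  unfold th
  apply Real.cos_arccos
  · rw [le_div_iff₀ hpos]; linarith
  · rw [div_le_one hpos]; linarith

/-- PROOF: `Real.sin_arccos`, `norm_pt`. -/
theorem sin_th (h : Par M c) {k : ℕ} (hk : k ≤ M) :
    Real.sin (th M c k) = py M c k / (rho c k + 1) := by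
  have hpos : 0 < rho c k + 1 := by linarith [U1_rho_nonneg h k]
  have hsq := U1b_sq h hk
  unfold th
  rw [Real.sin_arccos]
  rw [show 1 - (px M c k / (rho c k + 1)) ^ 2 = (py M c k / (rho c k + 1)) ^ 2 by
    field_simp; linarith]
  exact Real.sqrt_sq (div_nonneg (py_nonneg h k) hpos.le)

theorem cos_ps (h : Par M c) {k : ℕ} (hk : k ≤ M) :
    Real.cos (ps M c k) = (bb M c - px M c k) / (beta M c k + 1) := by
  have hpos : 0 < beta M c k + 1 := by linarith [U1_beta_nonneg h hk]
  have hsq := U1b_sq' h hk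
  have habs : |bb M c - px M c k| ≤ beta M c k + 1 := by
    apply abs_le_of_sq_le_sq _ hpos.le
    nlinarith [sq_nonneg (py M c k)]
  rw [abs_le] at habs
  unfold ps
  apply Real.cos_arccos
  · rw [le_div_iff₀ hpos]; linarith
  · rw [div_le_one hpos]; linarith

theorem sin_ps (h : Par M c) {k : ℕ} (hk : k ≤ M) :
    Real.sin (ps M c k) = py M c k / (beta M c k + 1) := by
  have hpos : 0 < beta M c k + 1 := by linarith [U1_beta_nonneg h hk]
  have hsq := U1b_sq' h hk
  unfold ps
  rw [Real.sin_arccos]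
  rw [show 1 - ((bb M c - px M c k) / (beta M c k + 1)) ^ 2 =
    (py M c k / (beta M c k + 1)) ^ 2 by
    field_simp; linarith]
  exact Real.sqrt_sq (div_nonneg (py_nonneg h k) hpos.le)

theorem th_succ_le (h : Par M c) (k : ℕ) : th M c (k + 1) ≤ th M c k := by
  unfold th
  exact Real.arccos_le_arccos (cos_th_lt h k).le

/-- `cross (pt k) (pt (k+1)) < 0`: the points turn clockwise around `0`.  PROOF: it equals
`(rho k + 1) (rho (k+1) + 1) sin (th (k+1) - th k)` and `0 < th k - th (k+1) < π`; or algebraically from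
`cos_th_lt`, `px > 0`, `py > 0`, `px² + py² = (rho + 1)²`. -/
theorem cross_neg (h : Par M c) {k : ℕ} (hk : 1 ≤ k) (hkM : k + 1 < M) :
    px M c k * py M c (k + 1) - py M c k * px M c (k + 1) < 0 := by
  have hpos : 0 < rho c k + 1 := by linarith [U1_rho_nonneg h k]
  have hpos' : 0 < rho c (k + 1) + 1 := by linarith [U1_rho_nonneg h (k + 1)]
  have hlt := cos_th_lt h k
  rw [div_lt_div_iff₀ hpos hpos'] at hlt
  exact U1b_ray hpos hpos'.le (px_pos h hk) (py_nonneg h k) (U1b_sq h (by omega))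
    (U1b_sq h (by omega)) (by linarith)

/-- the same around `bb` (mirror symmetry). -/
theorem cross_neg' (h : Par M c) {k : ℕ} (hk : 1 ≤ k) (hkM : k + 1 < M) :
    (px M c k - bb M c) * py M c (k + 1) - py M c k * (px M c (k + 1) - bb M c) < 0 := by
  have key := cross_neg h (k := M - (k + 1)) (by omega) (by omega)
  have e : M - (k + 1) + 1 = M - k := by omega
  rw [e, px_mirror h (by omega), px_mirror h (by omega), py_mirror (by omega),
    py_mirror (by omega)] at key
  linarith

end Pool.Agent.W_8c5d11_h22
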