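import Pool.Agent.W_8c5d11_h22.U1

/-!
MP_8c5d11_gt, part U, file U2: the excess `eps k` of the distances of consecutive points.
-/

open MeasureTheory Metric Set

namespace Pool.Agent.W_8c5d11_h22

variable {M : ℕ} {c : ℝ}

/-- abstract form of the estimate -/
theorem U2_abs {p q A B b : ℝ} (hp : 2 ≤ p) (hq : 2 ≤ q) (hb : b = p + q) (hA : A = (p + 1) * (q - 1))
    (hB : B = (p - 1) * (q + 1)) :
    4 * (1 + 2 / b) ^ 2 + 4 * (b + 1) / b ^ 2 * (√A - √B) ^ 2 ≤ 4 + 16 * (b + 1) / (3 * (p * q)) := by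
  have hb0 : 0 < b := by linarith
  have hA0 : 0 < A := by rw [hA]; apply mul_pos <;> linarith
  have hB0 : 0 < B := by rw [hB]; apply mul_pos <;> linarith
  obtain ⟨x, hx⟩ : ∃ x, x = √A := ⟨_, rfl⟩
  obtain ⟨y, hy⟩ : ∃ y, y = √B := ⟨_, rfl⟩
  have hx0 : 0 < x := by rw [hx]; exact Real.sqrt_pos.2 hA0
  have hy0 : 0 < y := by rw [hy]; exact Real.sqrt_pos.2 hB0
  have hx2 : x ^ 2 = A := by rw [hx]; exact Real.sq_sqrt hA0.le
  have hy2 : y ^ 2 = B := by rw [hy]; exact Real.sq_sqrt hB0.le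
  rw [← hx, ← hy]
  obtain ⟨S, hS⟩ : ∃ S, S = (x + y) ^ 2 := ⟨_, rfl⟩
  have hpq : 4 ≤ p * q := by nlinarith
  have hS0 : 0 < S := by rw [hS]; positivity
  -- S ≤ 4 p q
  have hS1 : S ≤ 4 * (p * q) := by
    rw [hS]
    nlinarith [sq_nonneg (x - y)]
  -- S ≥ 3 p q
  have hxy : 3 / 4 * (p * q) ≤ x * y := by
    apply abs_le_of_sq_le_sq' _ (by positivity) |>.2
    have e : (x * y) ^ 2 = (p ^ 2 - 1) * (q ^ 2 - 1) := by
      rw [mul_pow, hx2, hy2, hA, hB]; ring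
    rw [e]
    have h1 : 3 / 4 * p ^ 2 ≤ p ^ 2 - 1 := by nlinarith
    have h2 : 3 / 4 * q ^ 2 ≤ q ^ 2 - 1 := by nlinarith
    calc (3 / 4 * (p * q)) ^ 2 = (3 / 4 * p ^ 2) * (3 / 4 * q ^ 2) := by ring
      _ ≤ (p ^ 2 - 1) * (q ^ 2 - 1) := mul_le_mul h1 h2 (by positivity) (by nlinarith)
  have hS2 : 3 * (p * q) ≤ S := by
    have e : S = x ^ 2 + y ^ 2 + 2 * (x * y) := by rw [hS]; ring
    rw [e, hx2, hy2, hA, hB]
    nlinarith
  -- (x - y)^2 S = 4 (q - p)^2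
  have hdiff : (x - y) ^ 2 * S = 4 * (q - p) ^ 2 := by
    have e : (x - y) ^ 2 * S = (x ^ 2 - y ^ 2) ^ 2 := by rw [hS]; ring
    rw [e, hx2, hy2, hA, hB]; ring
  have hd2 : (x - y) ^ 2 = 4 * (b ^ 2 - 4 * (p * q)) / S := by
    rw [eq_div_iff hS0.ne', hdiff, hb]; ring
  rw [hd2]
  have key : 4 * (1 + 2 / b) ^ 2 + 4 * (b + 1) / b ^ 2 * (4 * (b ^ 2 - 4 * (p * q)) / S) =
      4 + 16 * (b + 1) / b ^ 2 * ((S + b ^ 2 - 4 * (p * q)) / S) := by
    field_simp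
    ring
  rw [key]
  have h3 : (S + b ^ 2 - 4 * (p * q)) / S ≤ b ^ 2 / (3 * (p * q)) := by
    calc (S + b ^ 2 - 4 * (p * q)) / S ≤ b ^ 2 / S := by
          apply div_le_div_of_nonneg_right _ hS0.le
          linarith
      _ ≤ b ^ 2 / (3 * (p * q)) := by
          apply div_le_div_of_nonneg_left (by positivity) (by positivity) hS2
  have h4 : 16 * (b + 1) / b ^ 2 * ((S + b ^ 2 - 4 * (p * q)) / S) ≤
      16 * (b + 1) / b ^ 2 * (b ^ 2 / (3 * (p * q))) :=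
    mul_le_mul_of_nonneg_left h3 (by positivity)
  have h5 : 16 * (b + 1) / b ^ 2 * (b ^ 2 / (3 * (p * q))) = 16 * (b + 1) / (3 * (p * q)) := by
    field_simp
  linarith

theorem dd_eq (M : ℕ) (c : ℝ) (k : ℕ) : dd M c k = 2 * (1 + eps M c k) := by
  unfold eps; ring

/-- Squared distance in coordinates.  With `p = rho k + 1`, `q = b - p = beta k - 1`,
`A = rho (k+1) * beta (k+1) = (p + 1) (q - 1)`, `B = rho k * beta k = (p - 1) (q + 1)`:
`dd² = 4 (1 + 2/b)² + 4 (b+1)/b² (√A - √B)²`. -/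
theorem dd_sq (h : Par M c) {k : ℕ} (hk : k + 1 ≤ M) :
    dd M c k ^ 2 = 4 * (1 + 2 / bb M c) ^ 2 + 4 * (bb M c + 1) / bb M c ^ 2 *
      (√(rho c (k + 1) * beta M c (k + 1)) - √(rho c k * beta M c k)) ^ 2 := by
  have h1 := U1_bb_pos h
  have e1 : ∀ j, py M c j = 2 / bb M c * (√(bb M c + 1) * √(rho c j * beta M c j)) := by
    intro j
    unfold py
    rw [Real.sqrt_mul (by linarith)]
  unfold dd
  rw [← Complex.normSq_eq_norm_sq, Complex.normSq_apply]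
  simp only [pt, Complex.sub_re, Complex.sub_im]
  rw [px_succ h, e1, e1]
  have e2 : √(bb M c + 1) ^ 2 = bb M c + 1 := Real.sq_sqrt (by linarith)
  have e3 : px M c k + 2 * (1 + 2 / bb M c) - px M c k = 2 * (1 + 2 / bb M c) := by ring
  rw [e3]
  have e4 : (2 / bb M c * (√(bb M c + 1) * √(rho c (k + 1) * beta M c (k + 1))) -
      2 / bb M c * (√(bb M c + 1) * √(rho c k * beta M c k))) *
      (2 / bb M c * (√(bb M c + 1) * √(rho c (k + 1) * beta M c (k + 1))) -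
      2 / bb M c * (√(bb M c + 1) * √(rho c k * beta M c k))) =
      4 / bb M c ^ 2 * √(bb M c + 1) ^ 2 *
      (√(rho c (k + 1) * beta M c (k + 1)) - √(rho c k * beta M c k)) ^ 2 := by ring
  rw [e4, e2]
  ring

/-- PROOF: `‖pt (k+1)‖ - ‖pt k‖ = 2`, so `dd ≥ 2`; strict because `dd_sq` has the first term
`4 (1 + 2/b)² > 4`. -/
theorem eps_pos (h : Par M c) {k : ℕ} (hk : k + 1 ≤ M) : 0 < eps M c k := by
  have h1 := U1_bb_pos h
  have h2 := dd_sq h hk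
  have h3 : 4 < dd M c k ^ 2 := by
    rw [h2]
    have h4 : (0 : ℝ) < 2 / bb M c := by positivity
    have h5 : 0 ≤ 4 * (bb M c + 1) / bb M c ^ 2 *
      (√(rho c (k + 1) * beta M c (k + 1)) - √(rho c k * beta M c k)) ^ 2 := by positivity
    nlinarith
  have h6 : 0 ≤ dd M c k := norm_nonneg _
  have h7 : 2 < dd M c k := by
    by_contra hcon
    rw [not_lt] at hcon
    nlinarith
  unfold eps
  linarith

/-- PROOF: `p = rho k + 1`, `q = beta k - 1`, `p + q = b`, `p, q ≥ 2`.  `A - B = 2 (q - p)`,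
`(√A - √B)² = 4 (q-p)² / S` with `S = (√A + √B)²`, `A B = (p² - 1)(q² - 1)`, so
`S = 2 (p q - 1) + 2 √((p²-1)(q²-1)) ≤ 4 p q` (AM-GM: `√A √B ≤ (A+B)/2 = p q - 1`) and `S ≥ 3 p q`
(for `p, q ≥ 2`: `√((p²-1)(q²-1)) ≥ 3/4 p q` and `2 (p q - 1) ≥ 3/2 p q`).  With `(q-p)² = b² - 4 p q`,
`dd² - 4 = 16 (b+1)/b² (1 + (b² - 4pq)/S) ≤ 16 (b+1)/b² · b²/S = 16 (b+1)/S ≤ 16 (b+1)/(3 p q)`
(as `1 ≤ 4pq/S`).  And `dd² - 4 = 4 eps (2 + eps) ≥ 8 eps`.  Hence
`eps ≤ (2/3) (b+1)/(p q) = (2/3) (1/p + 1/q) (1 + 1/b) ≤ 1/p + 1/q`. -/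
theorem eps_le (h : Par M c) {k : ℕ} (hk : 1 ≤ k) (hkM : k + 2 ≤ M) :
    eps M c k ≤ 1 / (rho c k + 1) + 1 / (beta M c k - 1) := by
  have h1 := U1_bb_pos h
  have hc0 := h.c0
  have hkr : (1 : ℝ) ≤ k := by exact_mod_cast hk
  have hkMr : (k : ℝ) + 2 ≤ M := by exact_mod_cast hkM
  obtain ⟨p, hp⟩ : ∃ p, p = rho c k + 1 := ⟨_, rfl⟩
  obtain ⟨q, hq⟩ : ∃ q, q = beta M c k - 1 := ⟨_, rfl⟩
  have hp2 : 2 ≤ p := by rw [hp]; unfold rho; linarith
  have hq2 : 2 ≤ q := by rw [hq]; unfold beta bb rho; linarith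
  have hb : bb M c = p + q := by rw [hp, hq]; unfold beta; ring
  have hsq := dd_sq h (k := k) (by omega)
  have hle := U2_abs (A := rho c (k + 1) * beta M c (k + 1)) (B := rho c k * beta M c k)
    hp2 hq2 hb (by rw [hp, hq]; unfold beta bb rho; push_cast; ring)
    (by rw [hp, hq]; unfold beta bb rho; push_cast; ring)
  rw [← hsq, dd_eq] at hle
  have he := eps_pos h (k := k) (by omega)
  rw [← hp, ← hq]
  have h2 : 8 * eps M c k ≤ 16 * (bb M c + 1) / (3 * (p * q)) := by nlinarith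
  have h3 : 16 * (bb M c + 1) / (3 * (p * q)) ≤ 8 * (1 / p + 1 / q) := by
    rw [div_le_iff₀ (by positivity)]
    have e : 8 * (1 / p + 1 / q) * (3 * (p * q)) = 24 * (p + q) := by
      field_simp
      ring
    rw [e, hb]
    linarith
  linarith

theorem eps_le_fiftieth (h : Par M c) {k : ℕ} (hk : 50 ≤ k) (hkM : k + 50 < M) :
    eps M c k ≤ 1 / 50 := by
  have hkr : (50 : ℝ) ≤ k := by exact_mod_cast hk
  have hkMr : (k : ℝ) + 51 ≤ M := by exact_mod_cast hkM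
  have hc0 := h.c0
  have h1 := eps_le h (k := k) (by omega) (by omega)
  have h2 : 1 / (rho c k + 1) ≤ 1 / 100 := by
    apply one_div_le_one_div_of_le (by norm_num)
    unfold rho; linarith
  have h3 : 1 / (beta M c k - 1) ≤ 1 / 100 := by
    apply one_div_le_one_div_of_le (by norm_num)
    unfold beta bb rho; linarith
  linarith

end Pool.Agent.W_8c5d11_h22
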