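import Mathlib

/-!
MP_8c5d11_gt, part U, file U3: plane geometry of one kink, in abstract form (no reference to the
parameters).  `u, v` are two complex numbers, `‖u‖² = (ρ - 1)²`, `‖v‖² = (ρ + 1)²`,
`‖v - u‖ = 2 (1 + ε)`; the real number `ρ` may be negative (second centre: `ρ = - β`).
`V = v + (u - v) / (2 (1 + ε))` has distance `1` from `v`; `P = ρ / (ρ - 1) u` has distance `1` from `u`.
-/

open MeasureTheory Metric Set

namespace Pool.Agent.W_8c5d11_h22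

/-- PROOF: expand in coordinates; everything is a combination of the three hypotheses
(`⟪u,v⟫ = ρ² + 1 - 2 (1+ε)²`); `field_simp`, `linear_combination`. -/
theorem kink_sq {u v : ℂ} {ρ ε : ℝ} (hρ : ρ ≠ 1) (hε : 0 ≤ ε) (hu : ‖u‖ ^ 2 = (ρ - 1) ^ 2)
    (hv : ‖v‖ ^ 2 = (ρ + 1) ^ 2) (huv : ‖v - u‖ = 2 * (1 + ε)) :
    ‖((ρ / (ρ - 1) : ℝ) : ℂ) * u - (v + ((1 / (2 * (1 + ε)) : ℝ) : ℂ) * (u - v))‖ ^ 2 =
      2 * ε * (ρ * (2 + ε) * (1 + 2 * ε) / ((ρ - 1) * (1 + ε)) - 1) := by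
  have h1 : ρ - 1 ≠ 0 := sub_ne_zero.2 hρ
  have h2 : (1 + ε) ≠ 0 := by positivity
  have huv2 : ‖v - u‖ ^ 2 = 4 * (1 + ε) ^ 2 := by rw [huv]; ring
  rw [← Complex.normSq_eq_norm_sq, Complex.normSq_apply] at hu hv huv2 ⊢
  simp only [Complex.sub_re, Complex.sub_im, Complex.add_re, Complex.add_im, Complex.re_ofReal_mul,
    Complex.im_ofReal_mul] at hu hv huv2 ⊢
  set a := u.re
  set b := u.im
  set x := v.re
  set y := v.im
  obtain ⟨k, hk⟩ : ∃ k, k = ρ / (ρ - 1) := ⟨_, rfl⟩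
  obtain ⟨m, hm⟩ : ∃ m, m = 1 / (2 * (1 + ε)) := ⟨_, rfl⟩
  have hin : a * x + b * y = ρ ^ 2 + 1 - 2 * (1 + ε) ^ 2 := by linarith
  rw [← hk, ← hm]
  have e1 : (k * a - (x + m * (a - x))) * (k * a - (x + m * (a - x))) +
      (k * b - (y + m * (b - y))) * (k * b - (y + m * (b - y))) =
      (k - m) ^ 2 * (ρ - 1) ^ 2 + (1 - m) ^ 2 * (ρ + 1) ^ 2 -
        2 * (k - m) * (1 - m) * (ρ ^ 2 + 1 - 2 * (1 + ε) ^ 2) := by
    linear_combination (k - m) ^ 2 * hu + (1 - m) ^ 2 * hv - 2 * (k - m) * (1 - m) * hin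
  rw [e1, hk, hm]
  field_simp
  ring

/-- PROOF: `kink_sq`, `(2+ε)(1+2ε)/(1+ε) ≤ 2 + 3 ε`, `ρ/(ρ-1) = 1 + 1/(ρ-1)`, and `√X ≤ (1 + X)/2`, with
`X = ρ (2+ε)(1+2ε)/((ρ-1)(1+ε)) - 1 ≤ 1 + 3 ε + (2 + 3 ε)/(ρ-1)`. -/
theorem kink_len_A {u v : ℂ} {ρ ε : ℝ} (hρ : 1 < ρ) (hε : 0 ≤ ε) (hu : ‖u‖ = ρ - 1)
    (hv : ‖v‖ = ρ + 1) (huv : ‖v - u‖ = 2 * (1 + ε)) :
    ‖((ρ / (ρ - 1) : ℝ) : ℂ) * u - (v + ((1 / (2 * (1 + ε)) : ℝ) : ℂ) * (u - v))‖ ≤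
      √(2 * ε) * (1 + (3 * ε + (2 + 3 * ε) / (ρ - 1)) / 2) := by
  have h1 : 0 < ρ - 1 := by linarith
  have h2 : 0 < 1 + ε := by positivity
  have hsq := kink_sq (u := u) (v := v) (ρ := ρ) (ε := ε) (by linarith) hε (by rw [hu])
    (by rw [hv]) huv
  have hX : ρ * (2 + ε) * (1 + 2 * ε) / ((ρ - 1) * (1 + ε)) - 1 ≤
      1 + (3 * ε + (2 + 3 * ε) / (ρ - 1)) := by
    rw [sub_le_iff_le_add, div_le_iff₀ (by positivity)]
    have h3 : (1 + (3 * ε + (2 + 3 * ε) / (ρ - 1)) + 1) * ((ρ - 1) * (1 + ε)) =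
        ρ * ((2 + 3 * ε) * (1 + ε)) := by
      field_simp
      ring
    rw [h3, mul_assoc]
    apply mul_le_mul_of_nonneg_left _ (by linarith)
    nlinarith [sq_nonneg ε]
  have hY : 0 ≤ 3 * ε + (2 + 3 * ε) / (ρ - 1) := by positivity
  set Y := 3 * ε + (2 + 3 * ε) / (ρ - 1) with hYd
  apply abs_le_of_sq_le_sq' _ (by positivity) |>.2
  rw [hsq, mul_pow, Real.sq_sqrt (by positivity)]
  calc 2 * ε * (ρ * (2 + ε) * (1 + 2 * ε) / ((ρ - 1) * (1 + ε)) - 1) ≤ 2 * ε * (1 + Y) := by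
        apply mul_le_mul_of_nonneg_left hX (by positivity)
    _ ≤ 2 * ε * (1 + Y / 2) ^ 2 := by
        apply mul_le_mul_of_nonneg_left _ (by positivity)
        nlinarith [sq_nonneg Y]

/-- The same for the second centre.  PROOF: `kink_sq` with `ρ = - β`:
`X = β (2+ε)(1+2ε)/((β+1)(1+ε)) - 1 ≤ 1 + 3 ε`. -/
theorem kink_len_B {u v : ℂ} {β ε : ℝ} (hβ : 1 < β) (hε : 0 ≤ ε) (hu : ‖u‖ = β + 1)
    (hv : ‖v‖ = β - 1) (huv : ‖v - u‖ = 2 * (1 + ε)) :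
    ‖((β / (β + 1) : ℝ) : ℂ) * u - (v + ((1 / (2 * (1 + ε)) : ℝ) : ℂ) * (u - v))‖ ≤
      √(2 * ε) * (1 + 3 * ε / 2) := by
  have h1 : 0 < β + 1 := by linarith
  have h2 : 0 < 1 + ε := by positivity
  have hsq := kink_sq (u := u) (v := v) (ρ := -β) (ε := ε) (by linarith) hε
    (by rw [hu]; ring) (by rw [hv]; ring) huv
  have e1 : -β / (-β - 1) = β / (β + 1) := by
    rw [show -β - 1 = -(β + 1) by ring, neg_div_neg_eq]
  have e2 : -β * (2 + ε) * (1 + 2 * ε) / ((-β - 1) * (1 + ε)) =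
      β * (2 + ε) * (1 + 2 * ε) / ((β + 1) * (1 + ε)) := by
    rw [show -β * (2 + ε) * (1 + 2 * ε) = -(β * (2 + ε) * (1 + 2 * ε)) by ring,
      show (-β - 1) * (1 + ε) = -((β + 1) * (1 + ε)) by ring, neg_div_neg_eq]
  rw [e1, e2] at hsq
  have hX : β * (2 + ε) * (1 + 2 * ε) / ((β + 1) * (1 + ε)) - 1 ≤ 1 + 3 * ε := by
    rw [sub_le_iff_le_add, div_le_iff₀ (by positivity)]
    have h3 : 0 ≤ (2 + 5 * ε + 3 * ε ^ 2) := by positivity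
    have h4 : 0 ≤ β * ε ^ 2 := by positivity
    nlinarith
  apply abs_le_of_sq_le_sq' _ (by positivity) |>.2
  rw [hsq, mul_pow, Real.sq_sqrt (by positivity)]
  calc 2 * ε * (β * (2 + ε) * (1 + 2 * ε) / ((β + 1) * (1 + ε)) - 1) ≤ 2 * ε * (1 + 3 * ε) := by
        apply mul_le_mul_of_nonneg_left hX (by positivity)
    _ ≤ 2 * ε * (1 + 3 * ε / 2) ^ 2 := by
        apply mul_le_mul_of_nonneg_left _ (by positivity)
        nlinarith [sq_nonneg ε]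

/-- Lower kite triangle.  PROOF: with `λ2 = (1 - t - s) (β + 1) / 2 ≥ 0`,
`λ1 = s - (1 - t - s) (β - 1) / 2`, `λ3 = t` one has `λ1 + λ2 + λ3 = 1`,
`y = λ1 u + λ2 ((β-1)/(β+1) u) + λ3 v`, and `λ1 ≥ 0` because `β - 1 ≤ ‖y‖ ≤ s (β+1) + t (β-1)`.
The point `w = (λ1 + λ2) P + λ3 V` of the segment satisfies
`‖y - w‖ ≤ λ1 ‖u - P‖ + λ2 ‖(β-1)/(β+1) u - P‖ + λ3 ‖v - V‖ = 1`. -/
theorem cov_lower {u v : ℂ} {β ε : ℝ} (hβ : 1 < β) (hε : 0 ≤ ε) (hu : ‖u‖ = β + 1)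
    (hv : ‖v‖ = β - 1) (huv : ‖v - u‖ = 2 * (1 + ε)) {s t : ℝ} (hs : 0 ≤ s) (ht : 0 ≤ t)
    (hst : s + t ≤ 1) (hy : β - 1 ≤ ‖(s : ℂ) * u + (t : ℂ) * v‖) :
    ∃ w ∈ segment ℝ (((β / (β + 1) : ℝ) : ℂ) * u)
        (v + ((1 / (2 * (1 + ε)) : ℝ) : ℂ) * (u - v)),
      ‖(s : ℂ) * u + (t : ℂ) * v - w‖ ≤ 1 := by
  have h1 : 0 < β + 1 := by linarith
  have hβ1 : (β : ℂ) + 1 ≠ 0 := by exact_mod_cast h1.ne'
  have h2 : 0 < 1 + ε := by positivity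
  set P : ℂ := ((β / (β + 1) : ℝ) : ℂ) * u with hP
  set V : ℂ := v + ((1 / (2 * (1 + ε)) : ℝ) : ℂ) * (u - v) with hV
  set l2 : ℝ := (1 - t - s) * (β + 1) / 2 with hl2
  set l1 : ℝ := s - (1 - t - s) * (β - 1) / 2 with hl1
  have hsum : l1 + l2 + t = 1 := by rw [hl1, hl2]; ring
  have hl2n : 0 ≤ l2 := by
    rw [hl2]
    apply div_nonneg (mul_nonneg (by linarith) h1.le) (by norm_num)
  have hnorm : ‖(s : ℂ) * u + (t : ℂ) * v‖ ≤ s * (β + 1) + t * (β - 1) := by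
    refine (norm_add_le _ _).trans ?_
    rw [norm_mul, norm_mul, hu, hv, Complex.norm_real, Complex.norm_real, Real.norm_of_nonneg hs,
      Real.norm_of_nonneg ht]
  have hl1n : 0 ≤ l1 := by
    rw [hl1]
    nlinarith
  have huP : ‖u - P‖ = 1 := by
    have : u - P = ((1 / (β + 1) : ℝ) : ℂ) * u := by
      rw [hP]
      push_cast
      field_simp
      ring
    rw [this, norm_mul, Complex.norm_real, Real.norm_of_nonneg (by positivity), hu]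
    field_simp
  have hnP : ‖(((β - 1) / (β + 1) : ℝ) : ℂ) * u - P‖ = 1 := by
    have : (((β - 1) / (β + 1) : ℝ) : ℂ) * u - P = -(((1 / (β + 1) : ℝ) : ℂ) * u) := by
      rw [hP]
      push_cast
      field_simp
      ring
    rw [this, norm_neg, norm_mul, Complex.norm_real, Real.norm_of_nonneg (by positivity), hu]
    field_simp
  have hvV : ‖v - V‖ = 1 := by
    have : v - V = ((1 / (2 * (1 + ε)) : ℝ) : ℂ) * (v - u) := by
      rw [hV]; ring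
    rw [this, norm_mul, Complex.norm_real, Real.norm_of_nonneg (by positivity), huv]
    field_simp
  refine ⟨((l1 + l2 : ℝ) : ℂ) * P + (t : ℂ) * V, ?_, ?_⟩
  · refine ⟨l1 + l2, t, by linarith, ht, hsum, ?_⟩
    simp only [Complex.real_smul]
  · have e : (s : ℂ) * u + (t : ℂ) * v - (((l1 + l2 : ℝ) : ℂ) * P + (t : ℂ) * V) =
        (l1 : ℂ) * (u - P) + (l2 : ℂ) * ((((β - 1) / (β + 1) : ℝ) : ℂ) * u - P) +
          (t : ℂ) * (v - V) := by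
      have e3 : (s : ℂ) * u = (l1 : ℂ) * u + (l2 : ℂ) * ((((β - 1) / (β + 1) : ℝ) : ℂ) * u) := by
        rw [hl1, hl2]
        push_cast
        field_simp
        ring
      rw [e3]
      push_cast
      ring
    rw [e]
    calc _ ≤ ‖(l1 : ℂ) * (u - P)‖ + ‖(l2 : ℂ) * ((((β - 1) / (β + 1) : ℝ) : ℂ) * u - P)‖ +
          ‖(t : ℂ) * (v - V)‖ := norm_add₃_le
      _ = 1 := by
        rw [norm_mul, norm_mul, norm_mul, huP, hnP, hvV, Complex.norm_real, Complex.norm_real,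
          Complex.norm_real, Real.norm_of_nonneg hl1n, Real.norm_of_nonneg hl2n,
          Real.norm_of_nonneg ht]
        linarith

end Pool.Agent.W_8c5d11_h22
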