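import Pool.Agent.W_8c5d11_h22.U3

/-!
MP_8c5d11_gt, part U, file U3b: the upper triangle of the kite of one kink.
-/

open MeasureTheory Metric Set

namespace Pool.Agent.W_8c5d11_h22

/-- The vertex `a = u / γ` with `γ = ⟪u,v⟫ / (ρ+1)²` (intersection of the ray through `u` with the tangent
at `v` of the circle of radius `ρ + 1`) is within distance `1` of the midpoint `w0 = (P + V) / 2`.
PROOF: `‖a‖ = (ρ+1)/cos α = ρ + 1 + δ`, `cos α = ⟪u,v⟫/(ρ²-1) = 1 - 2 ε (2+ε)/(ρ²-1)`,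
`δ = 2 ε (2+ε) / ((ρ-1) cos α) ≤ 5 ε/(ρ-1) ≤ ε/20`.  `a - w0 = (a - P) + (P - V)/2`,
`‖a - w0‖² = g² + g/ρ ⟪P, P - V⟫ + ‖P - V‖²/4`, `g = ‖a‖ - ρ = 1 + δ`,
`⟪P, V - P⟫/ρ = κ' = ε (ρ/(1+ε) - 3 - 2 ε)/(ρ-1) ≥ 0.9 ε`, and `‖P - V‖²/4 ≤ 0.6 ε` by `kink_sq`.
So `‖a - w0‖² ≤ (1 + ε/20)² - 0.9 ε + 0.6 ε ≤ 1`. -/
theorem cov_vertex {u v : ℂ} {ρ ε : ℝ} (hρ : 101 ≤ ρ) (hε : 0 < ε) (hε' : ε ≤ 1 / 50)
    (hu : ‖u‖ = ρ - 1) (hv : ‖v‖ = ρ + 1) (huv : ‖v - u‖ = 2 * (1 + ε)) :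
    ‖(((ρ + 1) ^ 2 / (ρ ^ 2 + 1 - 2 * (1 + ε) ^ 2) : ℝ) : ℂ) * u -
      ((1 / 2 : ℝ) : ℂ) * (((ρ / (ρ - 1) : ℝ) : ℂ) * u +
        (v + ((1 / (2 * (1 + ε)) : ℝ) : ℂ) * (u - v)))‖ ≤ 1 := by
  have h1 : 0 < ρ - 1 := by linarith
  have h2 : 0 < 1 + ε := by positivity
  obtain ⟨I, hI⟩ : ∃ I, I = ρ ^ 2 + 1 - 2 * (1 + ε) ^ 2 := ⟨_, rfl⟩
  have hI0 : ρ ^ 2 - 1.1 ≤ I := by rw [hI]; nlinarith
  have hIp : 0 < I := by nlinarith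
  have hu2 : ‖u‖ ^ 2 = (ρ - 1) ^ 2 := by rw [hu]
  have hv2 : ‖v‖ ^ 2 = (ρ + 1) ^ 2 := by rw [hv]
  have huv2 : ‖v - u‖ ^ 2 = 4 * (1 + ε) ^ 2 := by rw [huv]; ring
  rw [← hI]
  refine abs_le_of_sq_le_sq' ?_ zero_le_one |>.2
  rw [← Complex.normSq_eq_norm_sq, Complex.normSq_apply] at hu2 hv2 huv2 ⊢
  simp only [Complex.sub_re, Complex.sub_im, Complex.add_re, Complex.add_im, Complex.re_ofReal_mul,
    Complex.im_ofReal_mul] at hu2 hv2 huv2 ⊢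
  set a := u.re
  set b := u.im
  set x := v.re
  set y := v.im
  obtain ⟨k, hk⟩ : ∃ k, k = ρ / (ρ - 1) := ⟨_, rfl⟩
  obtain ⟨m, hm⟩ : ∃ m, m = 1 / (2 * (1 + ε)) := ⟨_, rfl⟩
  obtain ⟨g, hg⟩ : ∃ g, g = (ρ + 1) ^ 2 / I := ⟨_, rfl⟩
  have hin : a * x + b * y = I := by rw [hI]; linarith
  rw [← hk, ← hm, ← hg]
  have e1 : (g * a - 1 / 2 * (k * a + (x + m * (a - x)))) * (g * a - 1 / 2 * (k * a + (x + m * (a - x)))) +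
      (g * b - 1 / 2 * (k * b + (y + m * (b - y)))) * (g * b - 1 / 2 * (k * b + (y + m * (b - y)))) =
      (g - k / 2 - m / 2) ^ 2 * (ρ - 1) ^ 2 + ((1 - m) / 2) ^ 2 * (ρ + 1) ^ 2 -
        2 * (g - k / 2 - m / 2) * ((1 - m) / 2) * I := by
    linear_combination (g - k / 2 - m / 2) ^ 2 * hu2 + ((1 - m) / 2) ^ 2 * hv2 -
      2 * (g - k / 2 - m / 2) * ((1 - m) / 2) * hin
  rw [e1]
  -- G = |a| - ρ
  obtain ⟨d, hd⟩ : ∃ d, d = 2 * ε * (2 + ε) * (ρ + 1) / I := ⟨_, rfl⟩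
  obtain ⟨κ, hκ⟩ : ∃ κ, κ = ε * (ρ / (1 + ε) - 3 - 2 * ε) / (ρ - 1) := ⟨_, rfl⟩
  obtain ⟨T, hT⟩ : ∃ T, T = 2 * ε * (ρ * (2 + ε) * (1 + 2 * ε) / ((ρ - 1) * (1 + ε)) - 1) := ⟨_, rfl⟩
  have e2 : (g - k / 2 - m / 2) ^ 2 * (ρ - 1) ^ 2 + ((1 - m) / 2) ^ 2 * (ρ + 1) ^ 2 -
        2 * (g - k / 2 - m / 2) * ((1 - m) / 2) * I = (1 + d) ^ 2 - (1 + d) * κ + T / 4 := by
    rw [hd, hκ, hT, hg, hk, hm]
    have hI1 : I ≠ 0 := hIp.ne'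
    field_simp
    rw [hI]
    ring
  rw [e2]
  have hd1 : d ≤ ε / 20 := by
    have h5 : 40 * (2 + ε) * (ρ + 1) ≤ I := by
      have h6 : 40 * (2 + ε) * (ρ + 1) ≤ 81 * (ρ + 1) := by
        apply mul_le_mul_of_nonneg_right _ (by linarith)
        linarith
      nlinarith
    rw [hd, div_le_iff₀ hIp]
    calc 2 * ε * (2 + ε) * (ρ + 1) = ε / 20 * (40 * (2 + ε) * (ρ + 1)) := by ring
      _ ≤ ε / 20 * I := mul_le_mul_of_nonneg_left h5 (by positivity)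
  have hd0 : 0 ≤ d := by rw [hd]; positivity
  have hκ1 : 0.95 * ε ≤ κ := by
    rw [hκ, le_div_iff₀ h1]
    have : ρ * (1 - ε) ≤ ρ / (1 + ε) := by
      rw [le_div_iff₀ h2]
      nlinarith [sq_nonneg ε]
    have h6 : 0.95 * (ρ - 1) ≤ ρ / (1 + ε) - 3 - 2 * ε := by
      have h7 : 0.98 * ρ ≤ ρ * (1 - ε) := by nlinarith
      linarith
    calc 0.95 * ε * (ρ - 1) = ε * (0.95 * (ρ - 1)) := by ring
      _ ≤ _ := mul_le_mul_of_nonneg_left h6 hε.le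
  have hT1 : T ≤ 2.2 * ε := by
    have h5 : ρ * (2 + ε) * (1 + 2 * ε) / ((ρ - 1) * (1 + ε)) ≤ 2.1 := by
      have h8 : (2 + ε) * (1 + 2 * ε) ≤ 2.07 * (1 + ε) := by nlinarith
      have h9 : 2.07 * ρ ≤ 2.1 * (ρ - 1) := by linarith
      rw [div_le_iff₀ (by positivity)]
      calc ρ * (2 + ε) * (1 + 2 * ε) = ρ * ((2 + ε) * (1 + 2 * ε)) := by ring
        _ ≤ ρ * (2.07 * (1 + ε)) := mul_le_mul_of_nonneg_left h8 (by linarith)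
        _ = (2.07 * ρ) * (1 + ε) := by ring
        _ ≤ (2.1 * (ρ - 1)) * (1 + ε) := mul_le_mul_of_nonneg_right h9 h2.le
        _ = 2.1 * ((ρ - 1) * (1 + ε)) := by ring
    rw [hT]
    nlinarith
  have hfin : (1 + d) ^ 2 - (1 + d) * κ + T / 4 ≤ 1 := by
    have h10 : (1 + d) * κ ≥ 1 * κ := mul_le_mul_of_nonneg_right (by linarith) (by nlinarith)
    nlinarith
  linarith

/-- Upper kite triangle.  PROOF: `γ = (ρ² + 1 - 2 (1+ε)²)/(ρ+1)²`, `0 < γ < 1`.  From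
`⟪s u + t v, v⟫ ≤ ‖y‖ (ρ+1) ≤ (ρ+1)²` one gets `s γ + t ≤ 1`.  With
`λ2 = (s + t - 1) γ/(1-γ) ≥ 0`, `λ1 = ((1 - t) - s γ)/(1-γ) ≥ 0`, `λ3 = t` one has `λ1 + λ2 + λ3 = 1` and
`y = λ1 u + λ2 (u/γ) + λ3 v`.  The point `w = λ1 P + λ2 w0 + λ3 V`, `w0 = (P+V)/2`, of the segment `[P, V]`
satisfies `‖y - w‖ ≤ λ1 ‖u - P‖ + λ2 ‖u/γ - w0‖ + λ3 ‖v - V‖ ≤ 1` by `cov_vertex`. -/
theorem cov_upper {u v : ℂ} {ρ ε : ℝ} (hρ : 101 ≤ ρ) (hε : 0 < ε) (hε' : ε ≤ 1 / 50)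
    (hu : ‖u‖ = ρ - 1) (hv : ‖v‖ = ρ + 1) (huv : ‖v - u‖ = 2 * (1 + ε)) {s t : ℝ} (hs : 0 ≤ s)
    (ht : 0 ≤ t) (hst : 1 ≤ s + t) (hy : ‖(s : ℂ) * u + (t : ℂ) * v‖ ≤ ρ + 1) :
    ∃ w ∈ segment ℝ (((ρ / (ρ - 1) : ℝ) : ℂ) * u)
        (v + ((1 / (2 * (1 + ε)) : ℝ) : ℂ) * (u - v)),
      ‖(s : ℂ) * u + (t : ℂ) * v - w‖ ≤ 1 := by
  have h1 : 0 < ρ - 1 := by linarith
  have h2 : 0 < 1 + ε := by positivity
  have hvert := cov_vertex hρ hε hε' hu hv huv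
  obtain ⟨I, hI⟩ : ∃ I, I = ρ ^ 2 + 1 - 2 * (1 + ε) ^ 2 := ⟨_, rfl⟩
  have hI0 : ρ ^ 2 - 1.1 ≤ I := by rw [hI]; nlinarith
  have hIp : 0 < I := by nlinarith
  have hI1 : I < (ρ + 1) ^ 2 := by rw [hI]; nlinarith [sq_nonneg ε]
  rw [← hI] at hvert
  set P : ℂ := ((ρ / (ρ - 1) : ℝ) : ℂ) * u with hP
  set V : ℂ := v + ((1 / (2 * (1 + ε)) : ℝ) : ℂ) * (u - v) with hV
  -- the inequality s γ + t ≤ 1
  have hkey : s * I + t * (ρ + 1) ^ 2 ≤ (ρ + 1) ^ 2 := by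
    have hu2 : ‖u‖ ^ 2 = (ρ - 1) ^ 2 := by rw [hu]
    have hv2 : ‖v‖ ^ 2 = (ρ + 1) ^ 2 := by rw [hv]
    have huv2 : ‖v - u‖ ^ 2 = 4 * (1 + ε) ^ 2 := by rw [huv]; ring
    have hy2 : ‖(s : ℂ) * u + (t : ℂ) * v‖ ^ 2 ≤ (ρ + 1) ^ 2 := by gcongr
    rw [← Complex.normSq_eq_norm_sq, Complex.normSq_apply] at hu2 hv2 huv2 hy2
    simp only [Complex.sub_re, Complex.sub_im, Complex.add_re, Complex.add_im,
      Complex.re_ofReal_mul, Complex.im_ofReal_mul] at hu2 hv2 huv2 hy2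
    have hin : u.re * v.re + u.im * v.im = I := by rw [hI]; linarith
    have h3 : s * I + t * (ρ + 1) ^ 2 =
        (s * u.re + t * v.re) * v.re + (s * u.im + t * v.im) * v.im := by
      rw [← hin, ← hv2]; ring
    rw [h3]
    nlinarith [sq_nonneg ((s * u.re + t * v.re) - v.re), sq_nonneg ((s * u.im + t * v.im) - v.im)]
  have hD : 0 < (ρ + 1) ^ 2 - I := by linarith
  set l2 : ℝ := (s + t - 1) * I / ((ρ + 1) ^ 2 - I) with hl2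
  set l1 : ℝ := ((1 - t) * (ρ + 1) ^ 2 - s * I) / ((ρ + 1) ^ 2 - I) with hl1
  have hsum : l1 + l2 + t = 1 := by
    rw [hl1, hl2]
    field_simp
    ring
  have hl2n : 0 ≤ l2 := by
    rw [hl2]
    exact div_nonneg (mul_nonneg (by linarith) hIp.le) hD.le
  have hl1n : 0 ≤ l1 := by
    rw [hl1]
    exact div_nonneg (by linarith) hD.le
  have hρ1 : (ρ : ℂ) - 1 ≠ 0 := by exact_mod_cast h1.ne'
  have huP : ‖u - P‖ = 1 := by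
    have : u - P = -(((1 / (ρ - 1) : ℝ) : ℂ) * u) := by
      rw [hP]
      push_cast
      field_simp
      ring
    rw [this, norm_neg, norm_mul, Complex.norm_real, Real.norm_of_nonneg (by positivity), hu]
    field_simp
  have hvV : ‖v - V‖ = 1 := by
    have : v - V = ((1 / (2 * (1 + ε)) : ℝ) : ℂ) * (v - u) := by
      rw [hV]; ring
    rw [this, norm_mul, Complex.norm_real, Real.norm_of_nonneg (by positivity), huv]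
    field_simp
  set a : ℂ := (((ρ + 1) ^ 2 / I : ℝ) : ℂ) * u with ha
  set w0 : ℂ := ((1 / 2 : ℝ) : ℂ) * (P + V) with hw0
  refine ⟨((l1 + l2 / 2 : ℝ) : ℂ) * P + ((l2 / 2 + t : ℝ) : ℂ) * V, ?_, ?_⟩
  · refine ⟨l1 + l2 / 2, l2 / 2 + t, by positivity, by positivity, by linarith, ?_⟩
    simp only [Complex.real_smul]
  · have e : (s : ℂ) * u + (t : ℂ) * v -
        (((l1 + l2 / 2 : ℝ) : ℂ) * P + ((l2 / 2 + t : ℝ) : ℂ) * V) =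
        (l1 : ℂ) * (u - P) + (l2 : ℂ) * (a - w0) + (t : ℂ) * (v - V) := by
      have e3 : (s : ℂ) * u = (l1 : ℂ) * u + (l2 : ℂ) * a := by
        have e4 : s = l1 + l2 * ((ρ + 1) ^ 2 / I) := by
          rw [hl1, hl2]
          field_simp
          ring
        rw [ha, e4]
        push_cast
        ring
      rw [e3, hw0]
      push_cast
      ring
    rw [e]
    calc _ ≤ ‖(l1 : ℂ) * (u - P)‖ + ‖(l2 : ℂ) * (a - w0)‖ + ‖(t : ℂ) * (v - V)‖ := norm_add₃_le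
      _ ≤ l1 + l2 + t := by
        rw [norm_mul, norm_mul, norm_mul, huP, hvV, Complex.norm_real, Complex.norm_real,
          Complex.norm_real, Real.norm_of_nonneg hl1n, Real.norm_of_nonneg hl2n,
          Real.norm_of_nonneg ht]
        nlinarith
      _ = 1 := hsum

end Pool.Agent.W_8c5d11_h22
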