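import Pool.Agent.W_8c5d11_h22.U1b
import Pool.Agent.W_8c5d11_h22.U2
import Pool.Agent.W_8c5d11_h22.U3

/-!
MP_8c5d11_gt, part U, file U4: the excess of length at one kink.
-/

open MeasureTheory Metric Set

namespace Pool.Agent.W_8c5d11_h22

variable {M : ℕ} {c : ℝ}

/-- PROOF: `1 - cos (th k - th (k+1)) = 2 ε (2+ε)/(ρ² - 1)`, `ρ = rho (k+1)`, `ε = eps k` (from `cos_th`,
`sin_th` and `px k * px (k+1) + py k * py (k+1) = ρ² + 1 - 2 (1+ε)²`, polarization of `dd_eq`), and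
`1 - cos x ≤ x²/2` (`Real.one_sub_sq_div_two_le_cos`), `x = th k - th (k+1) ≥ 0`; so
`x² ≥ 4 ε (2+ε)/(ρ²-1) ≥ 8 ε/ρ²`. -/
theorem th_diff_ge (h : Par M c) {k : ℕ} (hk : 1 ≤ k) (hkM : k + 1 ≤ M) :
    2 * √(2 * eps M c k) ≤ rho c (k + 1) * (th M c k - th M c (k + 1)) := by
  have he := eps_pos h hkM
  have hk0 : k ≤ M := by omega
  have hr1 : rho c k = rho c (k + 1) - 2 := by unfold rho; push_cast; ring
  have hrk : 2 ≤ rho c k := by
    unfold rho
    have : (1 : ℝ) ≤ k := by exact_mod_cast hk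
    linarith [h.c0]
  have hsq := U1b_sq h hk0
  have hsq' := U1b_sq h hkM
  have hdd : (px M c (k + 1) - px M c k) ^ 2 + (py M c (k + 1) - py M c k) ^ 2 =
      4 * (1 + eps M c k) ^ 2 := by
    have e1 : dd M c k ^ 2 = 4 * (1 + eps M c k) ^ 2 := by rw [dd_eq]; ring
    rw [← e1]
    unfold dd
    rw [← Complex.normSq_eq_norm_sq, Complex.normSq_apply]
    simp only [pt, Complex.sub_re, Complex.sub_im]
    ring
  rw [hr1] at hsq
  set ρ := rho c (k + 1) with hρ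
  have hρ4 : 4 ≤ ρ := by linarith
  have hin : px M c k * px M c (k + 1) + py M c k * py M c (k + 1) =
      ρ ^ 2 + 1 - 2 * (1 + eps M c k) ^ 2 := by
    linear_combination (hsq + hsq' - hdd) / 2
  have hcos : Real.cos (th M c k - th M c (k + 1)) * ((ρ - 1) * (ρ + 1)) =
      ρ ^ 2 + 1 - 2 * (1 + eps M c k) ^ 2 := by
    rw [Real.cos_sub, cos_th h hk0, cos_th h hkM, sin_th h hk0, sin_th h hkM, ← hρ, hr1, ← hin]
    have h1 : ρ - 2 + 1 ≠ 0 := by linarith
    have h2 : ρ + 1 ≠ 0 := by linarith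
    field_simp
    ring
  have hx0 : 0 ≤ th M c k - th M c (k + 1) := sub_nonneg.2 (th_succ_le h k)
  set x := th M c k - th M c (k + 1) with hx
  have hcx := Real.one_sub_sq_div_two_le_cos (x := x)
  have hD : 0 < (ρ - 1) * (ρ + 1) := by apply mul_pos <;> linarith
  have h3 : (1 - x ^ 2 / 2) * ((ρ - 1) * (ρ + 1)) ≤ ρ ^ 2 + 1 - 2 * (1 + eps M c k) ^ 2 := by
    rw [← hcos]
    exact mul_le_mul_of_nonneg_right hcx hD.le
  have h4 : 8 * eps M c k ≤ (ρ * x) ^ 2 := by nlinarith [sq_nonneg x, sq_nonneg (eps M c k)]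
  apply abs_le_of_sq_le_sq' _ (mul_nonneg (by linarith) hx0) |>.2
  rw [mul_pow, Real.sq_sqrt (by positivity)]
  linarith

/-- PROOF: `kink_len_A`, `kink_len_B` (with `u = pt k`, `v = pt (k+1)`, resp. both minus `bb`), the
symmetry of the norm, `th_diff_ge`: the sum is at most
`√(2ε) (3 ε/2 + (2 + 3 ε)/(2 (ρ-1)) + 3 ε/2)` with `ρ - 1 = rho k + 1`, and `ε ≤ 1/50`. -/
theorem kink_excess (h : Par M c) {k : ℕ} (hk : 50 ≤ k) (hkM : k + 50 < M) :
    rho c (k + 1) * (th M c (k + 1) - th M c k) + ‖pA M c k - vv M c k‖ + ‖vv M c k - pB M c k‖ ≤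
      √(2 * eps M c k) * (3 * eps M c k + 2 / (rho c k + 1)) := by
  have hkM1 : k + 1 ≤ M := by omega
  have hk0 : k ≤ M := by omega
  have he := eps_pos h hkM1
  have he2 := eps_le_fiftieth h hk hkM
  have hth := th_diff_ge h (k := k) (by omega) hkM1
  have hr1 : rho c (k + 1) = rho c k + 2 := by unfold rho; push_cast; ring
  have hr0 := U1_rho_nonneg h k
  have hb1 : beta M c (k + 1) = beta M c k - 2 := by unfold beta; rw [hr1]; ring
  have hb2 : 2 ≤ beta M c k := by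
    unfold beta bb rho
    have : (k : ℝ) + 1 ≤ M := by exact_mod_cast hkM1
    linarith [h.c0]
  have hd : ‖pt M c (k + 1) - pt M c k‖ = 2 * (1 + eps M c k) := dd_eq M c k
  have hA := kink_len_A (u := pt M c k) (v := pt M c (k + 1)) (ρ := rho c (k + 1))
    (ε := eps M c k) (by linarith) he.le (by rw [norm_pt h hk0, hr1]; ring)
    (norm_pt h hkM1) hd
  have hB := kink_len_B (u := pt M c k - (bb M c : ℂ)) (v := pt M c (k + 1) - (bb M c : ℂ))
    (β := beta M c k) (ε := eps M c k) (by linarith) he.le (norm_pt_sub h hk0)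
    (by rw [norm_pt_sub h hkM1, hb1]; ring) (by rw [← hd]; congr 1; ring)
  have eA : ‖pA M c k - vv M c k‖ ≤
      √(2 * eps M c k) * (1 + (3 * eps M c k + (2 + 3 * eps M c k) / (rho c (k + 1) - 1)) / 2) := by
    refine le_of_eq_of_le ?_ hA
    unfold pA vv
    rw [dd_eq]
  have eB : ‖vv M c k - pB M c k‖ ≤ √(2 * eps M c k) * (1 + 3 * eps M c k / 2) := by
    refine le_of_eq_of_le ?_ hB
    rw [norm_sub_rev]
    unfold pB vv
    rw [dd_eq]
    congr 1
    ring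
  have e1 : rho c (k + 1) - 1 = rho c k + 1 := by rw [hr1]; ring
  rw [e1] at eA
  have hs : 0 ≤ √(2 * eps M c k) := Real.sqrt_nonneg _
  have hp : 0 < rho c k + 1 := by linarith
  have h5 : (2 + 3 * eps M c k) / (rho c k + 1) / 2 ≤ 2 / (rho c k + 1) := by
    rw [div_div, div_le_div_iff₀ (by positivity) hp]
    nlinarith
  calc rho c (k + 1) * (th M c (k + 1) - th M c k) + ‖pA M c k - vv M c k‖ +
        ‖vv M c k - pB M c k‖
      ≤ -(2 * √(2 * eps M c k)) + √(2 * eps M c k) *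
          (1 + (3 * eps M c k + (2 + 3 * eps M c k) / (rho c k + 1)) / 2) +
          √(2 * eps M c k) * (1 + 3 * eps M c k / 2) := by
        have : rho c (k + 1) * (th M c (k + 1) - th M c k) =
          -(rho c (k + 1) * (th M c k - th M c (k + 1))) := by ring
        rw [this]
        linarith
    _ = √(2 * eps M c k) * (3 * eps M c k + (2 + 3 * eps M c k) / (rho c k + 1) / 2) := by ring
    _ ≤ √(2 * eps M c k) * (3 * eps M c k + 2 / (rho c k + 1)) :=
        mul_le_mul_of_nonneg_left (by linarith) hs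

/-- PROOF: `eps_le`: `ε ≤ x + y` with `x = 1/(rho k + 1) ≤ 1/(k+1)`, `y = 1/(beta k - 1) ≤ 1/(M - k)`; so
the bound of `kink_excess` is at most `√(2 (x+y)) * 5 (x+y)`, and for `m = max x y`, `x + y ≤ 2 m`,
`√(4 m) * 10 m = 20 m √m ≤ 20 (x √x + y √y)`. -/
theorem kink_excess' (h : Par M c) {k : ℕ} (hk : 50 ≤ k) (hkM : k + 50 < M) :
    rho c (k + 1) * (th M c (k + 1) - th M c k) + ‖pA M c k - vv M c k‖ + ‖vv M c k - pB M c k‖ ≤
      20 * (1 / ((k + 1 : ℝ) * √(k + 1)) + 1 / (((M - k : ℕ) : ℝ) * √((M - k : ℕ) : ℝ))) := by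
  refine (kink_excess h hk hkM).trans ?_
  have hkM1 : k + 1 ≤ M := by omega
  have he := eps_pos h hkM1
  have hle := eps_le h (k := k) (by omega) (by omega)
  have hkr : (0 : ℝ) ≤ k := Nat.cast_nonneg k
  have hMk : ((M - k : ℕ) : ℝ) = M - k := Nat.cast_sub (by omega)
  have hMk1 : (1 : ℝ) ≤ ((M - k : ℕ) : ℝ) := by
    have : 1 ≤ M - k := by omega
    exact_mod_cast this
  have hx : 1 / (rho c k + 1) ≤ 1 / ((k : ℝ) + 1) := by
    apply one_div_le_one_div_of_le (by linarith)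
    unfold rho
    linarith [h.c0]
  have hy : 1 / (beta M c k - 1) ≤ 1 / ((M - k : ℕ) : ℝ) := by
    apply one_div_le_one_div_of_le (by linarith)
    unfold beta bb rho
    rw [hMk] at hMk1 ⊢
    linarith [h.c0]
  obtain ⟨X, hX⟩ : ∃ X : ℝ, X = 1 / ((k : ℝ) + 1) := ⟨_, rfl⟩
  obtain ⟨Y, hY⟩ : ∃ Y : ℝ, Y = 1 / ((M - k : ℕ) : ℝ) := ⟨_, rfl⟩
  have hX0 : 0 < X := by rw [hX]; positivity
  have hY0 : 0 < Y := by rw [hY]; exact one_div_pos.2 (by linarith)
  have e1 : 1 / ((k + 1 : ℝ) * √(k + 1)) = X * √X := by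
    rw [hX, Real.sqrt_div' _ (by linarith : (0 : ℝ) ≤ (k : ℝ) + 1), Real.sqrt_one,
      div_mul_div_comm, one_mul]
  have e2 : 1 / (((M - k : ℕ) : ℝ) * √((M - k : ℕ) : ℝ)) = Y * √Y := by
    rw [hY, Real.sqrt_div' _ (by linarith : (0 : ℝ) ≤ ((M - k : ℕ) : ℝ)), Real.sqrt_one,
      div_mul_div_comm, one_mul]
  rw [e1, e2]
  have hE : eps M c k ≤ X + Y := by rw [hX, hY]; linarith
  have h2 : 2 / (rho c k + 1) ≤ 2 * X := by
    rw [hX]
    have : 2 / (rho c k + 1) = 2 * (1 / (rho c k + 1)) := by ring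
    rw [this]
    linarith
  have hfac : 3 * eps M c k + 2 / (rho c k + 1) ≤ 5 * (X + Y) := by linarith
  have hsqrt : √(2 * eps M c k) ≤ √(2 * (X + Y)) := Real.sqrt_le_sqrt (by linarith)
  have hmain : ∀ m : ℝ, 0 ≤ m → X + Y ≤ 2 * m →
      √(2 * eps M c k) * (3 * eps M c k + 2 / (rho c k + 1)) ≤ 20 * (m * √m) := by
    intro m hm hXY
    have h3 : √(2 * (X + Y)) ≤ 2 * √m := by
      have : √(2 * (X + Y)) ≤ √(4 * m) := Real.sqrt_le_sqrt (by linarith)
      have e4 : √(4 * m) = 2 * √m := by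
        rw [Real.sqrt_mul (by norm_num), show (4 : ℝ) = 2 ^ 2 by norm_num,
          Real.sqrt_sq (by norm_num)]
      rw [e4] at this
      exact this
    calc √(2 * eps M c k) * (3 * eps M c k + 2 / (rho c k + 1))
        ≤ (2 * √m) * (5 * (2 * m)) := by
          apply mul_le_mul (hsqrt.trans h3) _ _ (by positivity)
          · linarith
          · have : 0 < 2 / (rho c k + 1) := div_pos (by norm_num) (by
              linarith [U1_rho_nonneg h k])
            linarith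
      _ = 20 * (m * √m) := by ring
  rcases le_total X Y with hxy | hxy
  · refine (hmain Y hY0.le (by linarith)).trans ?_
    have : 0 ≤ X * √X := by positivity
    linarith
  · refine (hmain X hX0.le (by linarith)).trans ?_
    have : 0 ≤ Y * √Y := by positivity
    linarith

private theorem U4_step {n : ℕ} (hn : 1 ≤ n) :
    1 / (((n + 1 : ℕ) : ℝ) * √((n + 1 : ℕ) : ℝ)) ≤ 2 / √(n : ℝ) - 2 / √((n + 1 : ℕ) : ℝ) := by
  have hnr : (0 : ℝ) < n := by exact_mod_cast hn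
  push_cast
  obtain ⟨a, ha⟩ : ∃ a, a = √(n : ℝ) := ⟨_, rfl⟩
  obtain ⟨b, hb⟩ : ∃ b, b = √((n : ℝ) + 1) := ⟨_, rfl⟩
  have ha0 : 0 < a := by rw [ha]; exact Real.sqrt_pos.2 hnr
  have hb0 : 0 < b := by rw [hb]; exact Real.sqrt_pos.2 (by linarith)
  have ha2 : a ^ 2 = n := by rw [ha]; exact Real.sq_sqrt hnr.le
  have hb2 : b ^ 2 = (n : ℝ) + 1 := by rw [hb]; exact Real.sq_sqrt (by linarith)
  have hab : a ≤ b := by rw [ha, hb]; exact Real.sqrt_le_sqrt (by linarith)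
  rw [← ha, ← hb, ← hb2, div_sub_div _ _ ha0.ne' hb0.ne', div_le_div_iff₀ (by positivity)
    (by positivity)]
  have h1 : (b - a) * (b + a) = 1 := by nlinarith
  have h2 : 0 < b - a := by
    by_contra hcon
    nlinarith
  have h3 : 1 ≤ (b - a) * (2 * b) := by nlinarith
  have h4 : a * b ≤ b * b := mul_le_mul_of_nonneg_right hab hb0.le
  calc 1 * (a * b) ≤ b * b := by linarith
    _ = 1 * (b * b) := by ring
    _ ≤ ((b - a) * (2 * b)) * (b * b) := mul_le_mul_of_nonneg_right h3 (by positivity)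
    _ = (2 * b - a * 2) * (b ^ 2 * b) := by ring

private theorem U4_sum (N : ℕ) (hN : 50 ≤ N) :
    ∑ k ∈ Finset.Ico 50 N, 1 / (((k + 1 : ℕ) : ℝ) * √((k + 1 : ℕ) : ℝ)) ≤
      2 / √((50 : ℕ) : ℝ) - 2 / √(N : ℝ) := by
  induction N, hN using Nat.le_induction with
  | base => simp
  | succ N hN ih =>
    rw [Finset.sum_Ico_succ_top hN]
    have := U4_step (n := N) (by omega)
    linarith

private theorem U4_sum_le (N : ℕ) :
    ∑ k ∈ Finset.Ico 50 N, 1 / (((k + 1 : ℕ) : ℝ) * √((k + 1 : ℕ) : ℝ)) ≤ 3 := by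
  rcases le_total 50 N with hN | hN
  · refine (U4_sum N hN).trans ?_
    have h1 : 0 ≤ 2 / √(N : ℝ) := by positivity
    have h2 : 2 / √((50 : ℕ) : ℝ) ≤ 2 := by
      rw [div_le_iff₀ (Real.sqrt_pos.2 (by norm_num))]
      have : (1 : ℝ) ≤ √((50 : ℕ) : ℝ) := by
        rw [Real.one_le_sqrt]
        norm_num
      linarith
    linarith
  · rw [Finset.Ico_eq_empty_of_le hN]
    simp

/-- Sum over all kinks.  PROOF: `∑_{n = 1}^N 1/(n √n) ≤ 3` (telescoping:
`1/(n √n) ≤ 2 (1/√(n-1/2) - 1/√(n+1/2))`-type bound or `1/(n√n) ≤ 2/√(n-1) - 2/√n` for `n ≥ 2`), applied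
twice (`Finset.sum_flip`-style reindexing `k ↦ M - k` for the second sum, `Finset.sum_bij` or
`Finset.sum_Ico_reflect`). -/
theorem sum_kink_excess (h : Par M c) :
    ∑ k ∈ Finset.Ico 50 (M - 50), (rho c (k + 1) * (th M c (k + 1) - th M c k) +
      ‖pA M c k - vv M c k‖ + ‖vv M c k - pB M c k‖) ≤ 120 := by
  have h1 : ∑ k ∈ Finset.Ico 50 (M - 50), (rho c (k + 1) * (th M c (k + 1) - th M c k) +
      ‖pA M c k - vv M c k‖ + ‖vv M c k - pB M c k‖) ≤
      ∑ k ∈ Finset.Ico 50 (M - 50), 20 * (1 / ((k + 1 : ℝ) * √(k + 1)) +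
        1 / (((M - k : ℕ) : ℝ) * √((M - k : ℕ) : ℝ))) := by
    apply Finset.sum_le_sum
    intro k hk
    rw [Finset.mem_Ico] at hk
    exact kink_excess' h hk.1 (by omega)
  refine h1.trans ?_
  rw [← Finset.mul_sum, Finset.sum_add_distrib]
  have h2 : ∑ k ∈ Finset.Ico 50 (M - 50), 1 / ((k + 1 : ℝ) * √(k + 1)) ≤ 3 := by
    refine le_of_eq_of_le ?_ (U4_sum_le (M - 50))
    apply Finset.sum_congr rfl
    intro k _
    push_cast
    rfl
  have h3 : ∑ k ∈ Finset.Ico 50 (M - 50), 1 / (((M - k : ℕ) : ℝ) * √((M - k : ℕ) : ℝ)) ≤ 3 := by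
    have e := Finset.sum_Ico_reflect (fun j : ℕ => 1 / ((j : ℝ) * √(j : ℝ))) 50
      (m := M - 50) (n := M) (by omega)
    rw [e]
    have hM := h.M102
    have e1 : M + 1 - (M - 50) = 50 + 1 := by omega
    have e2 : M + 1 - 50 = (M - 50) + 1 := by omega
    rw [e1, e2, ← Finset.sum_Ico_add' (fun j : ℕ => 1 / ((j : ℝ) * √(j : ℝ))) 50 (M - 50) 1]
    exact U4_sum_le (M - 50)
  linarith

end Pool.Agent.W_8c5d11_h22
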