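import Pool.Agent.W_8c5d11_h22.U1b

/-!
MP_8c5d11_gt, part U, file U5: points covered by the arcs.
-/

open MeasureTheory Metric Set

namespace Pool.Agent.W_8c5d11_h22

variable {M : ℕ} {c : ℝ}

private theorem U5_angle {s t : ℝ} (hs : 0 ≤ s) (hs' : s ≤ Real.pi) (ht : 0 ≤ t)
    (ht' : t ≤ Real.pi) (h : Real.cos t ≤ Real.cos s) : s ≤ t :=
  (Real.strictAntiOn_cos.le_iff_ge ⟨ht, ht'⟩ ⟨hs, hs'⟩).1 h

/-- PROOF: write `z = ρ exp (i t)` with `t = arg z` in `(-π, π]`.  If `z.im < 0` use `t + 2 π ∈ [π, 2π]`,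
`th ≤ π`.  If `z.im ≥ 0` and `z.re ≤ ρ cos (th k)`: `cos t ≤ cos (th k)`, both angles in `[0, π]`, so
`th k ≤ t`.  If `z.im = 0` and `z.re > 0` then `z = ρ` and `t = 2π` works. -/
theorem mem_arcA {k : ℕ} (hk : 0 < rho c (k + 1)) {z : ℂ} (hz : ‖z‖ = rho c (k + 1))
    (h : z.im ≤ 0 ∨ z.re ≤ rho c (k + 1) * Real.cos (th M c k)) : z ∈ arcA M c k := by
  have hz0 : z ≠ 0 := by
    intro h0
    rw [h0, norm_zero] at hz
    exact hk.ne hz
  have hexp : ((rho c (k + 1) : ℝ) : ℂ) * Complex.exp (Complex.arg z * Complex.I) = z := by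
    rw [← hz]; exact Complex.norm_mul_exp_arg_mul_I z
  have hpi := Real.pi_pos
  by_cases ha : Complex.arg z ≤ 0
  · refine ⟨Complex.arg z + 2 * Real.pi, ⟨?_, by linarith⟩, ?_⟩
    · have h1 := th_le_pi (M := M) (c := c) k
      have h2 := Complex.neg_pi_lt_arg z
      linarith
    · show ((rho c (k + 1) : ℝ) : ℂ) *
        Complex.exp (((Complex.arg z + 2 * Real.pi : ℝ) : ℂ) * Complex.I) = z
      have h3 : (((Complex.arg z + 2 * Real.pi : ℝ) : ℂ) * Complex.I) =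
          (Complex.arg z : ℂ) * Complex.I + 2 * Real.pi * Complex.I := by
        push_cast; ring
      rw [h3, Complex.exp_periodic]
      exact hexp
  · push Not at ha
    refine ⟨Complex.arg z, ⟨?_, ?_⟩, hexp⟩
    · have him : 0 ≤ z.im := Complex.arg_nonneg_iff.1 ha.le
      rcases h with h | h
      · have h0 : z.im = 0 := le_antisymm h him
        have h1 : Real.sin (Complex.arg z) = 0 := by
          rw [Complex.sin_arg, h0, zero_div]
        have h2 : Complex.arg z = Real.pi := by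
          by_contra hne
          have h3 : Complex.arg z < Real.pi := lt_of_le_of_ne (Complex.arg_le_pi z) hne
          exact (Real.sin_pos_of_pos_of_lt_pi ha h3).ne' h1
        rw [h2]; exact th_le_pi k
      · refine U5_angle (th_nonneg k) (th_le_pi k) ha.le (Complex.arg_le_pi z) ?_
        rw [Complex.cos_arg hz0, hz, div_le_iff₀ hk]
        linarith
    · have h2 := Complex.arg_le_pi z
      linarith

/-- PROOF: `w = b - z` has norm `β`, `w.im ≤ 0`, `w.re ≥ β cos (ps k)`; `t = - arg w` is in `[0, π]`. -/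
theorem mem_arcB {k : ℕ} (hk : 0 < beta M c k) {z : ℂ} (hz : ‖z - (bb M c : ℂ)‖ = beta M c k)
    (him : 0 ≤ z.im) (hre : beta M c k * Real.cos (ps M c k) ≤ bb M c - z.re) : z ∈ arcB M c k := by
  have hps0 : 0 ≤ ps M c k := Real.arccos_nonneg _
  have hpspi : ps M c k ≤ Real.pi := Real.arccos_le_pi _
  have hw : ‖(bb M c : ℂ) - z‖ = beta M c k := by rw [norm_sub_rev]; exact hz
  have hw0 : (bb M c : ℂ) - z ≠ 0 := by
    intro h0
    rw [h0, norm_zero] at hw
    exact hk.ne hw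
  have hexp : ((beta M c k : ℝ) : ℂ) *
      Complex.exp (Complex.arg ((bb M c : ℂ) - z) * Complex.I) = (bb M c : ℂ) - z := by
    rw [← hw]; exact Complex.norm_mul_exp_arg_mul_I _
  have hcos : Real.cos (ps M c k) ≤ Real.cos (Complex.arg ((bb M c : ℂ) - z)) := by
    rw [Complex.cos_arg hw0, hw, le_div_iff₀ hk]
    simp only [Complex.sub_re, Complex.ofReal_re]
    linarith
  have him' : ((bb M c : ℂ) - z).im ≤ 0 := by simpa using him
  have hpi := Real.pi_pos
  by_cases ha : Complex.arg ((bb M c : ℂ) - z) ≤ 0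
  · refine ⟨-Complex.arg ((bb M c : ℂ) - z), ⟨by linarith, ?_⟩, ?_⟩
    · refine U5_angle (by linarith) ?_ hps0 hpspi (by rwa [Real.cos_neg])
      have := Complex.neg_pi_lt_arg ((bb M c : ℂ) - z)
      linarith
    · show (bb M c : ℂ) - ((beta M c k : ℝ) : ℂ) *
        Complex.exp (-((-Complex.arg ((bb M c : ℂ) - z) : ℝ) : ℂ) * Complex.I) = z
      have h3 : (-((-Complex.arg ((bb M c : ℂ) - z) : ℝ) : ℂ) * Complex.I) =
          (Complex.arg ((bb M c : ℂ) - z) : ℂ) * Complex.I := by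
        push_cast; ring
      rw [h3, hexp]; ring
  · push Not at ha
    have h0 : ((bb M c : ℂ) - z).im = 0 := le_antisymm him' (Complex.arg_nonneg_iff.1 ha.le)
    have h1 : Real.sin (Complex.arg ((bb M c : ℂ) - z)) = 0 := by
      rw [Complex.sin_arg, h0, zero_div]
    have h2 : Complex.arg ((bb M c : ℂ) - z) = Real.pi := by
      by_contra hne
      have h3 : Complex.arg ((bb M c : ℂ) - z) < Real.pi :=
        lt_of_le_of_ne (Complex.arg_le_pi _) hne
      exact (Real.sin_pos_of_pos_of_lt_pi ha h3).ne' h1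
    rw [h2] at hcos hexp
    refine ⟨Real.pi, ⟨hpi.le, U5_angle hpi.le le_rfl hps0 hpspi hcos⟩, ?_⟩
    show (bb M c : ℂ) - ((beta M c k : ℝ) : ℂ) * Complex.exp (-(Real.pi : ℂ) * Complex.I) = z
    have h3 : Complex.exp (-(Real.pi : ℂ) * Complex.I) = Complex.exp ((Real.pi : ℂ) * Complex.I) := by
      rw [neg_mul, Complex.exp_neg, Complex.exp_pi_mul_I]; norm_num
    rw [h3, hexp]; ring

private theorem U5_dist {w : ℂ} (hw : w ≠ 0) (r : ℝ) (h : |‖w‖ - r| ≤ 1) :
    ‖w - ((r / ‖w‖ : ℝ) : ℂ) * w‖ ≤ 1 := by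
  have hn : 0 < ‖w‖ := norm_pos_iff.2 hw
  have h1 : w - ((r / ‖w‖ : ℝ) : ℂ) * w = (((‖w‖ - r) / ‖w‖ : ℝ) : ℂ) * w := by
    have h2 : (‖w‖ - r) / ‖w‖ = 1 - r / ‖w‖ := by field_simp
    rw [h2]; push_cast; ring
  rw [h1, norm_mul, Complex.norm_real, Real.norm_eq_abs, abs_div, abs_of_pos hn,
    div_mul_cancel₀ _ hn.ne']
  exact h

private theorem U5_norm {w : ℂ} (hw : w ≠ 0) {r : ℝ} (h : 0 ≤ r) :
    ‖((r / ‖w‖ : ℝ) : ℂ) * w‖ = r := by
  have hn : 0 < ‖w‖ := norm_pos_iff.2 hw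
  rw [norm_mul, Complex.norm_real, Real.norm_eq_abs, abs_of_nonneg (div_nonneg h hn.le),
    div_mul_cancel₀ _ hn.ne']

/-- Radial covering.  PROOF: `z = (ρ / ‖y‖) y` with `ρ = rho (k+1)`, `mem_arcA`, `cos_th`. -/
theorem cov_arcA (h : Par M c) {k : ℕ} (hk : k ≤ M) {y : ℂ} (hy : y ≠ 0)
    (hyr : |‖y‖ - rho c (k + 1)| ≤ 1)
    (hang : y.im ≤ 0 ∨ y.re * (rho c k + 1) ≤ ‖y‖ * px M c k) : ∃ z ∈ arcA M c k, dist y z ≤ 1 := by
  have hc := h.c0
  have hrho : 0 < rho c (k + 1) := by unfold rho; push_cast; positivity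
  have hrho' : 0 < rho c k + 1 := by unfold rho; positivity
  have hn : 0 < ‖y‖ := norm_pos_iff.2 hy
  refine ⟨((rho c (k + 1) / ‖y‖ : ℝ) : ℂ) * y, ?_, ?_⟩
  · refine mem_arcA hrho (U5_norm hy hrho.le) ?_
    rw [Complex.re_ofReal_mul, Complex.im_ofReal_mul]
    rcases hang with h1 | h1
    · left
      exact mul_nonpos_of_nonneg_of_nonpos (by positivity) h1
    · right
      rw [cos_th h hk, div_mul_eq_mul_div, mul_div_assoc]
      refine mul_le_mul_of_nonneg_left ?_ hrho.le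
      rw [div_le_div_iff₀ hn hrho']
      linarith
  · rw [dist_eq_norm]
    exact U5_dist hy _ hyr

/-- Radial covering from the second centre.  PROOF: `z = b + (β / ‖y - b‖) (y - b)`, `mem_arcB`. -/
theorem cov_arcB (h : Par M c) {k : ℕ} (hk : k < M) {y : ℂ} (hy : y ≠ (bb M c : ℂ))
    (hyr : |‖y - (bb M c : ℂ)‖ - beta M c k| ≤ 1) (him : 0 ≤ y.im)
    (hang : ‖y - (bb M c : ℂ)‖ * (bb M c - px M c k) ≤ (bb M c - y.re) * (beta M c k + 1)) :
    ∃ z ∈ arcB M c k, dist y z ≤ 1 := by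
  have hc := h.c0
  have hkM : (k : ℝ) + 1 ≤ M := by exact_mod_cast hk
  have hb : 0 < beta M c k := by unfold beta bb rho; linarith
  have hy' : y - (bb M c : ℂ) ≠ 0 := sub_ne_zero.2 hy
  have hn : 0 < ‖y - (bb M c : ℂ)‖ := norm_pos_iff.2 hy'
  refine ⟨(bb M c : ℂ) + ((beta M c k / ‖y - (bb M c : ℂ)‖ : ℝ) : ℂ) * (y - (bb M c : ℂ)), ?_, ?_⟩
  · refine mem_arcB hb ?_ ?_ ?_
    · rw [add_sub_cancel_left]; exact U5_norm hy' hb.le
    · rw [Complex.add_im, Complex.im_ofReal_mul, Complex.sub_im, Complex.ofReal_im, sub_zero,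
        zero_add]
      positivity
    · rw [Complex.add_re, Complex.re_ofReal_mul, Complex.sub_re, Complex.ofReal_re,
        cos_ps h hk.le]
      have h1 : (bb M c - px M c k) / (beta M c k + 1) ≤
          (bb M c - y.re) / ‖y - (bb M c : ℂ)‖ := by
        rw [div_le_div_iff₀ (by linarith) hn]
        linarith
      have h2 := mul_le_mul_of_nonneg_left h1 hb.le
      have h3 : bb M c - (bb M c + beta M c k / ‖y - (bb M c : ℂ)‖ * (y.re - bb M c)) =
          beta M c k * ((bb M c - y.re) / ‖y - (bb M c : ℂ)‖) := by ring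
      rw [h3]; exact h2
  · rw [dist_eq_norm]
    have h1 := U5_dist hy' _ hyr
    have h2 : y - ((bb M c : ℂ) + ((beta M c k / ‖y - (bb M c : ℂ)‖ : ℝ) : ℂ) *
        (y - (bb M c : ℂ))) = (y - (bb M c : ℂ)) -
        ((beta M c k / ‖y - (bb M c : ℂ)‖ : ℝ) : ℂ) * (y - (bb M c : ℂ)) := by ring
    rw [h2]; exact h1

/-- The outer circle. -/
theorem cov_outer (h : Par M c) {y : ℂ} (hyr : |‖y‖ - rho c M| ≤ 1) :
    ∃ z ∈ outer M c, dist y z ≤ 1 := by
  have hc := h.c0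
  have hM : (102 : ℝ) ≤ M := by exact_mod_cast h.M102
  have hrho : 1 < rho c M := by unfold rho; linarith
  have hy : y ≠ 0 := by
    rintro rfl
    rw [norm_zero, abs_le] at hyr
    linarith [hyr.1]
  refine ⟨((rho c M / ‖y‖ : ℝ) : ℂ) * y, ?_, ?_⟩
  · rw [outer, mem_sphere_zero_iff_norm]
    exact U5_norm hy (by linarith)
  · rw [dist_eq_norm]
    exact U5_dist hy _ hyr

end Pool.Agent.W_8c5d11_h22
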