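import Pool.Agent.W_8c5d11_h22.U5
import Pool.Agent.W_8c5d11_h22.U2
import Pool.Agent.W_8c5d11_h22.U3b

/-!
MP_8c5d11_gt, part U, file U6: points covered by the kinks.
-/

open MeasureTheory Metric Set

namespace Pool.Agent.W_8c5d11_h22

variable {M : ℕ} {c : ℝ}

theorem U6_rho_succ (c : ℝ) (k : ℕ) : rho c (k + 1) = rho c k + 2 := by
  unfold rho; push_cast; ring

theorem U6_beta_succ (M : ℕ) (c : ℝ) (k : ℕ) : beta M c (k + 1) = beta M c k - 2 := by
  unfold beta; rw [U6_rho_succ]; ring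

theorem U6_rho_ge (h : Par M c) {j : ℕ} (hj : 50 ≤ j) : 102 ≤ rho c (j + 1) := by
  unfold rho
  have : (50 : ℝ) ≤ j := by exact_mod_cast hj
  push_cast
  linarith [h.c0]

theorem U6_beta_ge (h : Par M c) {j : ℕ} (hjM : j + 50 < M) : 102 ≤ beta M c j := by
  unfold beta bb rho
  have : ((j : ℝ) + 51) ≤ M := by exact_mod_cast hjM
  linarith [h.c0]

/-- sign of the parameter along the ray -/
theorem U6_ray {a b x y N n : ℝ} (hN : 0 < N) (hn : 0 ≤ n) (ha : 0 < a) (hb : 0 ≤ b)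
    (hab : a ^ 2 + b ^ 2 = N ^ 2) (hxy : x ^ 2 + y ^ 2 = n ^ 2)
    (hlt : n * a < x * N) : a * y - b * x < 0 := by
  have hx : 0 < x := by
    have h1 : 0 < x * N := lt_of_le_of_lt (by positivity) hlt
    exact pos_of_mul_pos_left h1 hN.le
  by_contra hcon
  push Not at hcon
  have h2 : b * x ≤ a * y := by linarith
  have h3 : (b * x) ^ 2 ≤ (a * y) ^ 2 := by
    apply pow_le_pow_left₀ (by positivity) h2
  have h4 : (n * a) ^ 2 < (x * N) ^ 2 := by
    apply pow_lt_pow_left₀ hlt (by positivity) (by norm_num)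
  nlinarith

/-- A point `y` over the strip `[px j, px (j+1)]`, on or above the chord of `pt j` and `pt (j+1)`, and
strictly below the ray through `pt j` (seen from `0`), with `‖y‖ ≤ rho (j+1) + 1`, is within distance `1` of
`[pA, vv]`.  PROOF: let `u = pt j`, `v = pt (j+1)`, `cr = u.re v.im - u.im v.re < 0` (`cross_neg`),
`Z = (1-τ) u + τ v` the point of the chord below `y`, `y = Z + i h`, `h ≥ 0`.  Then `y = s u + t v` with
`s = (1-τ) - h v.re/cr ≥ 0`, `t = τ + h u.re/cr`, `s + t - 1 = - h (v.re - u.re)/cr ≥ 0`, and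
`t = (u.re y.im - u.im y.re)/cr > 0` because `y` is below the ray (both in the upper half plane:
`y.re ‖u‖ > ‖y‖ u.re` with `y.im ≥ 0`, `u.re > 0`, `u.im > 0` gives `u.re y.im < u.im y.re`).
Apply `cov_upper` with `ρ = rho (j+1)`, `ε = eps j`. -/
theorem cov_kink_up (h : Par M c) {j : ℕ} (hj : 50 ≤ j) (hjM : j + 50 < M) {y : ℂ} {τ : ℝ}
    (hτ0 : 0 ≤ τ) (hτ1 : τ ≤ 1) (hre : y.re = (1 - τ) * px M c j + τ * px M c (j + 1))
    (him : (1 - τ) * py M c j + τ * py M c (j + 1) ≤ y.im)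
    (hray : ‖y‖ * px M c j < y.re * (rho c j + 1)) (hy : ‖y‖ ≤ rho c (j + 1) + 1) :
    ∃ z ∈ segment ℝ (pA M c j) (vv M c j), dist y z ≤ 1 := by
  have hcr := cross_neg h (k := j) (by omega) (by omega)
  have hu := norm_pt h (k := j) (by omega)
  have hv := norm_pt h (k := j + 1) (by omega)
  have hρ := U6_rho_ge h hj
  have hrs := U6_rho_succ c j
  have heps := eps_pos h (k := j) (by omega)
  have heps' := eps_le_fiftieth h hj hjM
  have hdd := dd_eq M c j
  have hpx0 := px_pos h (k := j) (by omega)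
  have hpx1 := px_pos h (k := j + 1) (by omega)
  have hpxm := px_mono h (j := j) (k := j + 1) (by omega)
  have hpy0 := py_nonneg h j
  have hy2 : y.re ^ 2 + y.im ^ 2 = ‖y‖ ^ 2 := by
    rw [← Complex.normSq_eq_norm_sq, Complex.normSq_apply]; ring
  have hu2 : px M c j ^ 2 + py M c j ^ 2 = (rho c j + 1) ^ 2 := by
    rw [← hu, ← Complex.normSq_eq_norm_sq, Complex.normSq_apply]; simp only [pt]; ring
  have hraysgn := U6_ray (N := rho c j + 1) (n := ‖y‖) (by linarith) (norm_nonneg _) hpx0 hpy0 hu2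
    hy2 hray
  obtain ⟨cr, hcrd⟩ : ∃ cr, cr = px M c j * py M c (j + 1) - py M c j * px M c (j + 1) := ⟨_, rfl⟩
  rw [← hcrd] at hcr
  obtain ⟨hh, hhd⟩ : ∃ hh, hh = y.im - ((1 - τ) * py M c j + τ * py M c (j + 1)) := ⟨_, rfl⟩
  have hh0 : 0 ≤ hh := by rw [hhd]; linarith
  obtain ⟨s, hs⟩ : ∃ s, s = (1 - τ) - hh * px M c (j + 1) / cr := ⟨_, rfl⟩
  obtain ⟨t, ht⟩ : ∃ t, t = τ + hh * px M c j / cr := ⟨_, rfl⟩
  have hs0 : 0 ≤ s := by
    rw [hs]
    have : hh * px M c (j + 1) / cr ≤ 0 := div_nonpos_of_nonneg_of_nonpos (by positivity) hcr.le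
    linarith
  have ht' : t = (px M c j * y.im - py M c j * y.re) / cr := by
    rw [ht, hre, eq_div_iff hcr.ne, add_mul, div_mul_cancel₀ _ hcr.ne, hhd, hcrd]
    ring
  have ht0 : 0 ≤ t := by
    rw [ht']
    exact (div_pos_of_neg_of_neg hraysgn hcr).le
  have hst : 1 ≤ s + t := by
    have e : s + t = 1 - hh * (px M c (j + 1) - px M c j) / cr := by
      rw [hs, ht]; ring
    rw [e]
    have : hh * (px M c (j + 1) - px M c j) / cr ≤ 0 :=
      div_nonpos_of_nonneg_of_nonpos (mul_nonneg hh0 (by linarith)) hcr.le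
    linarith
  have hyeq : y = (s : ℂ) * pt M c j + (t : ℂ) * pt M c (j + 1) := by
    apply Complex.ext
    · simp only [Complex.add_re, Complex.re_ofReal_mul, pt]
      rw [hre, hs, ht]
      field_simp
      ring
    · simp only [Complex.add_im, Complex.im_ofReal_mul, pt]
      have e : y.im = hh + ((1 - τ) * py M c j + τ * py M c (j + 1)) := by rw [hhd]; ring
      rw [e, hs, ht]
      have hcr' : cr ≠ 0 := hcr.ne
      field_simp
      rw [hcrd]
      ring
  have key := cov_upper (u := pt M c j) (v := pt M c (j + 1)) (ρ := rho c (j + 1))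
    (ε := eps M c j) (by linarith) heps heps' (by rw [hu]; linarith) hv
    (by rw [← hdd]; rfl) hs0 ht0 hst (by rw [← hyeq]; exact hy)
  obtain ⟨w, hw, hw1⟩ := key
  rw [← hyeq] at hw1
  refine ⟨w, ?_, by rwa [dist_eq_norm]⟩
  unfold pA vv
  rw [hdd]
  exact hw

/-- Lower part.  PROOF: `u' = pt j - b`, `v' = pt (j+1) - b`, `cr' = u'.re v'.im - u'.im v'.re < 0`
(`cross_neg'`), `y - b = (1-τ) u' + τ v' - i h'`, `h' ≥ 0`; `y - b = s u' + t v'` with
`s = (1-τ) + h' v'.re/cr' ≥ 0`, `t = τ - h' u'.re/cr'`, `s + t - 1 = h' (v'.re - u'.re)/cr' ≤ 0` and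
`t = (u'.re y.im - u'.im (y.re - b))/cr' ≥ 0` by the hypothesis on the ray.  Apply `cov_lower` with
`β = beta j`, `ε = eps j` to `y - b` and translate the segment by `b`. -/
theorem cov_kink_low (h : Par M c) {j : ℕ} (hj : 50 ≤ j) (hjM : j + 50 < M) {y : ℂ} {τ : ℝ}
    (hτ0 : 0 ≤ τ) (hτ1 : τ ≤ 1) (hre : y.re = (1 - τ) * px M c j + τ * px M c (j + 1))
    (him0 : 0 ≤ y.im) (him : y.im ≤ (1 - τ) * py M c j + τ * py M c (j + 1))
    (hray : (bb M c - y.re) * (beta M c j + 1) < ‖y - (bb M c : ℂ)‖ * (bb M c - px M c j))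
    (hy : beta M c j - 1 ≤ ‖y - (bb M c : ℂ)‖) :
    ∃ z ∈ segment ℝ (pB M c j) (vv M c j), dist y z ≤ 1 := by
  have hcr := cross_neg' h (k := j) (by omega) (by omega)
  have hu := norm_pt_sub h (k := j) (by omega)
  have hv := norm_pt_sub h (k := j + 1) (by omega)
  have hβ := U6_beta_ge h hjM
  have hbs := U6_beta_succ M c j
  have heps := eps_pos h (k := j) (by omega)
  have hdd := dd_eq M c j
  have hbx0 := bb_sub_px_pos h (k := j) (by omega)
  have hbx1 := bb_sub_px_pos h (k := j + 1) (by omega)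
  have hpxm := px_mono h (j := j) (k := j + 1) (by omega)
  have hpy0 := py_nonneg h j
  set B : ℝ := bb M c with hB
  have hy2 : (y.re - B) ^ 2 + y.im ^ 2 = ‖y - (B : ℂ)‖ ^ 2 := by
    rw [← Complex.normSq_eq_norm_sq, Complex.normSq_apply]
    simp only [Complex.sub_re, Complex.sub_im, Complex.ofReal_re, Complex.ofReal_im]; ring
  have hu2 : (px M c j - B) ^ 2 + py M c j ^ 2 = (beta M c j + 1) ^ 2 := by
    rw [← hu, ← Complex.normSq_eq_norm_sq, Complex.normSq_apply]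
    simp only [pt, Complex.sub_re, Complex.sub_im, Complex.ofReal_re, Complex.ofReal_im]; ring
  obtain ⟨cr, hcrd⟩ : ∃ cr, cr = (px M c j - B) * py M c (j + 1) - py M c j * (px M c (j + 1) - B) :=
    ⟨_, rfl⟩
  rw [← hcrd] at hcr
  obtain ⟨hh, hhd⟩ : ∃ hh, hh = ((1 - τ) * py M c j + τ * py M c (j + 1)) - y.im := ⟨_, rfl⟩
  have hh0 : 0 ≤ hh := by rw [hhd]; linarith
  obtain ⟨s, hs⟩ : ∃ s, s = (1 - τ) + hh * (px M c (j + 1) - B) / cr := ⟨_, rfl⟩
  obtain ⟨t, ht⟩ : ∃ t, t = τ - hh * (px M c j - B) / cr := ⟨_, rfl⟩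
  have hs0 : 0 ≤ s := by
    rw [hs]
    have : 0 ≤ hh * (px M c (j + 1) - B) / cr :=
      div_nonneg_of_nonpos (mul_nonpos_of_nonneg_of_nonpos hh0 (by linarith)) hcr.le
    linarith
  have ht' : t = ((px M c j - B) * y.im - py M c j * (y.re - B)) / cr := by
    rw [ht, hre, eq_div_iff hcr.ne, sub_mul, div_mul_cancel₀ _ hcr.ne, hhd, hcrd]
    ring
  have hsgn : (px M c j - B) * y.im - py M c j * (y.re - B) ≤ 0 := by
    by_contra hcon
    push Not at hcon
    -- py * (B - y.re) > (B - px) * y.im >= 0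
    have h2 : (B - px M c j) * y.im < py M c j * (B - y.re) := by linarith
    have h3 : 0 ≤ (B - px M c j) * y.im := mul_nonneg hbx0.le him0
    have h4 : ((B - px M c j) * y.im) ^ 2 < (py M c j * (B - y.re)) ^ 2 :=
      pow_lt_pow_left₀ h2 h3 (by norm_num)
    have h5 : 0 < B - y.re := by
      have : 0 < py M c j * (B - y.re) := lt_of_le_of_lt h3 h2
      exact pos_of_mul_pos_right this hpy0
    have h6 : ((B - y.re) * (beta M c j + 1)) ^ 2 <
        (‖y - (B : ℂ)‖ * (B - px M c j)) ^ 2 :=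
      pow_lt_pow_left₀ hray (mul_nonneg h5.le (by linarith)) (by norm_num)
    rw [mul_pow, mul_pow, ← hy2, ← hu2] at h6
    nlinarith
  have ht0 : 0 ≤ t := by
    rw [ht']
    exact div_nonneg_of_nonpos hsgn hcr.le
  have hst : s + t ≤ 1 := by
    have e : s + t = 1 + hh * (px M c (j + 1) - px M c j) / cr := by
      rw [hs, ht]; ring
    rw [e]
    have : hh * (px M c (j + 1) - px M c j) / cr ≤ 0 :=
      div_nonpos_of_nonneg_of_nonpos (mul_nonneg hh0 (by linarith)) hcr.le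
    linarith
  have hyeq : y - (B : ℂ) = (s : ℂ) * (pt M c j - (B : ℂ)) + (t : ℂ) * (pt M c (j + 1) - (B : ℂ)) := by
    apply Complex.ext
    · simp only [Complex.add_re, Complex.re_ofReal_mul, pt, Complex.sub_re, Complex.ofReal_re]
      rw [hre, hs, ht]
      field_simp
      ring
    · simp only [Complex.add_im, Complex.im_ofReal_mul, pt, Complex.sub_im, Complex.ofReal_im,
        sub_zero]
      have e : y.im = ((1 - τ) * py M c j + τ * py M c (j + 1)) - hh := by rw [hhd]; ring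
      rw [e, hs, ht]
      have hcr' : cr ≠ 0 := hcr.ne
      field_simp
      rw [hcrd]
      ring
  have key := cov_lower (u := pt M c j - (B : ℂ)) (v := pt M c (j + 1) - (B : ℂ))
    (β := beta M c j) (ε := eps M c j) (by linarith) heps.le hu (by rw [hv]; linarith)
    (by rw [sub_sub_sub_cancel_right, ← hdd]; rfl) hs0 ht0 hst (by rw [← hyeq]; exact hy)
  obtain ⟨w, hw, hw1⟩ := key
  rw [← hyeq] at hw1
  refine ⟨(B : ℂ) + w, ?_, ?_⟩
  · obtain ⟨a, b, ha, hb, hab, rfl⟩ := hw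
    refine ⟨a, b, ha, hb, hab, ?_⟩
    unfold pB vv
    rw [hdd, ← hB]
    simp only [Complex.real_smul]
    have hab' : (a : ℂ) + (b : ℂ) = 1 := by exact_mod_cast hab
    linear_combination (B : ℂ) * hab'
  · rw [dist_eq_norm]
    calc ‖y - ((B : ℂ) + w)‖ = ‖y - (B : ℂ) - w‖ := by rw [sub_add_eq_sub_sub]
      _ ≤ 1 := hw1

/-- Above the chord one is at least as far from `0` as `pt j`.  PROOF: `⟪y, pt j⟫ ≥ ‖pt j‖²`, because
`⟪pt (j+1), pt j⟫ = ρ² + 1 - 2 (1+ε)² ≥ (ρ-1)²` (`ρ = rho (j+1) ≥ 102`, `ε ≤ 1/50`) and `py j ≥ 0`. -/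
theorem norm_ge_of_above (h : Par M c) {j : ℕ} (hj : 50 ≤ j) (hjM : j + 50 < M) {y : ℂ} {τ : ℝ}
    (hτ0 : 0 ≤ τ) (hτ1 : τ ≤ 1) (hre : y.re = (1 - τ) * px M c j + τ * px M c (j + 1))
    (him : (1 - τ) * py M c j + τ * py M c (j + 1) ≤ y.im) : rho c j + 1 ≤ ‖y‖ := by
  have hu := norm_pt h (k := j) (by omega)
  have hv := norm_pt h (k := j + 1) (by omega)
  have hρ := U6_rho_ge h hj
  have hrs := U6_rho_succ c j
  have heps := eps_pos h (k := j) (by omega)
  have heps' := eps_le_fiftieth h hj hjM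
  have hdd := dd_eq M c j
  have hpy0 := py_nonneg h j
  have hu2 : px M c j ^ 2 + py M c j ^ 2 = (rho c j + 1) ^ 2 := by
    rw [← hu, ← Complex.normSq_eq_norm_sq, Complex.normSq_apply]; simp only [pt]; ring
  have hv2 : px M c (j + 1) ^ 2 + py M c (j + 1) ^ 2 = (rho c (j + 1) + 1) ^ 2 := by
    rw [← hv, ← Complex.normSq_eq_norm_sq, Complex.normSq_apply]; simp only [pt]; ring
  have hd2 : (px M c (j + 1) - px M c j) ^ 2 + (py M c (j + 1) - py M c j) ^ 2 =
      4 * (1 + eps M c j) ^ 2 := by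
    have : dd M c j ^ 2 = 4 * (1 + eps M c j) ^ 2 := by rw [hdd]; ring
    rw [← this]
    unfold dd
    rw [← Complex.normSq_eq_norm_sq, Complex.normSq_apply]
    simp only [pt, Complex.sub_re, Complex.sub_im]; ring
  have hy2 : y.re ^ 2 + y.im ^ 2 = ‖y‖ ^ 2 := by
    rw [← Complex.normSq_eq_norm_sq, Complex.normSq_apply]; ring
  -- inner product of consecutive points
  have hin : (rho c j + 1) ^ 2 ≤ px M c j * px M c (j + 1) + py M c j * py M c (j + 1) := by
    nlinarith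
  -- inner product with y
  have hin2 : (rho c j + 1) ^ 2 ≤ px M c j * y.re + py M c j * y.im := by
    have h1 : py M c j * ((1 - τ) * py M c j + τ * py M c (j + 1)) ≤ py M c j * y.im :=
      mul_le_mul_of_nonneg_left him hpy0
    rw [hre]
    nlinarith
  have hcs : px M c j * y.re + py M c j * y.im ≤ (rho c j + 1) * ‖y‖ := by
    apply abs_le_of_sq_le_sq' _ (mul_nonneg (by linarith) (norm_nonneg _)) |>.2
    rw [mul_pow, ← hy2, ← hu2]
    nlinarith [sq_nonneg (px M c j * y.im - py M c j * y.re)]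
  have hpos : 0 < rho c j + 1 := by linarith
  have : (rho c j + 1) * (rho c j + 1) ≤ (rho c j + 1) * ‖y‖ := by nlinarith
  exact le_of_mul_le_mul_left this hpos

/-- Below the chord one is at most as far from `b` as `pt j`.  PROOF: `‖y - b‖ ≤ ‖Z - b‖ ≤
(1-τ) ‖pt j - b‖ + τ ‖pt (j+1) - b‖ ≤ beta j + 1`. -/
theorem norm_sub_le_of_below (h : Par M c) {j : ℕ} (hjM : j + 1 ≤ M) {y : ℂ} {τ : ℝ}
    (hτ0 : 0 ≤ τ) (hτ1 : τ ≤ 1) (hre : y.re = (1 - τ) * px M c j + τ * px M c (j + 1))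
    (him0 : 0 ≤ y.im) (him : y.im ≤ (1 - τ) * py M c j + τ * py M c (j + 1)) :
    ‖y - (bb M c : ℂ)‖ ≤ beta M c j + 1 := by
  have hu := norm_pt_sub h (k := j) (by omega)
  have hv := norm_pt_sub h (k := j + 1) (by omega)
  have hbs := U6_beta_succ M c j
  obtain ⟨Z, hZ⟩ : ∃ Z : ℂ, Z = ((1 - τ : ℝ) : ℂ) * (pt M c j - (bb M c : ℂ)) +
    ((τ : ℝ) : ℂ) * (pt M c (j + 1) - (bb M c : ℂ)) := ⟨_, rfl⟩
  have h1 : ‖Z‖ ≤ beta M c j + 1 := by
    rw [hZ]
    refine (norm_add_le _ _).trans ?_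
    rw [norm_mul, norm_mul, hu, hv, Complex.norm_real, Complex.norm_real, Real.norm_of_nonneg hτ0,
      Real.norm_of_nonneg (by linarith), hbs]
    nlinarith
  refine le_trans ?_ h1
  apply abs_le_of_sq_le_sq' _ (norm_nonneg _) |>.2
  rw [← Complex.normSq_eq_norm_sq, ← Complex.normSq_eq_norm_sq, Complex.normSq_apply,
    Complex.normSq_apply]
  have e1 : (y - (bb M c : ℂ)).re = Z.re := by
    rw [hZ]
    simp only [Complex.add_re, Complex.re_ofReal_mul, pt, Complex.sub_re, Complex.ofReal_re]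
    rw [hre]; ring
  have e2 : Z.im = (1 - τ) * py M c j + τ * py M c (j + 1) := by
    rw [hZ]
    simp only [Complex.add_im, Complex.im_ofReal_mul, pt, Complex.sub_im, Complex.ofReal_im]
    ring
  have e3 : (y - (bb M c : ℂ)).im = y.im := by simp
  rw [e1, e3, e2]
  nlinarith

end Pool.Agent.W_8c5d11_h22
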