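import Pool.Agent.W_8c5d11_h22.U6

/-!
MP_8c5d11_gt, part U, file U7: the covering of the disc, left part and index lemma.
-/

open MeasureTheory Metric Set

namespace Pool.Agent.W_8c5d11_h22

variable {M : ℕ} {c : ℝ}

/-- `y` is close to one of the two grid areas or within distance `1` of the curves. -/
def Cov (M : ℕ) (c : ℝ) (y : ℂ) : Prop :=
  ‖y‖ ≤ 103 ∨ ‖y - (bb M c : ℂ)‖ ≤ 400 ∨ (∃ z ∈ outer M c, dist y z ≤ 1) ∨
    (∃ k ∈ Finset.Ico 50 (M - 1), ∃ z ∈ arcA M c k, dist y z ≤ 1) ∨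
    ∃ k ∈ Finset.Ico 50 (M - 50), ∃ z ∈ arcB M c k ∪ segment ℝ (pA M c k) (vv M c k) ∪
      segment ℝ (pB M c k) (vv M c k), dist y z ≤ 1

/-- Index.  PROOF: if `rho M - 1 ≤ ‖y‖` the outer circle covers `y` (`cov_outer`).  Otherwise
`i = ⌊(‖y‖ - 1 - c) / 2⌋₊`; `103 < ‖y‖` gives `50 ≤ i` (as `rho 50 + 1 = 101 + c < 103`), and
`‖y‖ < rho M - 1 = rho (M-1) + 1` gives `i + 1 < M`, that is `i ≤ M - 2`. -/
theorem exists_index (h : Par M c) {y : ℂ} (hy : ‖y‖ ≤ rho c M + 1) (hn : ¬ Cov M c y) :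
    ∃ i : ℕ, 50 ≤ i ∧ i + 1 < M ∧ rho c i + 1 ≤ ‖y‖ ∧ ‖y‖ < rho c (i + 1) + 1 := by
  have h103 : 103 < ‖y‖ := by
    by_contra hcon
    exact hn (Or.inl (not_lt.1 hcon))
  have hM := h.M102
  have hMr : (102 : ℝ) ≤ M := by exact_mod_cast hM
  have hout : ‖y‖ < rho c M - 1 := by
    by_contra hcon
    rw [not_lt] at hcon
    have habs : |‖y‖ - rho c M| ≤ 1 := by
      rw [abs_le]; constructor <;> linarith
    exact hn (Or.inr (Or.inr (Or.inl (cov_outer h habs))))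
  have hc0 := h.c0
  have hc2 := h.c2
  have hnn : 0 ≤ (‖y‖ - 1 - c) / 2 := by
    apply div_nonneg _ (by norm_num)
    linarith
  obtain ⟨i, hi⟩ : ∃ i, i = ⌊(‖y‖ - 1 - c) / 2⌋₊ := ⟨_, rfl⟩
  have hfl := Nat.floor_le hnn
  have hlt := Nat.lt_floor_add_one ((‖y‖ - 1 - c) / 2)
  rw [← hi] at hfl hlt
  have h1 : rho c i + 1 ≤ ‖y‖ := by
    unfold rho; linarith
  have h2 : ‖y‖ < rho c (i + 1) + 1 := by
    unfold rho; push_cast; linarith
  refine ⟨i, ?_, ?_, h1, h2⟩
  · rw [hi]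
    apply Nat.le_floor
    push_cast
    linarith
  · have : (i : ℝ) + 1 < M := by
      unfold rho at hout h1
      linarith
    exact_mod_cast this

/-- If `y` is not covered and `i` is the index of `exists_index` then `y` is in the open upper half plane
and strictly below the ray through `pt i`.  PROOF: `cov_arcA`. -/
theorem ray_of_not_cov (h : Par M c) {y : ℂ} (hn : ¬ Cov M c y) {i : ℕ} (hi : 50 ≤ i)
    (hiM : i + 1 < M) (h1 : rho c i + 1 ≤ ‖y‖) (h2 : ‖y‖ < rho c (i + 1) + 1) :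
    0 < y.im ∧ ‖y‖ * px M c i < y.re * (rho c i + 1) := by
  have hrs := U6_rho_succ c i
  have habs : |‖y‖ - rho c (i + 1)| ≤ 1 := by
    rw [abs_le]; constructor <;> linarith
  have hpos : 0 < rho c i + 1 := by
    unfold rho
    have := h.c0
    positivity
  have hy0 : y ≠ 0 := by
    rintro rfl
    rw [norm_zero] at h1
    linarith
  by_contra hcon
  have hang : y.im ≤ 0 ∨ y.re * (rho c i + 1) ≤ ‖y‖ * px M c i := by
    rw [not_and_or, not_lt, not_lt] at hcon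
    exact hcon
  obtain ⟨z, hz, hd⟩ := cov_arcA h (k := i) (by omega) hy0 habs hang
  refine hn (Or.inr (Or.inr (Or.inr (Or.inl ⟨i, ?_, z, hz, hd⟩))))
  rw [Finset.mem_Ico]; exact ⟨hi, by omega⟩

/-- Consequence: `px i < y.re`.  PROOF: `y.re (rho i + 1) > ‖y‖ px i ≥ (rho i + 1) px i`. -/
theorem re_gt_of_not_cov (h : Par M c) {y : ℂ} (hn : ¬ Cov M c y) {i : ℕ} (hi : 50 ≤ i)
    (hiM : i + 1 < M) (h1 : rho c i + 1 ≤ ‖y‖) (h2 : ‖y‖ < rho c (i + 1) + 1) :
    px M c i < y.re := by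
  obtain ⟨_, hray⟩ := ray_of_not_cov h hn hi hiM h1 h2
  have hpx := px_pos h (k := i) (by omega)
  have hpos : 0 < rho c i + 1 := by
    unfold rho
    have := h.c0
    positivity
  have h3 : (rho c i + 1) * px M c i ≤ ‖y‖ * px M c i := mul_le_mul_of_nonneg_right h1 hpx.le
  have h4 : px M c i * (rho c i + 1) < y.re * (rho c i + 1) := by linarith
  exact lt_of_mul_lt_mul_right h4 hpos.le

/-- Points far to the right are near the second centre.  PROOF: `y.re ≥ px (M - 50) ≥ rho (M-50) - 1 =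
b - beta (M-50) - 1 ≥ b - 103`, `y.re ≤ ‖y‖ ≤ b + 1`; `rho i > ‖y‖ - 3 ≥ b - 106`, so `beta i < 106` and
`py i ≤ ‖pt i - b‖ = beta i + 1 ≤ 107`; `y.im² = ‖y‖² - y.re² ≤ ‖y‖² (1 - (px i/(rho i + 1))²) =
(‖y‖ py i/(rho i + 1))² ≤ (2 * 107)²`.  So `‖y - b‖ ≤ 103 + 214 < 400`. -/
theorem right_cov (h : Par M c) {y : ℂ} (hy : ‖y‖ ≤ rho c M + 1) {i : ℕ} (hi : 50 ≤ i)
    (hiM : i + 1 < M) (h1 : rho c i + 1 ≤ ‖y‖) (h2 : ‖y‖ < rho c (i + 1) + 1)
    (him : 0 < y.im) (hray : ‖y‖ * px M c i < y.re * (rho c i + 1))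
    (hr : px M c (M - 50) ≤ y.re) : ‖y - (bb M c : ℂ)‖ ≤ 400 := by
  have hM := h.M102
  have hMr : (102 : ℝ) ≤ M := by exact_mod_cast hM
  have hc0 := h.c0
  have hc2 := h.c2
  have e2 : ((M - 50 : ℕ) : ℝ) = (M : ℝ) - 50 := by
    rw [Nat.cast_sub (by omega)]; norm_num
  have hb : 0 < bb M c := by
    unfold bb; linarith
  have hpxi := px_pos h (k := i) (by omega)
  have hre0 : bb M c - 103 ≤ y.re := by
    refine le_trans ?_ hr
    have h3 : 0 ≤ rho c (M - 50) * (2 / bb M c) := by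
      apply mul_nonneg _ (by positivity)
      unfold rho
      rw [e2]; linarith
    have h4 : px M c (M - 50) = rho c (M - 50) + rho c (M - 50) * (2 / bb M c) - 1 := by
      unfold px; ring
    rw [h4]
    have h5 : rho c (M - 50) = bb M c - (100 + c) := by
      unfold rho bb; rw [e2]; ring
    linarith
  have hre1 : y.re ≤ ‖y‖ := Complex.re_le_norm y
  have hrM : rho c M ≤ bb M c := by
    unfold rho bb; linarith
  have hposi : 0 < rho c i + 1 := by
    unfold rho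
    positivity
  have hrs := U6_rho_succ c i
  have hbi : beta M c i + 1 ≤ 107 := by
    unfold beta
    linarith
  have hu := norm_pt h (k := i) (by omega)
  have hus := norm_pt_sub h (k := i) (by omega)
  have hu2 : px M c i ^ 2 + py M c i ^ 2 = (rho c i + 1) ^ 2 := by
    rw [← hu, ← Complex.normSq_eq_norm_sq, Complex.normSq_apply]; simp only [pt]; ring
  have hpy0 := py_nonneg h i
  have hpy : py M c i ≤ 107 := by
    have h3 : |(pt M c i - (bb M c : ℂ)).im| ≤ ‖pt M c i - (bb M c : ℂ)‖ := Complex.abs_im_le_norm _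
    have h4 : (pt M c i - (bb M c : ℂ)).im = py M c i := by simp [pt]
    rw [h4, hus, abs_of_nonneg hpy0] at h3
    linarith
  have hy2 : y.re ^ 2 + y.im ^ 2 = ‖y‖ ^ 2 := by
    rw [← Complex.normSq_eq_norm_sq, Complex.normSq_apply]; ring
  have hyim : y.im * (rho c i + 1) ≤ ‖y‖ * py M c i := by
    apply abs_le_of_sq_le_sq' _ (mul_nonneg (norm_nonneg _) hpy0) |>.2
    have h5 : (‖y‖ * px M c i) ^ 2 ≤ (y.re * (rho c i + 1)) ^ 2 :=
      pow_le_pow_left₀ (mul_nonneg (norm_nonneg _) hpxi.le) hray.le 2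
    nlinarith
  have hy3 : ‖y‖ ≤ 2 * (rho c i + 1) := by
    have : 100 ≤ rho c i := by
      unfold rho
      have : (50 : ℝ) ≤ i := by exact_mod_cast hi
      linarith
    linarith
  have hyim2 : y.im ≤ 214 := by
    have h6 : y.im * (rho c i + 1) ≤ 214 * (rho c i + 1) := by
      calc y.im * (rho c i + 1) ≤ ‖y‖ * py M c i := hyim
        _ ≤ (2 * (rho c i + 1)) * 107 := mul_le_mul hy3 hpy hpy0 (by positivity)
        _ = 214 * (rho c i + 1) := by ring
    exact le_of_mul_le_mul_right h6 hposi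
  calc ‖y - (bb M c : ℂ)‖ ≤ |(y - (bb M c : ℂ)).re| + |(y - (bb M c : ℂ)).im| :=
        Complex.norm_le_abs_re_add_abs_im _
    _ ≤ 103 + 214 := by
        apply add_le_add
        · simp only [Complex.sub_re, Complex.ofReal_re]
          rw [abs_le]; constructor <;> linarith
        · simp only [Complex.sub_im, Complex.ofReal_im, sub_zero]
          rw [abs_of_pos him]; exact hyim2
    _ ≤ 400 := by norm_num

end Pool.Agent.W_8c5d11_h22
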