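import Pool.Agent.W_8c5d11_h22.U7

/-!
MP_8c5d11_gt, part U, file U7b: the covering of the disc.
-/

open MeasureTheory Metric Set

namespace Pool.Agent.W_8c5d11_h22

variable {M : ℕ} {c : ℝ}

/-- Points below the chord number `j`.  PROOF: suppose `y` is not covered.  `‖y - b‖ ≤ beta j + 1`
(`norm_sub_le_of_below`) and `400 < ‖y - b‖`, so there is `k` with `j ≤ k`, `k + 50 < M` and
`beta k - 1 < ‖y - b‖ ≤ beta k + 1` (`k = M - ⌈(‖y-b‖ - 1 - c)/2⌉`-type index, or `Nat.find`/induction; mind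
`beta (M - 50) + 1 ≤ 103`).  If `k > j`: `y.re ≤ px (j+1) ≤ px k` and `‖y - b‖ ≤ beta k + 1` give
`‖y - b‖ (b - px k) ≤ (b - y.re) (beta k + 1)`, so `cov_arcB` applies.  If `k = j`: either the same
inequality holds for `j` and `cov_arcB` applies, or it fails and `cov_kink_low` applies. -/
theorem cover_below (h : Par M c) {j : ℕ} (hj : 50 ≤ j) (hjM : j + 50 < M) {y : ℂ} {τ : ℝ}
    (hτ0 : 0 ≤ τ) (hτ1 : τ ≤ 1) (hre : y.re = (1 - τ) * px M c j + τ * px M c (j + 1))
    (him0 : 0 < y.im) (him : y.im ≤ (1 - τ) * py M c j + τ * py M c (j + 1)) : Cov M c y := by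
  by_contra hn
  have hB := norm_sub_le_of_below h (j := j) (by omega) hτ0 hτ1 hre him0.le him
  have h400 : 400 < ‖y - (bb M c : ℂ)‖ := by
    by_contra hcon
    exact hn (Or.inr (Or.inl (not_lt.1 hcon)))
  have hy0 : y ≠ (bb M c : ℂ) := by
    rintro rfl
    rw [sub_self, norm_zero] at h400
    linarith
  have hpx1 : y.re ≤ px M c (j + 1) := by
    rw [hre]
    have := px_mono h (j := j) (k := j + 1) (by omega)
    nlinarith
  classical
  have hex : ∃ k, j ≤ k ∧ beta M c (k + 1) + 1 < ‖y - (bb M c : ℂ)‖ := by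
    refine ⟨M - 51, by omega, ?_⟩
    have e : M - 51 + 1 = M - 50 := by omega
    have e2 : ((M - 50 : ℕ) : ℝ) = (M : ℝ) - 50 := by
      rw [Nat.cast_sub (by omega)]; norm_num
    rw [e]
    have : beta M c (M - 50) = 100 + c := by
      unfold beta bb rho
      rw [e2]; ring
    rw [this]
    linarith [h.c2]
  obtain ⟨k, hk⟩ : ∃ k, k = Nat.find hex := ⟨_, rfl⟩
  have hk1 := Nat.find_spec hex
  rw [← hk] at hk1
  have hkM : k + 50 < M := by
    have : k ≤ M - 51 := by
      rw [hk]
      apply Nat.find_min'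
      refine ⟨by omega, ?_⟩
      have e : M - 51 + 1 = M - 50 := by omega
      have e2 : ((M - 50 : ℕ) : ℝ) = (M : ℝ) - 50 := by
        rw [Nat.cast_sub (by omega)]; norm_num
      rw [e]
      have : beta M c (M - 50) = 100 + c := by
        unfold beta bb rho
        rw [e2]; ring
      rw [this]
      linarith [h.c2]
    omega
  have hk2 : ‖y - (bb M c : ℂ)‖ ≤ beta M c k + 1 := by
    rcases Nat.eq_or_lt_of_le hk1.1 with he | hlt
    · rw [← he]; exact hB
    · have hmin := Nat.find_min hex (m := k - 1) (by omega)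
      have e : k - 1 + 1 = k := by omega
      rw [e] at hmin
      by_contra hcon
      exact hmin ⟨by omega, not_le.1 hcon⟩
  have hk3 : beta M c k - 1 < ‖y - (bb M c : ℂ)‖ := by
    have := hk1.2
    rw [U6_beta_succ] at this
    linarith
  have hkI : k ∈ Finset.Ico 50 (M - 50) := by
    rw [Finset.mem_Ico]
    exact ⟨hj.trans hk1.1, by omega⟩
  have habs : |‖y - (bb M c : ℂ)‖ - beta M c k| ≤ 1 := by
    rw [abs_le]; constructor <;> linarith
  have harc : ¬ (‖y - (bb M c : ℂ)‖ * (bb M c - px M c k) ≤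
      (bb M c - y.re) * (beta M c k + 1)) := by
    intro hang
    obtain ⟨z, hz, hd⟩ := cov_arcB h (k := k) (by omega) hy0 habs him0.le hang
    exact hn (Or.inr (Or.inr (Or.inr (Or.inr ⟨k, hkI, z, Or.inl (Or.inl hz), hd⟩))))
  rcases Nat.eq_or_lt_of_le hk1.1 with he | hlt
  · subst he
    rw [not_le] at harc
    obtain ⟨z, hz, hd⟩ := cov_kink_low h hj hjM hτ0 hτ1 hre him0.le him harc hk3.le
    exact hn (Or.inr (Or.inr (Or.inr (Or.inr ⟨j, hkI, z, Or.inr hz, hd⟩))))
  · apply harc
    have hpk : px M c (j + 1) ≤ px M c k := px_mono h hlt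
    have hb := bb_sub_px_pos h (k := k) (by omega)
    calc ‖y - (bb M c : ℂ)‖ * (bb M c - px M c k) ≤ (beta M c k + 1) * (bb M c - px M c k) :=
          mul_le_mul_of_nonneg_right hk2 hb.le
      _ = (bb M c - px M c k) * (beta M c k + 1) := mul_comm _ _
      _ ≤ (bb M c - y.re) * (beta M c k + 1) := by
          apply mul_le_mul_of_nonneg_right (by linarith)
          linarith

/-- The covering of the disc.  PROOF: suppose not; take `i` from `exists_index`, `0 < y.im` and the ray
inequality from `ray_of_not_cov`, `px i < y.re`.  If `px (M - 50) ≤ y.re` use `right_cov`.  Otherwise there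
is `j` with `i ≤ j`, `j + 50 < M`, `px j ≤ y.re ≤ px (j+1)` (largest `j` with `px j ≤ y.re`; `px` is
increasing, `px i < y.re < px (M-50)`), and `τ` with `y.re = (1-τ) px j + τ px (j+1)`.  If `y` is below the
chord use `cover_below`.  If `y` is above: `j = i`: `cov_kink_up`.  `j > i`: `norm_ge_of_above` gives
`rho j + 1 ≤ ‖y‖ < rho (i+1) + 1 ≤ rho j + 1`, a contradiction. -/
theorem cover (h : Par M c) {y : ℂ} (hy : ‖y‖ ≤ rho c M + 1) : Cov M c y := by
  by_contra hn
  obtain ⟨i, hi, hiM, h1, h2⟩ := exists_index h hy hn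
  obtain ⟨him, hray⟩ := ray_of_not_cov h hn hi hiM h1 h2
  have hpi := re_gt_of_not_cov h hn hi hiM h1 h2
  by_cases hr : px M c (M - 50) ≤ y.re
  · exact hn (Or.inr (Or.inl (right_cov h hy hi hiM h1 h2 him hray hr)))
  rw [not_le] at hr
  classical
  have hiM' : i ≤ M - 51 := by
    by_contra hcon
    have : px M c (M - 50) ≤ px M c i := px_mono h (by omega)
    linarith
  have hM := h.M102
  have hex : ∃ j, i ≤ j ∧ y.re < px M c (j + 1) := by
    refine ⟨M - 51, hiM', ?_⟩
    have e : M - 51 + 1 = M - 50 := by omega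
    rw [e]; exact hr
  obtain ⟨j, hjd⟩ : ∃ j, j = Nat.find hex := ⟨_, rfl⟩
  have hj1 := Nat.find_spec hex
  rw [← hjd] at hj1
  have hjM : j + 50 < M := by
    have : j ≤ M - 51 := by
      rw [hjd]
      apply Nat.find_min'
      refine ⟨hiM', ?_⟩
      have e : M - 51 + 1 = M - 50 := by omega
      rw [e]; exact hr
    omega
  have hj2 : px M c j ≤ y.re := by
    rcases Nat.eq_or_lt_of_le hj1.1 with he | hlt
    · rw [← he]; exact hpi.le
    · have hmin := Nat.find_min hex (m := j - 1) (by omega)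
      have e : j - 1 + 1 = j := by omega
      rw [e] at hmin
      by_contra hcon
      exact hmin ⟨by omega, not_le.1 hcon⟩
  have hb : 0 < bb M c := by
    unfold bb
    have : (102 : ℝ) ≤ M := by exact_mod_cast hM
    linarith [h.c0]
  have hstep := px_succ h j
  have hstep0 : 0 < 2 * (1 + 2 / bb M c) := by positivity
  obtain ⟨τ, hτ⟩ : ∃ τ, τ = (y.re - px M c j) / (2 * (1 + 2 / bb M c)) := ⟨_, rfl⟩
  have hτ0 : 0 ≤ τ := by
    rw [hτ]; exact div_nonneg (by linarith) hstep0.le
  have hτ1 : τ ≤ 1 := by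
    rw [hτ, div_le_one hstep0]; linarith [hj1.2]
  have hre : y.re = (1 - τ) * px M c j + τ * px M c (j + 1) := by
    rw [hstep]
    have : τ * (2 * (1 + 2 / bb M c)) = y.re - px M c j := by
      rw [hτ, div_mul_cancel₀ _ hstep0.ne']
    linarith
  by_cases hbel : y.im ≤ (1 - τ) * py M c j + τ * py M c (j + 1)
  · exact hn (cover_below h (hi.trans hj1.1) hjM hτ0 hτ1 hre him hbel)
  rw [not_le] at hbel
  rcases Nat.eq_or_lt_of_le hj1.1 with he | hlt
  · rw [← he] at hre hbel hjM
    obtain ⟨z, hz, hd⟩ := cov_kink_up h hi hjM hτ0 hτ1 hre hbel.le hray h2.le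
    refine hn (Or.inr (Or.inr (Or.inr (Or.inr ⟨i, ?_, z, Or.inl (Or.inr hz), hd⟩))))
    rw [Finset.mem_Ico]; exact ⟨hi, by omega⟩
  · have h3 := norm_ge_of_above h (hi.trans hj1.1) hjM hτ0 hτ1 hre hbel.le
    have h4 : rho c (i + 1) ≤ rho c j := by
      unfold rho
      have : ((i + 1 : ℕ) : ℝ) ≤ j := by exact_mod_cast hlt
      linarith
    linarith

end Pool.Agent.W_8c5d11_h22
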